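import Pool.Agent.P8H83.ZL.Stm

/-!
# Project ZL (helper83), package LAY: layers of a representation (helper63)
-/

set_option autoImplicit false

namespace Pool.Agent.P8H83.ZL

namespace LAYaux

open Module

theorem fixed_aux {p : ℕ} [Fact p.Prime] {D V : Type} [Group D] [Finite D] (hD : IsPGroup p D)
    [AddCommGroup V] [Module (ZMod p) V] (f : D → V →+ V) (h1 : ∀ v, f 1 v = v)
    (hm : ∀ g h v, f (g * h) v = f g (f h v)) {v : V} (hv : v ≠ 0) : ∃ w : V, w ≠ 0 ∧ ∀ g, f g w = w := by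
  have hfin : Module.Finite (ZMod p) (Submodule.span (ZMod p) (Set.range fun g => f g v)) :=
    Module.Finite.span_of_finite (ZMod p) (Set.finite_range fun g => f g v)
  set S : Submodule (ZMod p) V := Submodule.span (ZMod p) (Set.range fun g => f g v) with hS
  have hfinS : Finite S := Module.finite_of_finite (ZMod p)
  have hvS : v ∈ S := Submodule.subset_span ⟨1, h1 v⟩
  have hmap : ∀ g, ∀ w ∈ S, f g w ∈ S := by
    intro g w hw
    have h2 : S ≤ S.comap ((f g).toZModLinearMap p) := by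
      rw [hS, Submodule.span_le]
      rintro _ ⟨h, rfl⟩
      show f g (f h v) ∈ Submodule.span (ZMod p) (Set.range fun g => f g v)
      rw [← hm]
      exact Submodule.subset_span ⟨g * h, rfl⟩
    exact h2 hw
  let _ : MulAction D S :=
    { smul := fun g s => ⟨f g s, hmap g s s.2⟩
      one_smul := fun s => Subtype.ext (h1 _)
      mul_smul := fun g h s => Subtype.ext (hm g h _) }
  have hnt : Nontrivial S := ⟨⟨⟨v, hvS⟩, 0, fun h => hv (congrArg Subtype.val h)⟩⟩
  have hcard : p ∣ Nat.card S := by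
    rw [Module.natCard_eq_pow_finrank (K := ZMod p) (V := S), Nat.card_zmod]
    exact dvd_pow_self p (Module.finrank_pos (R := ZMod p) (M := S)).ne'
  obtain ⟨b, hb, hb0⟩ := hD.exists_fixed_point_of_prime_dvd_card_of_fixed_point S hcard (a := (0 : S))
    (fun g => Subtype.ext (map_zero (f g)))
  refine ⟨b, fun h => hb0 (Subtype.ext h.symm), fun g => ?_⟩
  exact congrArg Subtype.val (hb g)

/-- a finite `p`-group acting linearly on a nonzero space of characteristic `p` has a nonzero fixed vector -/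
theorem exists_fixed {p : ℕ} (hp : p.Prime) {K : Type} [Field K] [CharP K p] {D : Type} [Group D] [Finite D]
    (hD : IsPGroup p D) {V : Type} [AddCommGroup V] [Module K V] (ρ : D →* (V →ₗ[K] V)) {v : V} (hv : v ≠ 0) :
    ∃ w : V, w ≠ 0 ∧ ∀ g, ρ g w = w := by
  have : Fact p.Prime := ⟨hp⟩
  exact @fixed_aux p _ D V _ _ hD _ (AddCommGroup.zmodModule (n := p) (fun x => by
    rw [← Nat.cast_smul_eq_nsmul K, CharP.cast_eq_zero, zero_smul])) (fun g => (ρ g).toAddMonoidHom)
    (fun v => by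
      show ρ 1 v = v
      rw [map_one]; rfl) (fun g h v => by
      show ρ (g * h) v = ρ g (ρ h v)
      rw [map_mul]; rfl) v hv

variable {K G V : Type} [Field K] [Group G] [AddCommGroup V] [Module K V]

/-- stable subspaces -/
abbrev Stab (ρ : G →* (V →ₗ[K] V)) (B : Submodule K V) : Prop := ∀ g, ∀ v ∈ B, ρ g v ∈ B

theorem quot_le (ρ : G →* (V →ₗ[K] V)) {B U : Submodule K V} (hB : Stab ρ B) (hU : Stab ρ U) (g : G) :
    B.submoduleOf U ≤ (B.submoduleOf U).comap ((ρ g).restrict (hU g)) := fun x hx => hB g _ hx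

/-- the representation on `U / B` -/
noncomputable def quotRep (ρ : G →* (V →ₗ[K] V)) {B U : Submodule K V} (hB : Stab ρ B) (hU : Stab ρ U) :
    G →* ((U ⧸ B.submoduleOf U) →ₗ[K] (U ⧸ B.submoduleOf U)) where
  toFun g := Submodule.mapQ _ _ ((ρ g).restrict (hU g)) (quot_le ρ hB hU g)
  map_one' := by
    apply LinearMap.ext
    intro x
    obtain ⟨y, rfl⟩ := Submodule.Quotient.mk_surjective _ x
    rw [Submodule.mapQ_apply]
    congr 1
    apply Subtype.ext
    show ρ 1 (y : V) = y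
    rw [map_one]; rfl
  map_mul' g h := by
    apply LinearMap.ext
    intro x
    obtain ⟨y, rfl⟩ := Submodule.Quotient.mk_surjective _ x
    rw [Module.End.mul_apply, Submodule.mapQ_apply, Submodule.mapQ_apply, Submodule.mapQ_apply]
    congr 1
    apply Subtype.ext
    show ρ (g * h) (y : V) = ρ g (ρ h y)
    rw [map_mul]; rfl

theorem quotRep_mk (ρ : G →* (V →ₗ[K] V)) {B U : Submodule K V} (hB : Stab ρ B) (hU : Stab ρ U) (g : G) (v : V)
    (hv : v ∈ U) : quotRep ρ hB hU g (Submodule.Quotient.mk ⟨v, hv⟩) = Submodule.Quotient.mk ⟨v, hv⟩ ↔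
      ρ g v - v ∈ B := by
  have h1 : quotRep ρ hB hU g (Submodule.Quotient.mk ⟨v, hv⟩) =
      Submodule.Quotient.mk ⟨ρ g v, hU g v hv⟩ := rfl
  rw [h1, Submodule.Quotient.eq]
  rfl

theorem finrank_quot [FiniteDimensional K V] {B U : Submodule K V} (h : B ≤ U) :
    finrank K (U ⧸ B.submoduleOf U) = finrank K U - finrank K B := by
  have h1 := Submodule.finrank_quotient_add_finrank (B.submoduleOf U)
  rw [LinearEquiv.finrank_eq (Submodule.submoduleOfEquivOfLe h)] at h1
  omega

theorem small_step [FiniteDimensional K V] {D : Subgroup G} {k : ℕ} (hST : SmallTriv K G D k)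
    (ρ : G →* (V →ₗ[K] V)) {B U : Submodule K V} (hB : Stab ρ B) (hU : Stab ρ U) (hBU : B ≤ U)
    (hlt : finrank K U - finrank K B < k) : ∀ v ∈ U, ∀ g ∈ D, ρ g v - v ∈ B := by
  intro v hv g hg
  rw [← quotRep_mk ρ hB hU g v hv]
  exact hST _ (quotRep ρ hB hU) (by rw [finrank_quot hBU]; exact hlt) g hg _

/-- the next layer -/
def next (ρ : G →* (V →ₗ[K] V)) (D : Subgroup G) (U Z : Submodule K V) : Submodule K V where
  carrier := {v | v ∈ Z ∧ ∀ g ∈ D, ρ g v - v ∈ U}
  add_mem' := by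
    rintro a b ⟨ha, ha'⟩ ⟨hb, hb'⟩
    refine ⟨Z.add_mem ha hb, fun g hg => ?_⟩
    have h := U.add_mem (ha' g hg) (hb' g hg)
    rw [map_add]
    convert h using 1
    abel
  zero_mem' := ⟨Z.zero_mem, fun g _ => by rw [map_zero, sub_zero]; exact U.zero_mem⟩
  smul_mem' := by
    rintro c a ⟨ha, ha'⟩
    refine ⟨Z.smul_mem c ha, fun g hg => ?_⟩
    rw [map_smul, ← smul_sub]
    exact U.smul_mem c (ha' g hg)

theorem next_stab (ρ : G →* (V →ₗ[K] V)) (D : Subgroup G) [D.Normal] {U Z : Submodule K V} (hU : Stab ρ U)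
    (hZ : Stab ρ Z) : Stab ρ (next ρ D U Z) := by
  rintro h v ⟨hv, hv'⟩
  refine ⟨hZ h v hv, fun g hg => ?_⟩
  have h1 : h⁻¹ * g * h ∈ D := by
    have := (inferInstance : D.Normal).conj_mem g hg h⁻¹
    simpa using this
  have h2 := hU h _ (hv' _ h1)
  have h3 : ρ h (ρ (h⁻¹ * g * h) v - v) = ρ g (ρ h v) - ρ h v := by
    rw [map_sub, ← Module.End.mul_apply, ← Module.End.mul_apply, ← map_mul, ← map_mul]
    congr 3
    group
  rw [h3] at h2
  exact h2

theorem next_ne [FiniteDimensional K V] {p : ℕ} (hp : p.Prime) [CharP K p] (ρ : G →* (V →ₗ[K] V)) (D : Subgroup G)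
    [Finite D] (hD : IsPGroup p D) {U Z : Submodule K V} (hU : Stab ρ U)
    (hZ : Stab ρ Z) (hUZ : U ≤ Z) (hne : U ≠ Z) : U < next ρ D U Z := by
  have hle : U ≤ next ρ D U Z := fun v hv => ⟨hUZ hv, fun g _ => U.sub_mem (hU g v hv) hv⟩
  obtain ⟨z, hz, hzU⟩ := SetLike.exists_of_lt (lt_of_le_of_ne hUZ hne)
  have hz0 : (Submodule.Quotient.mk (⟨z, hz⟩ : Z) : Z ⧸ U.submoduleOf Z) ≠ 0 := by
    rw [Ne, Submodule.Quotient.mk_eq_zero]
    exact hzU
  obtain ⟨w, hw0, hw⟩ := exists_fixed hp hD ((quotRep ρ hU hZ).comp D.subtype) hz0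
  obtain ⟨⟨y, hy⟩, rfl⟩ := Submodule.Quotient.mk_surjective _ w
  have hyU : y ∉ U := by
    intro h
    apply hw0
    rw [Submodule.Quotient.mk_eq_zero]
    exact h
  refine lt_of_le_of_ne hle fun h => hyU ?_
  rw [h]
  refine ⟨hy, fun g hg => ?_⟩
  exact (quotRep_mk ρ hU hZ g y hy).1 (hw ⟨g, hg⟩)

/-- chains with trivial layers -/
def Chain (ρ : G →* (V →ₗ[K] V)) (D : Subgroup G) (B Z : Submodule K V) (n : ℕ) : Prop :=
  ∃ S : ℕ → Submodule K V, S 0 = B ∧ S n = Z ∧
      (∀ i, S i ≤ S (i + 1)) ∧ (∀ i, ∀ v ∈ S (i + 1), ∀ g ∈ D, ρ g v - v ∈ S i)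

theorem Chain.refl (ρ : G →* (V →ₗ[K] V)) (D : Subgroup G) {B : Submodule K V} (hB : Stab ρ B) :
    Chain ρ D B B 0 :=
  ⟨fun _ => B, rfl, rfl, fun _ => le_rfl, fun _ v hv g _ => B.sub_mem (hB g v hv) hv⟩

theorem Chain.cons {ρ : G →* (V →ₗ[K] V)} {D : Subgroup G} {B U Z : Submodule K V} {n : ℕ} (hBU : B ≤ U)
    (h : ∀ v ∈ U, ∀ g ∈ D, ρ g v - v ∈ B) (hc : Chain ρ D U Z n) : Chain ρ D B Z (n + 1) := by
  obtain ⟨S, h0, hn, hm, ht⟩ := hc
  refine ⟨fun i => Nat.casesOn i B S, rfl, hn, fun i => ?_, fun i => ?_⟩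
  · cases i with
    | zero => show B ≤ S 0; rw [h0]; exact hBU
    | succ i => exact hm i
  · cases i with
    | zero =>
      show ∀ v ∈ S 0, ∀ g ∈ D, ρ g v - v ∈ B
      rw [h0]
      exact h
    | succ i => exact ht i

theorem Chain.pad {ρ : G →* (V →ₗ[K] V)} {D : Subgroup G} {B Z : Submodule K V} {n m : ℕ} (hZ : Stab ρ Z)
    (hc : Chain ρ D B Z n) (hnm : n ≤ m) : Chain ρ D B Z m := by
  obtain ⟨S, h0, hn, hmono, ht⟩ := hc
  refine ⟨fun i => S (min i n), ?_, ?_, fun i => ?_, fun i => ?_⟩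
  · simp [h0]
  · show S (min m n) = Z
    rw [min_eq_right hnm, hn]
  · show S (min i n) ≤ S (min (i + 1) n)
    rcases Nat.lt_or_ge i n with h | h
    · rw [min_eq_left h.le, min_eq_left (by omega : i + 1 ≤ n)]
      exact hmono i
    · rw [min_eq_right h, min_eq_right (by omega : n ≤ i + 1)]
  · show ∀ v ∈ S (min (i + 1) n), ∀ g ∈ D, ρ g v - v ∈ S (min i n)
    rcases Nat.lt_or_ge i n with h | h
    · rw [min_eq_left h.le, min_eq_left (by omega : i + 1 ≤ n)]
      exact ht i
    · rw [min_eq_right h, min_eq_right (by omega : n ≤ i + 1), hn]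
      exact fun v hv g _ => Z.sub_mem (hZ g v hv) hv

theorem main [FiniteDimensional K V] {p : ℕ} (hp : p.Prime) [CharP K p] (ρ : G →* (V →ₗ[K] V)) (D : Subgroup G)
    [D.Normal] [Finite D] (hD : IsPGroup p D) {k : ℕ} (hk : 0 < k) (hST : SmallTriv K G D k)
    {Z : Submodule K V} (hZ : Stab ρ Z) : ∀ b : ℕ, ∀ B : Submodule K V, B ≤ Z → Stab ρ B →
      finrank K Z - finrank K B = b → Chain ρ D B Z (layers b k) := by
  intro b
  induction b using Nat.strong_induction_on with
  | _ b ih =>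
    intro B hBZ hB hb
    have hBZf : finrank K B ≤ finrank K Z := Submodule.finrank_mono hBZ
    rcases Nat.eq_zero_or_pos b with hb0 | hb0
    · have hBZe : B = Z := Submodule.eq_of_le_of_finrank_eq hBZ (by omega)
      rw [hb0, layers, if_pos rfl, hBZe]
      exact Chain.refl ρ D hZ
    · have hwf := WellFounded.has_min (measure fun U : Submodule K V => finrank K Z - finrank K U).wf
        {U : Submodule K V | B ≤ U ∧ U ≤ Z ∧ Stab ρ U ∧ finrank K U - finrank K B < k}
        ⟨B, le_rfl, hBZ, hB, by omega⟩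
      obtain ⟨U, ⟨hBU, hUZ, hU, hUk⟩, hmax⟩ := hwf
      have hBUf : finrank K B ≤ finrank K U := Submodule.finrank_mono hBU
      have hUZf : finrank K U ≤ finrank K Z := Submodule.finrank_mono hUZ
      have hstep := small_step hST ρ hB hU hBU hUk
      rw [layers, if_neg hb0.ne']
      by_cases hne : U = Z
      · rw [hne] at hstep hBU
        exact ((Chain.refl ρ D hZ).cons hBU hstep).pad hZ (by omega)
      · have hlt := next_ne hp ρ D hD hU hZ hUZ hne
        set U' := next ρ D U Z with hU'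
        have hU'Z : U' ≤ Z := fun v hv => hv.1
        have hU's : Stab ρ U' := next_stab ρ D hU hZ
        have hltf : finrank K U < finrank K U' := Submodule.finrank_lt_finrank_of_lt hlt
        have hU'Zf : finrank K U' ≤ finrank K Z := Submodule.finrank_mono hU'Z
        have hge : k ≤ finrank K U' - finrank K B := by
          by_contra hcon
          apply hmax U' ⟨hBU.trans hlt.le, hU'Z, hU's, by omega⟩
          show finrank K Z - finrank K U' < finrank K Z - finrank K U
          omega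
        have hrec := ih (finrank K Z - finrank K U') (by omega) U' hU'Z hU's rfl
        have hch := (hrec.cons hlt.le (fun v hv g hg => hv.2 g hg)).cons hBU hstep
        refine hch.pad hZ ?_
        have hbk : 1 ≤ b / k := (Nat.one_le_div_iff hk).2 (by omega)
        rw [layers]
        split_ifs with h0
        · omega
        · have h1 : (finrank K Z - finrank K U') / k ≤ (b - k) / k := Nat.div_le_div_right (by omega)
          have h2 := Nat.div_eq_sub_div hk (by omega : k ≤ b)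
          omega

end LAYaux

theorem lay_proof : S_LAY := by
  intro p hp K _ _ G _ D _ _ hD k hk hST V _ _ _ ρ B Z hBZ hB hZ
  exact LAYaux.main hp ρ D hD hk hST hZ _ B hBZ hB rfl

end Pool.Agent.P8H83.ZL
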