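import Pool.Agent.P8H83.ZL.Stm

/-!
# Package REP: small representations of `(ℤ/p)^N_0 ⋊ A_N`
-/

set_option autoImplicit false

namespace Pool.Agent.P8H83.ZL

namespace REP

open Equiv Module

variable {N p : ℕ}

/-- An even permutation as an element of the group. -/
def pe (p : ℕ) (σ : Perm (Fin N)) (h : Perm.sign σ = 1) : WG N p := ⟨0, σ, by simp, h⟩

/-- A vector with coordinate sum zero as an element of the group. -/
def dv (v : Fin N → ZMod p) (h : ∑ i, v i = 0) : WG N p := ⟨v, 1, h, by simp⟩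

theorem pe_mul (σ τ : Perm (Fin N)) (h : Perm.sign σ = 1) (h' : Perm.sign τ = 1) :
    pe p σ h * pe p τ h' = pe p (σ * τ) (by rw [Perm.sign_mul, h, h', mul_one]) := by
  apply WG.ext'
  · funext i
    show (0 : ZMod p) + 0 = 0
    rw [add_zero]
  · rfl

theorem pe_congr {σ τ : Perm (Fin N)} (h : Perm.sign σ = 1) (h' : Perm.sign τ = 1) (e : σ = τ) :
    pe p σ h = pe p τ h' := by
  subst e; rfl

theorem pe_one : pe p (1 : Perm (Fin N)) (by simp) = 1 := rfl

theorem dv_congr {v w : Fin N → ZMod p} (h : ∑ i, v i = 0) (h' : ∑ i, w i = 0) (e : v = w) :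
    dv v h = dv w h' := by
  subst e; rfl

theorem dv_mul (v w : Fin N → ZMod p) (h : ∑ i, v i = 0) (h' : ∑ i, w i = 0) :
    dv v h * dv w h' = dv (v + w) (by simp [Finset.sum_add_distrib, h, h']) := by
  apply WG.ext'
  · funext i
    rfl
  · exact mul_one _

theorem dv_inv (v : Fin N → ZMod p) (h : ∑ i, v i = 0) :
    (dv v h)⁻¹ = dv (-v) (by simp [h]) := by
  apply WG.ext'
  · funext i
    rfl
  · exact inv_one

theorem pe_dv (σ : Perm (Fin N)) (h : Perm.sign σ = 1) (v : Fin N → ZMod p) (hv : ∑ i, v i = 0) :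
    pe p σ h * dv v hv * (pe p σ h)⁻¹ =
      dv (fun i => v (σ⁻¹ i)) (by rw [Equiv.sum_comp σ⁻¹ v, hv]) := by
  rw [mul_inv_eq_iff_eq_mul]
  apply WG.ext'
  · funext i
    show (0 : ZMod p) + v (σ⁻¹ i) = v (σ⁻¹ i) + 0
    rw [zero_add, add_zero]
  · show σ * 1 = 1 * σ
    rw [mul_one, one_mul]

/-- The vectors with coordinate sum zero. -/
def S0 (N p : ℕ) : Submodule (ZMod p) (Fin N → ZMod p) where
  carrier := {v | ∑ i, v i = 0}
  add_mem' := by
    intro v w hv hw
    show ∑ i, (v i + w i) = 0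
    rw [Finset.sum_add_distrib, show ∑ i, v i = 0 from hv, show ∑ i, w i = 0 from hw, add_zero]
  zero_mem' := by simp
  smul_mem' := by
    intro c v hv
    show ∑ i, c * v i = 0
    rw [← Finset.mul_sum, show ∑ i, v i = 0 from hv, mul_zero]

theorem s0 (v : S0 N p) : ∑ i, v.1 i = 0 := v.2

/-- The vectors which belong to a subgroup. -/
def sub (Q : Subgroup (WG N p)) : AddSubgroup (S0 N p) where
  carrier := {v | dv v.1 (s0 v) ∈ Q}
  add_mem' := by
    intro v w hv hw
    show dv (v.1 + w.1) _ ∈ Q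
    rw [← dv_mul v.1 w.1 (s0 v) (s0 w)]
    exact Q.mul_mem hv hw
  zero_mem' := Q.one_mem
  neg_mem' := by
    intro v hv
    show dv (-v.1) _ ∈ Q
    rw [← dv_inv v.1 (s0 v)]
    exact Q.inv_mem hv

/-- The difference of two unit vectors. -/
def df (a b : Fin N) : S0 N p :=
  ⟨Pi.single a 1 - Pi.single b 1, by
    show ∑ i, ((Pi.single a 1 : Fin N → ZMod p) i - (Pi.single b 1 : Fin N → ZMod p) i) = 0
    rw [Finset.sum_sub_distrib, Finset.sum_pi_single', Finset.sum_pi_single']
    simp⟩

theorem df_perm (a b : Fin N) (σ : Perm (Fin N)) :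
    (fun i => (df (p := p) a b).1 (σ⁻¹ i)) = (df (p := p) (σ a) (σ b)).1 := by
  funext i
  show (Pi.single a 1 : Fin N → ZMod p) (σ⁻¹ i) - (Pi.single b 1 : Fin N → ZMod p) (σ⁻¹ i) =
    (Pi.single (σ a) 1 : Fin N → ZMod p) i - (Pi.single (σ b) 1 : Fin N → ZMod p) i
  simp only [Pi.single_apply, Perm.inv_eq_iff_eq]

theorem conj_mem (Q : Subgroup (WG N p)) [Q.Normal] (σ : Perm (Fin N)) (h : Perm.sign σ = 1)
    (a b : Fin N) (hab : df a b ∈ sub Q) : df (σ a) (σ b) ∈ sub Q := by
  have h1 : pe p σ h * dv (df (p := p) a b).1 (s0 (df a b)) * (pe p σ h)⁻¹ ∈ Q :=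
    Subgroup.Normal.conj_mem inferInstance _ hab _
  rw [pe_dv] at h1
  show dv (df (p := p) (σ a) (σ b)).1 (s0 _) ∈ Q
  rw [dv_congr _ (s0 (df (σ a) (σ b))) (df_perm a b σ)] at h1
  exact h1

/-- One difference generates all vectors. -/
theorem all_mem (Q : Subgroup (WG N p)) [Q.Normal] (a b c d : Fin N) (hab : a ≠ b) (hcd : c ≠ d)
    (hca : c ≠ a) (hcb : c ≠ b) (hda : d ≠ a) (hdb : d ≠ b) (h : df a b ∈ sub Q) :
    ∀ g ∈ WG.D N p, g ∈ Q := by
  classical
  have h1 : ∀ x y : Fin N, x ≠ y → df x y ∈ sub Q := by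
    intro x y hxy
    -- a permutation which maps `a` to `x` and `b` to `y`
    have hex : ∃ σ : Perm (Fin N), σ a = x ∧ σ b = y := by
      have hb' : x ≠ swap a x b := by
        intro e
        exact hab ((swap a x).injective ((swap_apply_left a x).trans e))
      refine ⟨swap (swap a x b) y * swap a x, ?_, ?_⟩
      · rw [Perm.mul_apply, swap_apply_left, swap_apply_of_ne_of_ne hb' hxy]
      · rw [Perm.mul_apply, swap_apply_left]
    obtain ⟨σ, h2, h3⟩ := hex
    rcases Int.units_eq_one_or (Perm.sign σ) with hs | hs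
    · have h4 := conj_mem Q σ hs a b h
      rwa [h2, h3] at h4
    · have hs' : Perm.sign (σ * swap c d) = 1 := by
        rw [Perm.sign_mul, hs, Perm.sign_swap hcd]
        decide
      have h4 := conj_mem Q (σ * swap c d) hs' a b h
      rwa [Perm.mul_apply, Perm.mul_apply, swap_apply_of_ne_of_ne hca.symm hda.symm,
        swap_apply_of_ne_of_ne hcb.symm hdb.symm, h2, h3] at h4
  have h2 : ∀ x : Fin N, df x a ∈ AddSubgroup.toZModSubmodule p (sub Q) := by
    intro x
    rw [AddSubgroup.mem_toZModSubmodule]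
    by_cases hx : x = a
    · subst hx
      have : df (p := p) x x = 0 := by
        apply Subtype.ext
        exact sub_self _
      rw [this]
      exact (sub Q).zero_mem
    · exact h1 x a hx
  intro g hg
  have h3 : (⟨g.v, g.hv⟩ : S0 N p) ∈ AddSubgroup.toZModSubmodule p (sub Q) := by
    have h4 : (⟨g.v, g.hv⟩ : S0 N p) = ∑ i, g.v i • df i a := by
      apply Subtype.ext
      show g.v = _
      rw [Submodule.coe_sum]
      funext x
      rw [Finset.sum_apply]
      show g.v x = ∑ i, g.v i * ((Pi.single i 1 : Fin N → ZMod p) x -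
        (Pi.single a 1 : Fin N → ZMod p) x)
      simp only [mul_sub, Finset.sum_sub_distrib]
      rw [← Finset.sum_mul, g.hv, zero_mul, sub_zero]
      simp [Pi.single_apply]
    rw [h4]
    exact Submodule.sum_mem _ (fun i _ => Submodule.smul_mem _ _ (h2 i))
  rw [AddSubgroup.mem_toZModSubmodule] at h3
  have h5 : dv g.v g.hv ∈ Q := h3
  have h6 : dv g.v g.hv = g := WG.ext' rfl (WG.mem_D.1 hg).symm
  rwa [h6] at h5

/-! ### The involutions -/

section inv

variable {k : ℕ} (hN : 2 * k + 2 ≤ N)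

/-- Points. -/
def pa (i : Fin k) : Fin N := ⟨2 * i.1, by omega⟩
def pb (i : Fin k) : Fin N := ⟨2 * i.1 + 1, by omega⟩
def pc : Fin N := ⟨2 * k, by omega⟩
def pd : Fin N := ⟨2 * k + 1, by omega⟩

include hN in
theorem pa_inj : Function.Injective (pa hN) := by
  intro i j h
  have := congrArg Fin.val h
  simp only [pa] at this
  exact Fin.ext (by omega)

include hN in
theorem pb_inj : Function.Injective (pb hN) := by
  intro i j h
  have := congrArg Fin.val h
  simp only [pb] at this
  exact Fin.ext (by omega)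

theorem ab (i j : Fin k) : pa hN i ≠ pb hN j := by
  intro h
  have := congrArg Fin.val h
  simp only [pa, pb] at this
  omega

theorem ac (i : Fin k) : pa hN i ≠ pc hN := by
  intro h
  have := congrArg Fin.val h
  simp only [pa, pc] at this
  omega

theorem ad (i : Fin k) : pa hN i ≠ pd hN := by
  intro h
  have := congrArg Fin.val h
  simp only [pa, pd] at this
  omega

theorem bc (i : Fin k) : pb hN i ≠ pc hN := by
  intro h
  have := congrArg Fin.val h
  simp only [pb, pc] at this
  omega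

theorem bd (i : Fin k) : pb hN i ≠ pd hN := by
  intro h
  have := congrArg Fin.val h
  simp only [pb, pd] at this
  omega

theorem cd : pc hN ≠ pd hN := by
  intro h
  have := congrArg Fin.val h
  simp only [pc, pd] at this
  omega

/-- The involutions `t i` and the permutations `s i j`. -/
def t (i : Fin k) : Perm (Fin N) := swap (pa hN i) (pb hN i) * swap (pc hN) (pd hN)

def s (i j : Fin k) : Perm (Fin N) := swap (pa hN i) (pa hN j) * swap (pb hN i) (pb hN j)

theorem sign_t (i : Fin k) : Perm.sign (t hN i) = 1 := by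
  unfold t
  rw [Perm.sign_mul, Perm.sign_swap (ab hN i i), Perm.sign_swap (cd hN)]
  decide

theorem sign_s (i j : Fin k) : Perm.sign (s hN i j) = 1 := by
  unfold s
  by_cases h : i = j
  · subst h
    rw [swap_self, swap_self]
    exact map_one _
  · rw [Perm.sign_mul, Perm.sign_swap (fun e => h (pa_inj hN e)),
      Perm.sign_swap (fun e => h (pb_inj hN e))]
    decide

theorem s_pa (i j l : Fin k) : s hN i j (pa hN l) = pa hN (swap i j l) := by
  unfold s
  rw [Perm.mul_apply, swap_apply_of_ne_of_ne (ab hN l i) (ab hN l j)]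
  exact (pa_inj hN).swap_apply i j l |>.symm ▸ rfl

theorem s_pb (i j l : Fin k) : s hN i j (pb hN l) = pb hN (swap i j l) := by
  unfold s
  rw [Perm.mul_apply, (pb_inj hN).swap_apply i j l,
    swap_apply_of_ne_of_ne (ab hN i _).symm (ab hN j _).symm]

theorem s_pc (i j : Fin k) : s hN i j (pc hN) = pc hN := by
  unfold s
  rw [Perm.mul_apply, swap_apply_of_ne_of_ne (bc hN i).symm (bc hN j).symm,
    swap_apply_of_ne_of_ne (ac hN i).symm (ac hN j).symm]

theorem s_pd (i j : Fin k) : s hN i j (pd hN) = pd hN := by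
  unfold s
  rw [Perm.mul_apply, swap_apply_of_ne_of_ne (bd hN i).symm (bd hN j).symm,
    swap_apply_of_ne_of_ne (ad hN i).symm (ad hN j).symm]

theorem s_t (i j l : Fin k) : s hN i j * t hN l = t hN (swap i j l) * s hN i j := by
  have e1 : s hN i j * swap (pa hN l) (pb hN l) =
      swap (pa hN (swap i j l)) (pb hN (swap i j l)) * s hN i j := by
    rw [Equiv.mul_swap_eq_swap_mul, s_pa, s_pb]
  have e2 : s hN i j * swap (pc hN) (pd hN) = swap (pc hN) (pd hN) * s hN i j := by
    rw [Equiv.mul_swap_eq_swap_mul, s_pc, s_pd]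
  unfold t
  rw [← mul_assoc, e1, mul_assoc, e2, mul_assoc]

theorem comm_cd (i : Fin k) :
    Commute (swap (pa hN i) (pb hN i)) (swap (pc hN) (pd hN)) := by
  apply Perm.Disjoint.commute
  apply Perm.disjoint_swap_swap
  simp [ab hN, ac hN, ad hN, bc hN, bd hN, cd hN]

theorem comm_ab (i j : Fin k) :
    Commute (swap (pa hN i) (pb hN i)) (swap (pa hN j) (pb hN j)) := by
  by_cases h : i = j
  · subst h
    exact Commute.refl _
  · apply Perm.Disjoint.commute
    apply Perm.disjoint_swap_swap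
    have h1 : pa hN i ≠ pa hN j := fun e => h (pa_inj hN e)
    have h2 : pb hN i ≠ pb hN j := fun e => h (pb_inj hN e)
    simp [ab hN, (ab hN j i).symm, h1, h2]

theorem t_comm (i j : Fin k) : t hN i * t hN j = t hN j * t hN i := by
  have h : Commute (t hN i) (t hN j) := by
    unfold t
    exact Commute.mul_left (Commute.mul_right (comm_ab hN i j) (comm_cd hN i))
      (Commute.mul_right (comm_cd hN j).symm (Commute.refl _))
  exact h

theorem t_sq (i : Fin k) : t hN i * t hN i = 1 := by
  have h : t hN i * t hN i = (swap (pa hN i) (pb hN i) * swap (pa hN i) (pb hN i)) *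
      (swap (pc hN) (pd hN) * swap (pc hN) (pd hN)) := by
    unfold t
    rw [mul_assoc, ← mul_assoc (swap (pc hN) (pd hN)), ← (comm_cd hN i).eq]
    simp only [mul_assoc]
  rw [h, swap_mul_self, swap_mul_self, one_mul]

theorem t_pa (i : Fin k) : t hN i (pa hN i) = pb hN i := by
  unfold t
  rw [Perm.mul_apply, swap_apply_of_ne_of_ne (ac hN i) (ad hN i), swap_apply_left]

theorem t_pb (i : Fin k) : t hN i (pb hN i) = pa hN i := by
  unfold t
  rw [Perm.mul_apply, swap_apply_of_ne_of_ne (bc hN i) (bd hN i), swap_apply_right]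

theorem t_pa' {i j : Fin k} (h : i ≠ j) : t hN j (pa hN i) = pa hN i := by
  unfold t
  rw [Perm.mul_apply, swap_apply_of_ne_of_ne (ac hN i) (ad hN i),
    swap_apply_of_ne_of_ne (fun e => h (pa_inj hN e)) (ab hN i j)]

theorem t_pb' {i j : Fin k} (h : i ≠ j) : t hN j (pb hN i) = pb hN i := by
  unfold t
  rw [Perm.mul_apply, swap_apply_of_ne_of_ne (bc hN i) (bd hN i),
    swap_apply_of_ne_of_ne (ab hN j i).symm (fun e => h (pb_inj hN e))]

/-- The elements of the group. -/
def T (p : ℕ) (i : Fin k) : WG N p := pe p (t hN i) (sign_t hN i)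
def S (p : ℕ) (i j : Fin k) : WG N p := pe p (s hN i j) (sign_s hN i j)

theorem T_comm (i j : Fin k) : T hN p i * T hN p j = T hN p j * T hN p i := by
  unfold T
  rw [pe_mul, pe_mul]
  exact pe_congr _ _ (t_comm hN i j)

theorem T_sq (i : Fin k) : T hN p i * T hN p i = 1 := by
  unfold T
  rw [pe_mul]
  exact pe_congr _ (by simp) (t_sq hN i)

theorem S_T (i j l : Fin k) : S hN p i j * T hN p l = T hN p (swap i j l) * S hN p i j := by
  unfold T S
  rw [pe_mul, pe_mul]
  exact pe_congr _ _ (s_t hN i j l)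

/-- Two of the involutions are equal modulo `Q`. -/
theorem caseA (hp : p.Prime) (hp2 : p ≠ 2) (Q : Subgroup (WG N p)) [Q.Normal] (i j : Fin k)
    (hij : i ≠ j) (h : T hN p i * T hN p j ∈ Q) : ∀ g ∈ WG.D N p, g ∈ Q := by
  have : Fact p.Prime := ⟨hp⟩
  have h1 : T hN p i * T hN p j = pe p (t hN i * t hN j) (by
      rw [Perm.sign_mul, sign_t, sign_t, mul_one]) := by
    unfold T
    rw [pe_mul]
  set τ := t hN i * t hN j with hτ
  have hs : Perm.sign τ = 1 := by
    rw [hτ, Perm.sign_mul, sign_t, sign_t, mul_one]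
  have ha : τ (pa hN i) = pb hN i := by
    rw [hτ, Perm.mul_apply, t_pa' hN hij, t_pa]
  have hb : τ (pb hN i) = pa hN i := by
    rw [hτ, Perm.mul_apply, t_pb' hN hij, t_pb]
  have h2 : pe p τ hs ∈ Q := by
    rw [h1] at h
    exact h
  set x : WG N p := dv (df (p := p) (pa hN i) (pb hN i)).1 (s0 _) with hx
  have h3 : pe p τ hs * x * (pe p τ hs)⁻¹ = dv (df (p := p) (pb hN i) (pa hN i)).1 (s0 _) := by
    rw [hx, pe_dv]
    apply dv_congr
    rw [df_perm, ha, hb]
  have h4 : x⁻¹ * (pe p τ hs * x * (pe p τ hs)⁻¹) ∈ Q := by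
    have h5 : x⁻¹ * (pe p τ hs * x * (pe p τ hs)⁻¹) =
        (x⁻¹ * pe p τ hs * (x⁻¹)⁻¹) * (pe p τ hs)⁻¹ := by group
    rw [h5]
    exact Q.mul_mem (Subgroup.Normal.conj_mem inferInstance _ h2 _) (Q.inv_mem h2)
  rw [h3, hx, dv_inv, dv_mul] at h4
  have h6 : (-2 : ZMod p) • df (p := p) (pa hN i) (pb hN i) ∈
      AddSubgroup.toZModSubmodule p (sub Q) := by
    rw [AddSubgroup.mem_toZModSubmodule]
    show dv _ (s0 _) ∈ Q
    have h7 : ((-2 : ZMod p) • df (p := p) (pa hN i) (pb hN i)).1 =
        -(df (p := p) (pa hN i) (pb hN i)).1 + (df (p := p) (pb hN i) (pa hN i)).1 := by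
      show (-2 : ZMod p) • (Pi.single _ 1 - Pi.single _ 1) =
        -(Pi.single _ 1 - Pi.single _ 1) + (Pi.single _ 1 - Pi.single _ 1)
      module
    rw [dv_congr (s0 _) (by
      rw [← h7]
      exact s0 _) h7]
    exact h4
  have h8 : (-2 : ZMod p) ≠ 0 := by
    rw [neg_ne_zero]
    intro h
    have h9 : ((2 : ℕ) : ZMod p) = 0 := by exact_mod_cast h
    rw [ZMod.natCast_eq_zero_iff] at h9
    exact hp2 ((Nat.prime_dvd_prime_iff_eq hp Nat.prime_two).1 h9)
  rw [Submodule.smul_mem_iff _ h8, AddSubgroup.mem_toZModSubmodule] at h6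
  exact all_mem Q (pa hN i) (pb hN i) (pc hN) (pd hN) (ab hN i i) (cd hN) (ac hN i).symm
    (bc hN i).symm (ad hN i).symm (bd hN i).symm h6

end inv

/-! ### Commuting involutions -/

section lin

variable {K V : Type} [Field K] [AddCommGroup V] [Module K V]

theorem joint {k : ℕ} (T : Fin k → V →ₗ[K] V) (hc : ∀ i j v, T i (T j v) = T j (T i v))
    (hs : ∀ i v, T i (T i v) = v) (i0 j0 : Fin k) (u : V) (hu : u ≠ 0) (h1 : T i0 u = u)
    (h2 : T j0 u = -u) (F : Finset (Fin k)) : ∃ v : V, v ≠ 0 ∧ T i0 v = v ∧ T j0 v = -v ∧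
      ∀ m ∈ F, T m v = v ∨ T m v = -v := by
  classical
  induction F using Finset.induction_on with
  | empty => exact ⟨u, hu, h1, h2, fun m hm => absurd hm (Finset.notMem_empty m)⟩
  | insert m F _ ih =>
    obtain ⟨v, hv, h3, h4, h5⟩ := ih
    by_cases h : v + T m v = 0
    · refine ⟨v, hv, h3, h4, fun l hl => ?_⟩
      rcases Finset.mem_insert.1 hl with rfl | hl
      · right
        exact (neg_eq_of_add_eq_zero_right h).symm
      · exact h5 l hl
    · refine ⟨v + T m v, h, ?_, ?_, fun l hl => ?_⟩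
      · rw [map_add, hc, h3]
      · rw [map_add, hc, h4, map_neg]
        abel
      · rcases Finset.mem_insert.1 hl with rfl | hl
        · left
          rw [map_add, hs, add_comm]
        · rcases h5 l hl with h6 | h6
          · left
            rw [map_add, hc, h6]
          · right
            rw [map_add, hc, h6, map_neg]
            abel

theorem start {k : ℕ} (T : Fin k → V →ₗ[K] V) (hc : ∀ i j v, T i (T j v) = T j (T i v))
    (hs : ∀ i v, T i (T i v) = v) (h2 : (2 : K) ≠ 0) (i j : Fin k) (v : V) (hv : T i v ≠ T j v) :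
    ∃ (i0 j0 : Fin k) (u : V), u ≠ 0 ∧ T i0 u = u ∧ T j0 u = -u := by
  by_cases h : v + T i v - T j v - T i (T j v) = 0
  · refine ⟨j, i, v - T i v + T j v - T i (T j v), ?_, ?_, ?_⟩
    · intro h'
      have h3 : (2 : K) • (T i v - T j v) = 0 := by
        have : (2 : K) • (T i v - T j v) = (v + T i v - T j v - T i (T j v)) -
            (v - T i v + T j v - T i (T j v)) := by
          rw [two_smul]
          abel
        rw [this, h, h', sub_zero]
      rcases smul_eq_zero.1 h3 with h4 | h4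
      · exact h2 h4
      · exact hv (sub_eq_zero.1 h4)
    · rw [map_sub, map_add, map_sub, hs, hc i j v, hs, ← hc i j v]
      abel
    · rw [map_sub, map_add, map_sub, hs, hs]
      abel
  · refine ⟨i, j, v + T i v - T j v - T i (T j v), h, ?_, ?_⟩
    · rw [map_sub, map_sub, map_add, hs, hs]
      abel
    · rw [map_sub, map_sub, map_add, hs, hc i j v, hs, ← hc i j v]
      abel

/-- The pairs of indices. -/
def pr {k : ℕ} (A : Fin k → Prop) [DecidablePred A] (i0 j0 l : Fin k) : Fin k × Fin k :=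
  if l = i0 then (i0, i0) else if A l then (l, j0) else (i0, l)

theorem pr_inj {k : ℕ} (A : Fin k → Prop) [DecidablePred A] (i0 j0 : Fin k) (h1 : A i0)
    (h2 : ¬ A j0) (l l' : Fin k) (h : ∀ m, A (swap (pr A i0 j0 l).1 (pr A i0 j0 l).2 m) ↔
      A (swap (pr A i0 j0 l').1 (pr A i0 j0 l').2 m)) : l = l' := by
  have key : ∀ l : Fin k, (∀ m, A (swap (pr A i0 j0 l).1 (pr A i0 j0 l).2 m) ↔
      if l = i0 then A m else if A l then (A m ∨ m = j0) ∧ m ≠ l else (A m ∨ m = l) ∧ m ≠ i0) := by
    intro l m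
    have hij : i0 ≠ j0 := fun e => h2 (e ▸ h1)
    unfold pr
    split_ifs with h3 h4
    · rw [swap_self]
      rfl
    · by_cases hm : m = l
      · subst hm
        rw [swap_apply_left]
        simp [h2]
      · by_cases hm' : m = j0
        · subst hm'
          rw [swap_apply_right]
          simp [h4, hm]
        · rw [swap_apply_of_ne_of_ne hm hm']
          simp [hm, hm']
    · by_cases hm : m = i0
      · subst hm
        rw [swap_apply_left]
        simp [h4]
      · by_cases hm' : m = l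
        · subst hm'
          rw [swap_apply_right]
          simp [h1, hm]
        · rw [swap_apply_of_ne_of_ne hm hm']
          simp [hm, hm']
  have h' : ∀ m, (if l = i0 then A m else if A l then (A m ∨ m = j0) ∧ m ≠ l else
      (A m ∨ m = l) ∧ m ≠ i0) ↔ (if l' = i0 then A m else if A l' then (A m ∨ m = j0) ∧ m ≠ l'
      else (A m ∨ m = l') ∧ m ≠ i0) := by
    intro m
    rw [← key l m, ← key l' m]
    exact h m
  have e0 := h' i0
  have e1 := h' l
  have e2 := h' l'
  by_contra hne
  have hne' : l' ≠ l := fun e => hne e.symm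
  by_cases hA : A l
  · by_cases hA' : A l'
    · by_cases hl : l = i0
      · have hl' : l' ≠ i0 := fun e => hne (hl.trans e.symm)
        rw [if_pos hl, if_neg hl', if_pos hA'] at e2
        exact (e2.1 hA').2 rfl
      · by_cases hl' : l' = i0
        · rw [if_neg hl, if_pos hA, if_pos hl'] at e1
          exact (e1.2 hA).2 rfl
        · rw [if_neg hl, if_pos hA, if_neg hl', if_pos hA'] at e1
          exact (e1.2 ⟨Or.inl hA, hne⟩).2 rfl
    · have hl' : l' ≠ i0 := fun e => hA' (e ▸ h1)
      rw [if_neg hl', if_neg hA'] at e0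
      by_cases hl : l = i0
      · rw [if_pos hl] at e0
        exact (e0.1 h1).2 rfl
      · rw [if_neg hl, if_pos hA] at e0
        exact (e0.1 ⟨Or.inl h1, fun e => hl e.symm⟩).2 rfl
  · have hl : l ≠ i0 := fun e => hA (e ▸ h1)
    by_cases hA' : A l'
    · rw [if_neg hl, if_neg hA] at e0
      by_cases hl' : l' = i0
      · rw [if_pos hl'] at e0
        exact (e0.2 h1).2 rfl
      · rw [if_neg hl', if_pos hA'] at e0
        exact (e0.2 ⟨Or.inl h1, fun e => hl' e.symm⟩).2 rfl
    · have hl' : l' ≠ i0 := fun e => hA' (e ▸ h1)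
      rw [if_neg hl, if_neg hA, if_neg hl', if_neg hA'] at e1
      rcases (e1.1 ⟨Or.inr rfl, hl⟩).1 with h3 | h3
      · exact hA h3
      · exact hne h3

end lin

theorem main (p : ℕ) (hp : p.Prime) (hp2 : p ≠ 2) (N : ℕ) (K : Type) [Field K] [CharP K p]
    (V : Type) [AddCommGroup V] [Module K V] [FiniteDimensional K V]
    (ρ : WG N p →* (V →ₗ[K] V)) (k : ℕ) (hN : 2 * k + 2 ≤ N) (hk : 2 ≤ k)
    (hV : finrank K V < k) (g : WG N p) (hg : g ∈ WG.D N p) : ρ g = 1 := by
  classical
  have h20 : (2 : K) ≠ 0 := by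
    intro h
    have h9 : ((2 : ℕ) : K) = 0 := by exact_mod_cast h
    rw [CharP.cast_eq_zero_iff K p] at h9
    exact hp2 ((Nat.prime_dvd_prime_iff_eq hp Nat.prime_two).1 h9)
  let i : Fin k := ⟨0, by omega⟩
  let j : Fin k := ⟨1, by omega⟩
  have hij : i ≠ j := by
    intro h
    have := congrArg Fin.val h
    simp [i, j] at this
  by_cases hA : ρ (T hN p i) = ρ (T hN p j)
  · have h1 : T hN p i * T hN p j ∈ ρ.ker := by
      rw [MonoidHom.mem_ker, map_mul, hA, ← map_mul, T_sq, map_one]
    have h2 := caseA hN hp hp2 ρ.ker i j hij h1 g hg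
    exact MonoidHom.mem_ker.1 h2
  exfalso
  let R : Fin k → V →ₗ[K] V := fun m => ρ (T hN p m)
  have hc : ∀ i j v, R i (R j v) = R j (R i v) := by
    intro i j v
    show (ρ (T hN p i) * ρ (T hN p j)) v = (ρ (T hN p j) * ρ (T hN p i)) v
    rw [← map_mul, ← map_mul, T_comm]
  have hs : ∀ i v, R i (R i v) = v := by
    intro i v
    show (ρ (T hN p i) * ρ (T hN p i)) v = v
    rw [← map_mul, T_sq, map_one]
    rfl
  have hex : ∃ v, R i v ≠ R j v := by
    by_contra h
    push Not at h
    exact hA (LinearMap.ext h)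
  obtain ⟨v0, hv0⟩ := hex
  obtain ⟨i0, j0, u, hu, hu1, hu2⟩ := start R hc hs h20 i j v0 hv0
  obtain ⟨v, hv, hv1, hv2, hv3⟩ := joint R hc hs i0 j0 u hu hu1 hu2 Finset.univ
  let A : Fin k → Prop := fun m => R m v = v
  let ε : Fin k → K := fun m => if A m then 1 else -1
  have hε : ∀ m, R m v = ε m • v := by
    intro m
    by_cases h : A m
    · show R m v = (if A m then 1 else -1 : K) • v
      rw [if_pos h, one_smul]
      exact h
    · show R m v = (if A m then 1 else -1 : K) • v
      rw [if_neg h, neg_smul, one_smul]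
      rcases hv3 m (Finset.mem_univ m) with h1 | h1
      · exact absurd h1 h
      · exact h1
  have hA1 : A i0 := hv1
  have hA2 : ¬ A j0 := by
    intro h
    have h3 : R j0 v = v := h
    rw [hv2] at h3
    have h4 : (2 : K) • v = 0 := by
      rw [two_smul]
      nth_rewrite 1 [← h3]
      exact neg_add_cancel v
    rcases smul_eq_zero.1 h4 with h5 | h5
    · exact h20 h5
    · exact hv h5
  have hone : (1 : K) ≠ -1 := by
    intro h
    apply h20
    have : (2 : K) = 1 + 1 := by norm_num
    rw [this]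
    nth_rewrite 2 [h]
    exact add_neg_cancel 1
  let w : Fin k → V := fun l => ρ (S hN p (pr A i0 j0 l).1 (pr A i0 j0 l).2) v
  let χ : Fin k → Fin k → K := fun l m => ε (swap (pr A i0 j0 l).1 (pr A i0 j0 l).2 m)
  have hw : ∀ l m, R m (w l) = χ l m • w l := by
    intro l m
    have h1 := S_T (p := p) hN (pr A i0 j0 l).1 (pr A i0 j0 l).2
      (swap (pr A i0 j0 l).1 (pr A i0 j0 l).2 m)
    rw [swap_apply_self] at h1
    show (ρ (T hN p m) * ρ (S hN p (pr A i0 j0 l).1 (pr A i0 j0 l).2)) v = _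
    rw [← map_mul, ← h1, map_mul]
    show ρ (S hN p (pr A i0 j0 l).1 (pr A i0 j0 l).2) (R _ v) = _
    rw [hε, map_smul]
  have hw0 : ∀ l, w l ≠ 0 := by
    intro l h
    apply hv
    have h1 : (ρ (S hN p (pr A i0 j0 l).1 (pr A i0 j0 l).2)⁻¹ *
        ρ (S hN p (pr A i0 j0 l).1 (pr A i0 j0 l).2)) v = v := by
      rw [← map_mul, inv_mul_cancel, map_one]
      rfl
    rw [← h1, Module.End.mul_apply]
    show ρ _ (w l) = 0
    rw [h, map_zero]
  have hinj : Function.Injective χ := by
    intro l l' h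
    apply pr_inj A i0 j0 hA1 hA2
    intro m
    have h1 : (if A (swap (pr A i0 j0 l).1 (pr A i0 j0 l).2 m) then (1 : K) else -1) =
      if A (swap (pr A i0 j0 l').1 (pr A i0 j0 l').2 m) then (1 : K) else -1 := congrFun h m
    split_ifs at h1 with h2 h3 h3
    · exact iff_of_true h2 h3
    · exact absurd h1 hone
    · exact absurd h1.symm hone
    · exact iff_of_false h2 h3
  have hind := Module.End.independent_iInf_maxGenEigenspace_of_forall_mapsTo R (by
    intro i j φ
    apply Module.End.mapsTo_maxGenEigenspace_of_comm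
    exact LinearMap.ext (fun v => hc j i v))
  have hli : LinearIndependent K w :=
    (hind.comp hinj).linearIndependent _ (fun l => by
      show w l ∈ ⨅ i, Module.End.maxGenEigenspace (R i) (χ l i)
      rw [Submodule.mem_iInf]
      intro m
      rw [Module.End.mem_maxGenEigenspace]
      refine ⟨1, ?_⟩
      rw [pow_one, LinearMap.sub_apply, hw l m]
      simp) hw0
  have := hli.fintype_card_le_finrank
  rw [Fintype.card_fin] at this
  omega

end REP

theorem rep_proof : S_REP := by
  intro p hp hp2 N K _ _ V _ _ _ ρ hV g hg v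
  rcases Nat.lt_or_ge ((N - 2) / 2) 2 with h | h
  · have h0 : Module.finrank K V = 0 := by omega
    have := Module.finrank_zero_iff.1 h0
    exact Subsingleton.elim _ _
  · have h1 := REP.main p hp hp2 N K V ρ ((N - 2) / 2) (by omega) h hV g hg
    rw [h1]
    rfl

end Pool.Agent.P8H83.ZL
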