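import Pool.Agent.P8H83.ZL.Stm

/-!
# Monomial matrices
-/

set_option autoImplicit false
set_option linter.unusedSectionVars false

namespace Pool.Agent.P8H83.ZL

open Module Matrix

namespace Mono

variable {R : Type} [CommRing R] {J : Type} [Fintype J] [DecidableEq J] {p N : ℕ}

/-- The power `ζ ^ a` for a residue `a` modulo `p`. -/
def zp (ζ : R) (a : ZMod p) : R := ζ ^ a.val

theorem zp_zero (ζ : R) : zp (p := p) ζ 0 = 1 := by
  unfold zp
  rw [ZMod.val_zero, pow_zero]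

theorem pow_mod' {ζ : R} (hζ : ζ ^ p = 1) (n : ℕ) : ζ ^ (n % p) = ζ ^ n := by
  conv_rhs => rw [← Nat.mod_add_div n p, pow_add, pow_mul, hζ, one_pow, mul_one]

theorem zp_add [NeZero p] {ζ : R} (hζ : ζ ^ p = 1) (a b : ZMod p) :
    zp ζ (a + b) = zp ζ a * zp ζ b := by
  unfold zp
  rw [ZMod.val_add, pow_mod' hζ, pow_add]

theorem zp_sum [NeZero p] {ζ : R} (hζ : ζ ^ p = 1) {I : Type} (s : Finset I) (v : I → ZMod p) :
    ∏ i ∈ s, zp ζ (v i) = zp ζ (∑ i ∈ s, v i) := by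
  classical
  induction s using Finset.induction_on with
  | empty => rw [Finset.prod_empty, Finset.sum_empty, zp_zero]
  | insert a s ha ih => rw [Finset.prod_insert ha, Finset.sum_insert ha, zp_add hζ, ih]

theorem zp_inj (hp : p.Prime) {ζ : R} (hζ : ζ ^ p = 1) (hζ1 : ζ ≠ 1) {a b : ZMod p}
    (h : zp ζ a = zp ζ b) : a = b := by
  have : NeZero p := ⟨hp.ne_zero⟩
  have : Fact p.Prime := ⟨hp⟩
  have ho : orderOf ζ = p := orderOf_eq_prime hζ hζ1
  unfold zp at h
  have hu : IsUnit ζ := IsUnit.of_pow_eq_one hζ hp.ne_zero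
  obtain ⟨u, rfl⟩ := hu
  have h1 : u ^ a.val = u ^ b.val := by
    apply Units.ext
    rw [Units.val_pow_eq_pow_val, Units.val_pow_eq_pow_val, h]
  rw [pow_eq_pow_iff_modEq] at h1
  have h2 : orderOf u = p := by rw [← orderOf_units, ho]
  rw [h2] at h1
  have h3 := Nat.ModEq.eq_of_lt_of_lt h1 (ZMod.val_lt a) (ZMod.val_lt b)
  exact ZMod.val_injective p h3

/-- The monomial matrix with entries `ζ ^ v a` in the places `(a, b)`, `a = σ b`. -/
def mm (ζ : R) (v : J → ZMod p) (σ : Equiv.Perm J) : Matrix J J R :=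
  fun a b => if a = σ b then zp ζ (v a) else 0

theorem mm_one (ζ : R) : mm (p := p) ζ (0 : J → ZMod p) 1 = 1 := by
  ext a b
  unfold mm
  rw [Matrix.one_apply]
  simp only [Equiv.Perm.one_apply, Pi.zero_apply, zp_zero]

theorem mm_mul [NeZero p] {ζ : R} (hζ : ζ ^ p = 1) (v w : J → ZMod p) (σ τ : Equiv.Perm J) :
    mm ζ v σ * mm ζ w τ = mm ζ (fun i => v i + w (σ⁻¹ i)) (σ * τ) := by
  ext a c
  rw [Matrix.mul_apply]
  unfold mm
  rw [Finset.sum_eq_single (σ⁻¹ a)]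
  · rw [if_pos (by simp)]
    by_cases h : σ⁻¹ a = τ c
    · rw [if_pos h, if_pos (by rw [Equiv.Perm.mul_apply, ← h]; simp), zp_add hζ]
    · rw [if_neg h, if_neg (fun h' => h (by
        rw [h', Equiv.Perm.mul_apply]; simp)), mul_zero]
  · intro b _ hb
    rw [if_neg (fun h => hb (by rw [h]; simp)), zero_mul]
  · intro h
    exact absurd (Finset.mem_univ _) h

theorem mm_diag (ζ : R) (v : J → ZMod p) : mm ζ v 1 = diagonal (fun i => zp ζ (v i)) := by
  ext a b
  unfold mm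
  rw [Matrix.diagonal_apply]
  rfl

theorem mm_det [NeZero p] {ζ : R} (hζ : ζ ^ p = 1) (v : J → ZMod p) (σ : Equiv.Perm J) :
    (mm ζ v σ).det = (Equiv.Perm.sign σ : ℤ) * zp ζ (∑ i, v i) := by
  have h1 : mm ζ v σ = mm ζ v 1 * mm ζ (0 : J → ZMod p) σ := by
    rw [mm_mul hζ]
    congr 1
    funext i
    simp
  rw [h1, det_mul, mm_diag, det_diagonal, zp_sum hζ]
  have h2 : mm ζ (0 : J → ZMod p) σ = (1 : Matrix J J R).submatrix (σ⁻¹ : Equiv.Perm J) id := by
    ext a b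
    unfold mm
    rw [submatrix_apply, Matrix.one_apply, Pi.zero_apply, zp_zero]
    by_cases h : a = σ b
    · rw [if_pos h, if_pos (by rw [h]; simp)]
    · rw [if_neg h, if_neg (fun h' => h (by
        have h3 : σ⁻¹ a = b := h'
        rw [← h3]; simp))]
  rw [h2, det_permute, det_one, mul_one, Equiv.Perm.sign_inv, mul_comm]

/-- Extension by zero. -/
noncomputable def ext0 (ι : Fin N ↪ J) (v : Fin N → ZMod p) : J → ZMod p :=
  Function.extend ι v 0

theorem ext0_apply (ι : Fin N ↪ J) (v : Fin N → ZMod p) (i : Fin N) : ext0 ι v (ι i) = v i :=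
  ι.injective.extend_apply _ _ _

theorem ext0_out (ι : Fin N ↪ J) (v : Fin N → ZMod p) (x : J) (hx : x ∉ Set.range ι) :
    ext0 ι v x = 0 := Function.extend_apply' _ _ _ (fun ⟨i, hi⟩ => hx ⟨i, hi⟩)

theorem ext0_sum (ι : Fin N ↪ J) (v : Fin N → ZMod p) : ∑ x, ext0 ι v x = ∑ i, v i := by
  rw [← Finset.sum_subset (Finset.subset_univ (Finset.univ.map ι))]
  · rw [Finset.sum_map]
    exact Finset.sum_congr rfl fun i _ => ext0_apply ι v i
  · intro x _ hx
    apply ext0_out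
    rintro ⟨i, rfl⟩
    exact hx (Finset.mem_map_of_mem _ (Finset.mem_univ i))

theorem via_mul (ι : Fin N ↪ J) (σ τ : Equiv.Perm (Fin N)) :
    (σ * τ).viaFintypeEmbedding ι = σ.viaFintypeEmbedding ι * τ.viaFintypeEmbedding ι := by
  ext x
  rw [Equiv.Perm.mul_apply]
  by_cases hx : x ∈ Set.range ι
  · obtain ⟨i, rfl⟩ := hx
    rw [Equiv.Perm.viaFintypeEmbedding_apply_image, Equiv.Perm.viaFintypeEmbedding_apply_image,
      Equiv.Perm.viaFintypeEmbedding_apply_image, Equiv.Perm.mul_apply]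
  · rw [Equiv.Perm.viaFintypeEmbedding_apply_notMem_range _ _ hx,
      Equiv.Perm.viaFintypeEmbedding_apply_notMem_range _ _ hx,
      Equiv.Perm.viaFintypeEmbedding_apply_notMem_range _ _ hx]

theorem via_one (ι : Fin N ↪ J) : (1 : Equiv.Perm (Fin N)).viaFintypeEmbedding ι = 1 := by
  have h := via_mul ι 1 1
  rw [mul_one] at h
  exact (mul_eq_left.1 h.symm)

theorem ext0_via (ι : Fin N ↪ J) (v : Fin N → ZMod p) (σ : Equiv.Perm (Fin N)) (x : J) :
    ext0 ι v ((σ.viaFintypeEmbedding ι)⁻¹ x) = ext0 ι (fun i => v (σ⁻¹ i)) x := by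
  have h1 : (σ.viaFintypeEmbedding ι)⁻¹ = σ⁻¹.viaFintypeEmbedding ι := by
    rw [inv_eq_iff_mul_eq_one, ← via_mul, mul_inv_cancel, via_one]
  rw [h1]
  by_cases hx : x ∈ Set.range ι
  · obtain ⟨i, rfl⟩ := hx
    rw [Equiv.Perm.viaFintypeEmbedding_apply_image, ext0_apply, ext0_apply]
  · rw [Equiv.Perm.viaFintypeEmbedding_apply_notMem_range _ _ hx, ext0_out _ _ _ hx,
      ext0_out _ _ _ hx]

theorem ext0_add (ι : Fin N ↪ J) (v w : Fin N → ZMod p) (x : J) :
    ext0 ι (fun i => v i + w i) x = ext0 ι v x + ext0 ι w x := by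
  by_cases hx : x ∈ Set.range ι
  · obtain ⟨i, rfl⟩ := hx
    rw [ext0_apply, ext0_apply, ext0_apply]
  · rw [ext0_out _ _ _ hx, ext0_out _ _ _ hx, ext0_out _ _ _ hx, add_zero]

/-- The homomorphism to the special linear group given by monomial matrices on the coordinates in
the image of `ι`. -/
noncomputable def mono [NeZero p] {ζ : R} (hζ : ζ ^ p = 1) (ι : Fin N ↪ J) :
    WG N p →* Matrix.SpecialLinearGroup J R where
  toFun g := ⟨mm ζ (ext0 ι g.v) (g.σ.viaFintypeEmbedding ι), by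
    rw [mm_det hζ, ext0_sum, g.hv, zp_zero, Equiv.Perm.viaFintypeEmbedding_sign, g.hσ]
    simp⟩
  map_one' := by
    apply Subtype.ext
    show mm ζ (ext0 ι (1 : WG N p).v) ((1 : WG N p).σ.viaFintypeEmbedding ι) = 1
    rw [WG.one_v, WG.one_σ, via_one]
    have h : ext0 ι (0 : Fin N → ZMod p) = 0 := by
      funext x
      by_cases hx : x ∈ Set.range ι
      · obtain ⟨i, rfl⟩ := hx
        rw [ext0_apply]; rfl
      · rw [ext0_out _ _ _ hx]; rfl
    rw [h, mm_one]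
  map_mul' g h := by
    apply Subtype.ext
    show mm ζ (ext0 ι (g * h).v) ((g * h).σ.viaFintypeEmbedding ι) =
      mm ζ (ext0 ι g.v) (g.σ.viaFintypeEmbedding ι) * mm ζ (ext0 ι h.v) (h.σ.viaFintypeEmbedding ι)
    rw [mm_mul hζ, WG.mul_σ, via_mul]
    congr 1
    funext x
    rw [ext0_via, ← ext0_add]
    rfl

theorem mono_coe [NeZero p] {ζ : R} (hζ : ζ ^ p = 1) (ι : Fin N ↪ J) (g : WG N p) :
    (mono hζ ι g : Matrix J J R) = mm ζ (ext0 ι g.v) (g.σ.viaFintypeEmbedding ι) := rfl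

/-- The diagonal element of the vector `v`. -/
def dg (v : Fin N → ZMod p) (hv : ∑ i, v i = 0) : WG N p := ⟨v, 1, hv, by simp⟩

theorem mono_dg [NeZero p] {ζ : R} (hζ : ζ ^ p = 1) (ι : Fin N ↪ J) (v : Fin N → ZMod p)
    (hv : ∑ i, v i = 0) :
    (mono hζ ι (dg v hv) : Matrix J J R) = diagonal (fun x => zp ζ (ext0 ι v x)) := by
  rw [mono_coe]
  show mm ζ (ext0 ι v) ((1 : Equiv.Perm (Fin N)).viaFintypeEmbedding ι) = _
  rw [via_one, mm_diag]

theorem mono_dg_inj (hp : p.Prime) [NeZero p] {ζ : R} (hζ : ζ ^ p = 1) (hζ1 : ζ ≠ 1)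
    (ι : Fin N ↪ J) {v w : Fin N → ZMod p} {hv : ∑ i, v i = 0} {hw : ∑ i, w i = 0}
    (h : mono hζ ι (dg v hv) = mono hζ ι (dg w hw)) : v = w := by
  have h1 := congrArg (fun g : Matrix.SpecialLinearGroup J R => (g : Matrix J J R)) h
  simp only [mono_dg] at h1
  funext i
  have h2 := congrFun (Matrix.diagonal_injective h1) (ι i)
  simp only [ext0_apply] at h2
  exact zp_inj hp hζ hζ1 h2

end Mono

end Pool.Agent.P8H83.ZL
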