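import Pool.Agent.P8H83.ZL.Main
import Pool.Agent.P8H83.ZL.Mono
import Pool.Agent.H185.ZM.Hom
import Pool.Agent.H185.ZM.SLN

/-!
# The group `(ℤ/p)^N_0 ⋊ A_N` and the groups which contain it
-/

set_option autoImplicit false

namespace Pool.Agent.P8H83.ZL

open Module Pool.Agent.H185.ZM Pool.Agent.Helper381
open scoped Manifold ContDiff

namespace Mono

variable {N p : ℕ}

theorem dg_mul {v w : Fin N → ZMod p} (hv : ∑ i, v i = 0) (hw : ∑ i, w i = 0)
    (hvw : ∑ i, (v + w) i = 0) : dg (v + w) hvw = dg v hv * dg w hw := by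
  apply WG.ext'
  · funext i
    rw [WG.mul_v]
    show v i + w i = v i + w ((1 : Equiv.Perm (Fin N))⁻¹ i)
    rw [inv_one]
    rfl
  · rw [WG.mul_σ]
    exact (mul_one (1 : Equiv.Perm (Fin N))).symm

theorem dg_zero : dg (0 : Fin N → ZMod p) (by simp) = 1 := WG.ext' rfl rfl

/-- The homomorphism given by a linear parametrization of vectors with sum zero. -/
def dgHom {r : ℕ} (L : (Fin r → ZMod p) →+ (Fin N → ZMod p)) (hL : ∀ u, ∑ i, L u i = 0) :
    EA p r →* WG N p where
  toFun u := dg (L (Multiplicative.toAdd u)) (hL _)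
  map_one' := by
    apply WG.ext'
    · show L (Multiplicative.toAdd 1) = 0
      rw [toAdd_one, map_zero]
    · rfl
  map_mul' u w := by
    rw [← dg_mul (hv := hL _) (hw := hL _) (hvw := by rw [← map_add]; exact hL _)]
    apply WG.ext'
    · show L (Multiplicative.toAdd (u * w)) = L (Multiplicative.toAdd u) + L (Multiplicative.toAdd w)
      rw [toAdd_mul, map_add]
    · rfl

theorem finite_WG [NeZero p] : Finite (WG N p) := by
  apply Finite.of_injective (fun g : WG N p => (g.v, g.σ))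
  intro g h hgh
  exact WG.ext' (congrArg Prod.fst hgh) (congrArg Prod.snd hgh)

instance : (WG.D N p).Normal := ⟨fun g hg h => by
  rw [WG.mem_D] at hg ⊢
  rw [WG.mul_σ, WG.mul_σ, WG.inv_σ, hg, mul_one, mul_inv_cancel]⟩

theorem eq_dg {g : WG N p} (hg : g ∈ WG.D N p) : g = dg g.v g.hv :=
  WG.ext' rfl hg

theorem pow_D {g : WG N p} (hg : g ∈ WG.D N p) (n : ℕ) :
    (g ^ n).v = n • g.v ∧ (g ^ n).σ = 1 := by
  induction n with
  | zero => exact ⟨by rw [pow_zero, zero_smul]; rfl, by rw [pow_zero]; rfl⟩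
  | succ n ih =>
    refine ⟨?_, ?_⟩
    · funext i
      rw [pow_succ, WG.mul_v, ih.1, ih.2, inv_one]
      show (n • g.v) i + g.v i = ((n + 1) • g.v) i
      rw [add_smul, one_smul]
      rfl
    · rw [pow_succ, WG.mul_σ, ih.2, one_mul]
      exact hg

theorem isPGroup_D : IsPGroup p (WG.D N p) := by
  intro g
  refine ⟨1, ?_⟩
  rw [pow_one]
  apply Subtype.ext
  have h := pow_D g.2 p
  apply WG.ext'
  · show ((g : WG N p) ^ p).v = 0
    rw [h.1]
    funext i
    simp
  · exact h.2

/-- A vector which is not constant is moved by an even permutation. -/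
theorem exists_conj (hN : 3 ≤ N) (v : Fin N → ZMod p) (hv : ∑ i, v i = 0) {i j : Fin N}
    (hij : v i ≠ v j) : ∃ g : WG N p, ∃ w : Fin N → ZMod p, ∃ hw : ∑ i, w i = 0,
      g * dg v hv * g⁻¹ = dg w hw ∧ w ≠ v := by
  have hij' : i ≠ j := fun h => hij (by rw [h])
  obtain ⟨l, hli, hlj⟩ : ∃ l, l ≠ i ∧ l ≠ j := by
    have h1 : ({i, j} : Finset (Fin N)).card < Fintype.card (Fin N) := by
      rw [Fintype.card_fin]
      exact lt_of_le_of_lt Finset.card_le_two (by omega)
    obtain ⟨m, hm⟩ := Finset.exists_mem_notMem_of_card_lt_card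
      (s := {i, j}) (t := Finset.univ) (by simpa using h1)
    have h2 := hm.2
    simp only [Finset.mem_insert, Finset.mem_singleton, not_or] at h2
    exact ⟨m, h2⟩
  let σ : Equiv.Perm (Fin N) := Equiv.swap i j * Equiv.swap i l
  have hσ : Equiv.Perm.sign σ = 1 := by
    rw [Equiv.Perm.sign_mul, Equiv.Perm.sign_swap hij', Equiv.Perm.sign_swap hli.symm]
    norm_num
  have hσl : σ l = j := by
    show Equiv.swap i j (Equiv.swap i l l) = j
    rw [Equiv.swap_apply_right, Equiv.swap_apply_left]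
  have hσj : σ j = i := by
    show Equiv.swap i j (Equiv.swap i l j) = i
    rw [Equiv.swap_apply_of_ne_of_ne hij'.symm hlj.symm, Equiv.swap_apply_right]
  let g : WG N p := ⟨0, σ, by simp, hσ⟩
  refine ⟨g, fun k => v (σ⁻¹ k), by rw [Equiv.sum_comp σ⁻¹ v, hv], ?_, ?_⟩
  · apply WG.ext'
    · funext k
      rw [WG.mul_v, WG.mul_v, WG.inv_v]
      show (0 : ZMod p) + v (σ⁻¹ k) + - (0 : Fin N → ZMod p) _ = v (σ⁻¹ k)
      simp
    · rw [WG.mul_σ, WG.mul_σ, WG.inv_σ]
      show σ * 1 * σ⁻¹ = 1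
      rw [mul_one, mul_inv_cancel]
  · intro h
    have h1 := congrFun h i
    have h2 : σ⁻¹ i = j := by rw [← hσj]; simp
    simp only [h2] at h1
    exact hij h1.symm

end Mono

/-- `1` if `p` divides `N`, and `0` otherwise. -/
def dl (N p : ℕ) : ℕ := if p ∣ N then 1 else 0

/-- The condition `m + 2 h(M) < 2 (N - δ)`. -/
def InRange (K : Type) [Field K] (M : Type) [TopologicalSpace M] (N p m : ℕ) : Prop :=
  m + 2 * layerSum K M ((N - 2) / 2) + 2 * dl N p < 2 * N

def S_WG : Prop := ∀ (p : ℕ), p.Prime → p ≠ 2 → ∀ (K : Type) [Field K] [CharP K p] [Infinite K]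
  (E : Type) [NormedAddCommGroup E] [NormedSpace ℝ E] [FiniteDimensional ℝ E]
  (M : Type) [TopologicalSpace M] [ChartedSpace E M] [IsManifold 𝓘(ℝ, E) ∞ M]
  [CompactSpace M] [T2Space M] [ConnectedSpace M] (N : ℕ), 4 ≤ N →
  InRange K M N p (finrank ℝ E) → ∀ (a : WG N p → M → M), SmoothAction E a →
    ∃ (v : Fin N → ZMod p) (hv : ∑ i, v i = 0), (∃ i j, v i ≠ v j) ∧
      ∀ x, a (Mono.dg v hv) x = x

theorem wg_proof (hM : S_MAIN) (hR : S_REP) : S_WG := by
  intro p hp hp2 K _ _ _ E _ _ _ M _ _ _ _ _ _ N hN hr a ha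
  have : NeZero p := ⟨hp.ne_zero⟩
  have : Fact p.Prime := ⟨hp⟩
  have := Mono.finite_WG (N := N) (p := p)
  unfold InRange dl at hr
  by_cases hpN : p ∣ N
  · rw [if_pos hpN] at hr
    obtain ⟨r, rfl⟩ : ∃ r, N = r + 2 := ⟨N - 2, by omega⟩
    let L : (Fin r → ZMod p) →+ (Fin (r + 2) → ZMod p) :=
      { toFun := fun u => Fin.cons 0 (Fin.cons (- ∑ i, u i) u)
        map_zero' := by
          funext i
          refine Fin.cases ?_ (fun i => Fin.cases ?_ (fun i => ?_) i) i <;> simp
        map_add' := fun u w => by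
          funext i
          refine Fin.cases ?_ (fun i => Fin.cases ?_ (fun i => ?_) i) i
          · simp
          · simp [Finset.sum_add_distrib]; ring
          · simp }
    have hL : ∀ u, ∑ i, L u i = 0 := by
      intro u
      show ∑ i : Fin (r + 2), (Fin.cons 0 (Fin.cons (- ∑ i, u i) u : Fin (r + 1) → ZMod p) :
        Fin (r + 2) → ZMod p) i = 0
      rw [Fin.sum_univ_succ, Fin.sum_univ_succ]
      simp
    obtain ⟨g, hg, hx⟩ := hM p hp hp2 K E M (WG (r + 2) p) (WG.D (r + 2) p) Mono.isPGroup_D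
      ((r + 2 - 2) / 2) (by omega) (hR p hp hp2 (r + 2) K) r (Mono.dgHom L hL)
      (fun g => rfl) a ha (by omega)
    refine ⟨L (Multiplicative.toAdd g), hL _, ?_, hx⟩
    by_contra hcon
    push Not at hcon
    apply hg
    have h1 : ∀ i, (Multiplicative.toAdd g) i = 0 := by
      intro i
      have h2 := hcon i.succ.succ 0
      exact h2
    have h3 : Multiplicative.toAdd g = 0 := funext h1
    exact toAdd_eq_zero.1 h3
  · rw [if_neg hpN] at hr
    obtain ⟨r, rfl⟩ : ∃ r, N = r + 1 := ⟨N - 1, by omega⟩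
    let L : (Fin r → ZMod p) →+ (Fin (r + 1) → ZMod p) :=
      { toFun := fun u => Fin.cons (- ∑ i, u i) u
        map_zero' := by
          funext i
          refine Fin.cases ?_ (fun i => ?_) i <;> simp
        map_add' := fun u w => by
          funext i
          refine Fin.cases ?_ (fun i => ?_) i
          · simp [Finset.sum_add_distrib]; ring
          · simp }
    have hL : ∀ u, ∑ i, L u i = 0 := by
      intro u
      show ∑ i : Fin (r + 1), (Fin.cons (- ∑ i, u i) u : Fin (r + 1) → ZMod p) i = 0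
      rw [Fin.sum_univ_succ]
      simp
    obtain ⟨g, hg, hx⟩ := hM p hp hp2 K E M (WG (r + 1) p) (WG.D (r + 1) p) Mono.isPGroup_D
      ((r + 1 - 2) / 2) (by omega) (hR p hp hp2 (r + 1) K) r (Mono.dgHom L hL)
      (fun g => rfl) a ha (by omega)
    refine ⟨L (Multiplicative.toAdd g), hL _, ?_, hx⟩
    by_contra hcon
    push Not at hcon
    apply hg
    have h0 := hL (Multiplicative.toAdd g)
    have h2 : ∑ i, L (Multiplicative.toAdd g) i =
        (r + 1 : ℕ) • L (Multiplicative.toAdd g) 0 := by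
      rw [Finset.sum_congr rfl fun i _ => hcon i 0, Finset.sum_const, Finset.card_univ,
        Fintype.card_fin]
    rw [h0, nsmul_eq_mul] at h2
    have h3 : ((r + 1 : ℕ) : ZMod p) ≠ 0 := by
      rw [Ne, ZMod.natCast_eq_zero_iff]
      exact hpN
    have h4 : L (Multiplicative.toAdd g) 0 = 0 := by
      rcases mul_eq_zero.1 h2.symm with h | h
      · exact absurd h h3
      · exact h
    have h1 : ∀ i, (Multiplicative.toAdd g) i = 0 := by
      intro i
      have h5 := hcon i.succ 0
      rw [h4] at h5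
      exact h5
    have h6 : Multiplicative.toAdd g = 0 := funext h1
    exact toAdd_eq_zero.1 h6

end Pool.Agent.P8H83.ZL
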