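import Pool.Agent.P8H83.ZL.Stm

/-!
# The shifted operators have vanishing `p`-th power
-/

set_option autoImplicit false

namespace Pool.Agent.P8H83.ZL

open Module

namespace SP

variable {p : ℕ} {K : Type} [Field K] {r : ℕ} {V : Type} [AddCommGroup V] [Module K V]

/-- The group algebra acts. -/
noncomputable def alg (ρ : EA p r →* (V →ₗ[K] V)) : MonoidAlgebra K (EA p r) →ₐ[K] (V →ₗ[K] V) :=
  MonoidAlgebra.lift K (V →ₗ[K] V) (EA p r) ρ

/-- The shifted element of the group algebra. -/
noncomputable def el (a : Fin r → K) : MonoidAlgebra K (EA p r) :=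
  ∑ i, a i • (MonoidAlgebra.of K (EA p r) (EA.gen i) - 1)

theorem alg_of (ρ : EA p r →* (V →ₗ[K] V)) (g : EA p r) :
    alg ρ (MonoidAlgebra.of K (EA p r) g) = ρ g := by
  unfold alg
  rw [MonoidAlgebra.lift_of]

theorem alg_el (ρ : EA p r →* (V →ₗ[K] V)) (a : Fin r → K) : alg ρ (el a) = shift ρ a := by
  unfold el shift
  rw [map_sum]
  refine Finset.sum_congr rfl fun i _ => ?_
  rw [map_smul, map_sub, alg_of, map_one]

theorem el_pow [CharP K p] (hp : p.Prime) (a : Fin r → K) :
    (el a : MonoidAlgebra K (EA p r)) ^ p = 0 := by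
  have : Fact p.Prime := ⟨hp⟩
  have hc : CharP (MonoidAlgebra K (EA p r)) p :=
    charP_of_injective_algebraMap (algebraMap K (MonoidAlgebra K (EA p r))).injective p
  unfold el
  rw [sum_pow_char]
  apply Finset.sum_eq_zero
  intro i _
  rw [smul_pow, sub_pow_char, one_pow, ← map_pow]
  have h1 : (EA.gen i : EA p r) ^ p = 1 := by
    unfold EA.gen
    rw [← ofAdd_nsmul]
    have h2 : p • (Pi.single i 1 : Fin r → ZMod p) = 0 := by
      funext k
      simp
    rw [h2, ofAdd_zero]
  rw [h1, map_one, sub_self, smul_zero]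

end SP

theorem sp_proof : S_SP := by
  intro p hp K _ _ r V _ _ ρ a
  rw [← SP.alg_el, ← map_pow, SP.el_pow hp, map_zero]

end Pool.Agent.P8H83.ZL
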