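import Pool.Agent.P8H83.ZL.StmT

/-!
# The equivariant cochain model
-/

set_option autoImplicit false

namespace Pool.Agent.P8H83.ZL

open Module Pool.Agent.H185.ZM Pool.Agent.Helper381
open scoped Manifold ContDiff

namespace TOP

universe u v

variable {M : Type} {E : Type} [MetricSpace M] [NormedAddCommGroup E] [NormedSpace ℝ E]
  {R : ℝ}

theorem model (G : Geo M E R) [CompactSpace M] [Nonempty M] {P : Type} [Group P] [Finite P]
    (a : P →* (M ≃ᵢ M)) (K : Type) [Field K] :
    ∃ (X : ℕ → Type) (φ : ∀ n, P →* Equiv.Perm (X n))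
    (d : ∀ n, (X n → K) →ₗ[K] (X (n + 1) → K)) (N : ℕ),
    (∀ n, Finite (X n)) ∧ (∀ n, N ≤ n → IsEmpty (X n)) ∧ Nonempty (X 0) ∧
    (∀ n f, d (n + 1) (d n f) = 0) ∧ d 0 (fun _ => 1) = 0 ∧
    (∀ n g f, d n (permR K (φ n) g f) = permR K (φ (n + 1)) g (d n f)) ∧
    (∀ n (x : X n), ∃ y : M, ∀ g, φ n g x = x → a g y = y) ∧
    (∀ n, finrank K (LinearMap.ker (d n)) =
      finrank K (Pool.Agent.Helper381.cobound K (fun n => X n → K) d n) +
        finrank K (Pool.Agent.Helper381.SingularCohomology K M n)) := by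
  classical
  have hR := G.Rpos
  obtain ⟨F, hF, hFa⟩ := exists_invariant_net a (R / 4) (by linarith)
  have hρR : 4 * (R / 4) ≤ R := by linarith
  set ρ := R / 4 with hρ
  have hQ := Fam_finite F ρ
  have hfin : ∀ n, Finite (Ch (Fam F ρ) n) := finite_Ch hQ
  have hone : ∀ C : Set M, a 1 '' C = C := by
    intro C
    rw [map_one]
    exact Set.image_id C
  have hmul : ∀ (p q : P) (C : Set M), a (p * q) '' C = a p '' (a q '' C) := by
    intro p q C
    rw [map_mul, Set.image_image]
    rfl
  have hsm : ∀ p : P, StrictMono (fun C : Set M => a p '' C) := fun p =>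
    (a p).injective.image_strictMono
  have hmem : ∀ (p : P) (C : Set M), C ∈ Fam F ρ → a p '' C ∈ Fam F ρ := fun p C hC =>
    image_Fam F ρ (a p) (hFa p) hC
  let act : ∀ n, P → Ch (Fam F ρ) n → Ch (Fam F ρ) n := fun n p c =>
    ⟨fun i => a p '' c.1 i, (hsm p).comp c.2.1, fun i => hmem p _ (c.2.2 i)⟩
  have act_one : ∀ n c, act n 1 c = c := fun n c => Subtype.ext (funext fun i => hone _)
  have act_mul : ∀ n p q c, act n (p * q) c = act n p (act n q c) := fun n p q c =>
    Subtype.ext (funext fun i => hmul p q _)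
  let φ : ∀ n, P →* Equiv.Perm (Ch (Fam F ρ) n) := fun n =>
    { toFun := fun p =>
        { toFun := act n p
          invFun := act n p⁻¹
          left_inv := fun c => by rw [← act_mul, inv_mul_cancel, act_one]
          right_inv := fun c => by rw [← act_mul, mul_inv_cancel, act_one] }
      map_one' := Equiv.ext fun c => act_one n c
      map_mul' := fun p q => Equiv.ext fun c => act_mul n p q c }
  have hφ : ∀ n p c, φ n p c = act n p c := fun n p c => rfl
  have hface : ∀ n (i : Fin (n + 2)) p (c : Ch (Fam F ρ) (n + 1)),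
      cface n i (act (n + 1) p c) = act n p (cface n i c) := fun n i p c => rfl
  have hinv : ∀ n p c, (φ n p)⁻¹ c = act n p⁻¹ c := by
    intro n p c
    rw [← map_inv]
    rfl
  refine ⟨fun n => Ch (Fam F ρ) n, φ, fun n => altd K (cface (Q := Fam F ρ)) n,
    (Fam F ρ).ncard, hfin, fun n hn => isEmpty_Ch hQ n hn, ?_, ?_, ?_, ?_, ?_, ?_⟩
  · obtain ⟨x⟩ := ‹Nonempty M›
    obtain ⟨C, hC, _⟩ := Fam_cover F ρ hF x
    exact ⟨⟨fun _ => C, fun i j hij => absurd (Fin.lt_def.1 hij) (by omega), fun _ => hC⟩⟩
  · intro n f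
    exact altd_altd (cface (Q := Fam F ρ)) (fun n i j c hij => cface_cface n i j c hij) n f
  · funext σ
    rw [altd_apply, Fin.sum_univ_two]
    simp
  · intro n g f
    funext σ
    rw [permR_apply, altd_apply, altd_apply]
    refine Finset.sum_congr rfl fun i _ => ?_
    rw [permR_apply, hinv, hinv, hface]
  · intro n c
    obtain ⟨y, _, hy⟩ := G.fam_fixed hρR (c.2.2 0)
    refine ⟨y, fun q hq => ?_⟩
    apply hy (a q) (hFa q)
    have h2 : (φ n q c).1 0 = c.1 0 := by rw [hq]
    exact h2
  · intro n
    obtain ⟨e⟩ := G.nerve hρR hF K n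
    have e1 : finrank K (SingularCohomology K M n) = finrank K (OrdCoh K (Fam F ρ) n) := by
      rw [finrank_singularCohomology]
      exact LinearEquiv.finrank_eq e
    rw [e1]
    have := hfin n
    have h1 := Submodule.finrank_quotient_add_finrank
      ((cobound K (fun n => Ch (Fam F ρ) n → K) (fun n => altd K (cface (Q := Fam F ρ)) n) n).comap
        (LinearMap.ker (altd K (cface (Q := Fam F ρ)) n)).subtype)
    have h2 : cobound K (fun n => Ch (Fam F ρ) n → K) (fun n => altd K (cface (Q := Fam F ρ)) n) n ≤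
        LinearMap.ker (altd K (cface (Q := Fam F ρ)) n) := by
      cases n with
      | zero => exact bot_le
      | succ n =>
        rintro _ ⟨f, rfl⟩
        exact altd_altd (cface (Q := Fam F ρ)) (fun n i j c hij => cface_cface n i j c hij) n f
    have h3 := LinearEquiv.finrank_eq (Submodule.comapSubtypeEquivOfLe h2)
    rw [h3] at h1
    rw [← h1, add_comm]

end TOP

theorem top_proof : S_TOP := by
  intro E _ _ _ M _ _ _ _ _ _ P _ _ a ha K _
  obtain ⟨W, _, _, _, F, T, hF⟩ := exists_equi ha
  let g := hF.metric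
  obtain ⟨R, G⟩ := Q145.TN.exists_geo g
  let _ := Q145.TN.mS g
  let b : P →* (M ≃ᵢ M) :=
    { toFun := fun p =>
        { toFun := a p
          invFun := a p⁻¹
          left_inv := fun x => by rw [← ha.mul, inv_mul_cancel, ha.one]
          right_inv := fun x => by rw [← ha.mul, mul_inv_cancel, ha.one]
          isometry_toFun := fun x y => by
            show (Q145.TN.mS g).toPseudoMetricSpace.toPseudoEMetricSpace.edist _ _ =
              (Q145.TN.mS g).toPseudoMetricSpace.toPseudoEMetricSpace.edist _ _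
            rw [Q145.TN.edist_mS, Q145.TN.edist_mS]
            exact hF.dist_eq ha p x y }
      map_one' := by
        ext x
        exact ha.one x
      map_mul' := fun p q => by
        ext x
        exact ha.mul p q x }
  have : Nonempty M := inferInstance
  exact TOP.model G b K

end Pool.Agent.P8H83.ZL
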