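import Pool.Agent.P8H83.ZL.Wg

/-!
# Matrix groups containing monomial matrices
-/

set_option autoImplicit false

namespace Pool.Agent.P8H83.ZL

open Module Pool.Agent.H185.ZM Pool.Agent.Helper381
open scoped Manifold ContDiff

/-- Every normal subgroup is central or has finite index. -/
def NormalSubgroupProperty (Γ : Type) [Group Γ] : Prop :=
  ∀ N : Subgroup Γ, N.Normal → N ≤ Subgroup.center Γ ∨ Finite (Γ ⧸ N)

section

variable {E : Type} [NormedAddCommGroup E] [NormedSpace ℝ E] [FiniteDimensional ℝ E]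
  {M : Type} [TopologicalSpace M] [ChartedSpace E M] [IsManifold 𝓘(ℝ, E) ∞ M]

/-- groups with a homomorphism from `(ℤ/p)^N_0 ⋊ A_N` -/
theorem group_triv (hW : S_WG) {p : ℕ} (hp : p.Prime) (hp2 : p ≠ 2) {K : Type} [Field K]
    [CharP K p] [Infinite K] [CompactSpace M] [T2Space M] [ConnectedSpace M] {N : ℕ} (hN : 4 ≤ N)
    (hr : InRange K M N p (finrank ℝ E)) {Γ : Type} [Group Γ] (φ : WG N p →* Γ)
    {α : Γ → (M ≃ₘ^∞⟮𝓘(ℝ, E), 𝓘(ℝ, E)⟯ M)} (hα : IsHom α) :
    ∃ (v : Fin N → ZMod p) (hv : ∑ i, v i = 0), (∃ i j, v i ≠ v j) ∧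
      ∀ x, α (φ (Mono.dg v hv)) x = x := by
  refine hW p hp hp2 K E M N hN hr (fun g x => α (φ g) x) ?_
  exact
    { one := fun x => by
        show α (φ 1) x = x
        rw [map_one]; exact hα.action.one x
      mul := fun g h x => by
        show α (φ (g * h)) x = _
        rw [map_mul]; exact hα _ _ _
      smooth := fun g => hα.action.smooth _ }

theorem group_finite (hW : S_WG) {p : ℕ} (hp : p.Prime) (hp2 : p ≠ 2) {K : Type} [Field K]
    [CharP K p] [Infinite K] [CompactSpace M] [T2Space M] [ConnectedSpace M] {N : ℕ} (hN : 4 ≤ N)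
    (hr : InRange K M N p (finrank ℝ E)) {Γ : Type} [Group Γ] (φ : WG N p →* Γ)
    (hφ : ∀ g ∈ WG.D N p, φ g = 1 → g = 1)
    {α : Γ → (M ≃ₘ^∞⟮𝓘(ℝ, E), 𝓘(ℝ, E)⟯ M)} (hα : IsHom α) (hNS : NormalSubgroupProperty Γ) :
    (Set.range α).Finite := by
  obtain ⟨v, hv, ⟨i, j, hij⟩, hx⟩ := group_triv hW hp hp2 hN hr φ hα
  apply hα.finite_range
  rcases hNS (actKer hα.action) inferInstance with h1 | h1
  · exfalso
    obtain ⟨g, w, hw, hg, hne⟩ := Mono.exists_conj (by omega) v hv hij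
    have h2 : φ (Mono.dg v hv) ∈ Subgroup.center Γ := h1 hx
    have h3 : φ (g * Mono.dg v hv * g⁻¹) = φ (Mono.dg v hv) := by
      rw [map_mul, map_mul, Subgroup.mem_center_iff.1 h2 (φ g), mul_assoc, ← map_mul,
        mul_inv_cancel, map_one, mul_one]
    rw [hg] at h3
    have h4 : Mono.dg w hw = Mono.dg v hv := by
      have h5 := hφ (Mono.dg w hw * (Mono.dg v hv)⁻¹)
        ((WG.D N p).mul_mem rfl ((WG.D N p).inv_mem rfl)) (by
          rw [map_mul, map_inv, h3, mul_inv_cancel])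
      exact mul_inv_eq_one.1 h5
    exact hne (congrArg WG.v h4)
  · exact h1

end

section SL

variable {R : Type} [CommRing R] {p N : ℕ}

open Matrix

/-- a normal subgroup of `SL_N(R)` which contains a diagonal matrix `ζ ^ v`, `v` not constant,
contains the elementary matrices with entries in `(1 - ζ) R` -/
theorem el_mem (hp : p.Prime) [NeZero p] (hN : 3 ≤ N) {ζ : R} (hζ : ζ ^ p = 1)
    (H : Subgroup (Matrix.SpecialLinearGroup (Fin N) R)) [H.Normal] (v : Fin N → ZMod p)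
    (hv : ∑ i, v i = 0) {i j : Fin N} (hij : v i ≠ v j)
    (hm : Mono.mono hζ (Function.Embedding.refl (Fin N)) (Mono.dg v hv) ∈ H) (c : R)
    (k l : Fin N) (hkl : k ≠ l) : el hkl ((1 - ζ) * c) ∈ H := by
  have : Fact p.Prime := ⟨hp⟩
  have hij' : i ≠ j := fun h => hij (by rw [h])
  have h1 := Mono.mono_dg hζ (Function.Embedding.refl (Fin N)) v hv
  have e0 : ∀ x, Mono.ext0 (Function.Embedding.refl (Fin N)) v x = v x := fun x =>
    Mono.ext0_apply (Function.Embedding.refl (Fin N)) v x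
  simp only [e0] at h1
  have h2 := mem_idealOf_diag H hN hij' hm (fun x => Mono.zp ζ (v x)) h1
    (Mono.zp ζ (v i - v j)) (by
      show Mono.zp ζ (v i) = Mono.zp ζ (v i - v j) * Mono.zp ζ (v j)
      rw [← Mono.zp_add hζ, sub_add_cancel])
  -- `1 - ζ` is a multiple of `ζ ^ a - 1`
  set a := v i - v j with ha
  have ha0 : a ≠ 0 := sub_ne_zero.2 hij
  have h3 : Mono.zp ζ a - 1 ∣ ζ - 1 := by
    have h4 : ζ = (Mono.zp ζ a) ^ (a⁻¹).val := by
      unfold Mono.zp
      rw [← pow_mul, ← Mono.pow_mod' hζ (a.val * (a⁻¹).val)]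
      have h5 : a.val * (a⁻¹).val % p = 1 := by
        have h6 : (a * a⁻¹).val = a.val * (a⁻¹).val % p := ZMod.val_mul a a⁻¹
        rw [← h6, mul_inv_cancel₀ ha0]
        exact ZMod.val_one p
      rw [h5, pow_one]
    conv_rhs => rw [h4]
    exact sub_one_dvd_pow_sub_one _ _ |>.trans (by rfl)
  obtain ⟨b, hb⟩ := h3
  have h4 : (1 - ζ) * c ∈ idealOf H hN := by
    have h5 := (idealOf H hN).mul_mem_right (-(b * c)) h2
    have h6 : (1 - ζ) * c = (Mono.zp ζ a - 1) * -(b * c) := by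
      have h7 : (1 - ζ) = - ((Mono.zp ζ a - 1) * b) := by rw [← hb]; ring
      rw [h7]; ring
    rw [h6]
    exact h5
  exact h4 k l hkl

end SL

end Pool.Agent.P8H83.ZL
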