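import Pool.Agent.P8H83.ZL.Stm

/-!
# If the homotopy fixed points are acyclic then so is the object
-/

set_option autoImplicit false

namespace Pool.Agent.P8H83.ZL

open Module

namespace AC

variable {K : Type} [Field K] {ι : Type} {q : ℕ}

/-- the shift by two places -/
theorem fixD_shift (M : DM K ι q) (j : ι) (r : ℕ → M.V) (k : ℕ) :
    fixD M j (fun n => match n with
      | 0 => 0
      | 1 => 0
      | n + 2 => r n) (k + 2) = fixD M j r k := by
  have hu : ∀ k, M.u j (k + 2) = M.u j k := by
    intro k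
    unfold DM.u
    rw [Nat.add_mod_right]
  rw [fixD_succ]
  cases k with
  | zero =>
    show (-1 : K) ^ (0 + 1 + 1) • M.d (r 0) + M.u j (0 + 1 + 1) 0 = M.d (r 0)
    rw [map_zero, add_zero]
    norm_num
  | succ k =>
    rw [fixD_succ]
    show (-1 : K) ^ (k + 1 + 1 + 1) • M.d (r (k + 1)) + M.u j (k + 1 + 1 + 1) (r k) = _
    rw [hu (k + 1)]
    congr 2
    ring

theorem step (M : DM K ι q) (j : ι) (h : Acyc (Fix j M)) (v w : M.V) (hv : M.d v = 0)
    (hw : M.d w = M.x j v) : ∃ z, M.d z = v := by
  -- the boundary of `(v, w, 0, ...)`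
  have hu1 : M.u j 1 = M.x j := by
    unfold DM.u
    rw [if_pos (by norm_num)]
  -- the sequence `(u_2 w, 0, ...)`
  have hex : ∃ r : ℕ → M.V, fixD M j r = sing0 (K := K) (M.u j 2 w) := h (sing0 (K := K) (M.u j 2 w)) (by
    show fixD M j (sing0 (K := K) (M.u j 2 w)) = 0
    funext k
    cases k with
    | zero =>
      rw [fixD_zero, sing0_zero, M.du, hw, ← hu1]
      exact M.uu j 1 v
    | succ k =>
      rw [fixD_succ, sing0_succ, map_zero, smul_zero, zero_add]
      cases k with
      | zero =>
        rw [sing0_zero]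
        have h3 := M.uu j 2 w
        exact h3
      | succ k =>
        rw [sing0_succ, map_zero]
        rfl)
  obtain ⟨r, hr'⟩ := hex
  let s : ℕ → M.V := fun n => match n with
    | 0 => v
    | 1 => w
    | n + 2 => - r n
  obtain ⟨z, hz⟩ := h s (by
    show fixD M j s = 0
    funext k
    match k with
    | 0 => exact hv
    | 1 =>
      rw [fixD_succ]
      show (-1 : K) ^ (0 + 1) • M.d w + M.u j (0 + 1) v = 0
      rw [zero_add, hu1, hw, pow_one, neg_smul, one_smul, neg_add_cancel]
    | 2 =>
      rw [fixD_succ]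
      show (-1 : K) ^ (1 + 1) • M.d (- r 0) + M.u j (1 + 1) w = 0
      have h0 := congrFun hr' 0
      rw [fixD_zero, sing0_zero] at h0
      rw [map_neg, h0]
      norm_num
    | k + 3 =>
      rw [fixD_succ]
      show (-1 : K) ^ (k + 2 + 1) • M.d (- r (k + 1)) + M.u j (k + 2 + 1) (- r k) = 0
      have h0 := congrFun hr' (k + 1)
      rw [fixD_succ, sing0_succ] at h0
      have hu : M.u j (k + 2 + 1) = M.u j (k + 1) := by
        unfold DM.u
        rw [show k + 2 + 1 = k + 1 + 2 by ring, Nat.add_mod_right]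
      have he : (-1 : K) ^ (k + 2 + 1) = (-1 : K) ^ (k + 1) := by ring
      rw [hu, he, map_neg, map_neg, smul_neg, ← neg_add, h0, neg_zero])
  refine ⟨z 0, ?_⟩
  have h0 : fixD M j z 0 = s 0 := congrFun hz 0
  exact h0

end AC

theorem ac_proof : S_AC := by
  intro K _ ι q j M h v hv
  have key : ∀ n, ∀ v, M.d v = 0 → (M.x j ^ n) v = 0 → ∃ z, M.d z = v := by
    intro n
    induction n with
    | zero => intro v _ hx; exact ⟨0, by rw [map_zero]; exact hx.symm⟩
    | succ n ih =>
      intro v hv hx
      obtain ⟨w, hw⟩ := ih (M.x j v) (by rw [M.dx, hv, map_zero]) (by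
        rw [pow_succ, Module.End.mul_apply] at hx
        exact hx)
      exact AC.step M j h v w hv hw
  exact key (q + 1) v hv (M.xp j v)

end Pool.Agent.P8H83.ZL
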