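import Pool.Agent.P8H83.ZL.Stm

/-!
# Package DIM: freeness from dimensions (helper72)
-/

set_option autoImplicit false

namespace Pool.Agent.P8H83.ZL

open Module

namespace DIM

section

variable {K : Type} [Field K] {V : Type} [AddCommGroup V] [Module K V] [FiniteDimensional K V]

theorem ker_succ (z : V →ₗ[K] V) (k : ℕ) :
    finrank K (LinearMap.ker (z ^ (k + 1))) ≤
      finrank K (LinearMap.ker (z ^ k)) + finrank K (LinearMap.ker z) := by
  let f : LinearMap.ker (z ^ (k + 1)) →ₗ[K] V :=
    (z ^ k).domRestrict (LinearMap.ker (z ^ (k + 1)))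
  have h1 := LinearMap.finrank_range_add_finrank_ker f
  have h2 : finrank K (LinearMap.range f) ≤ finrank K (LinearMap.ker z) := by
    apply Submodule.finrank_mono
    rintro _ ⟨⟨v, hv⟩, rfl⟩
    rw [LinearMap.mem_ker, pow_succ', Module.End.mul_apply] at hv
    exact hv
  have h3 : finrank K (LinearMap.ker f) ≤ finrank K (LinearMap.ker (z ^ k)) := by
    rw [← Submodule.finrank_map_subtype_eq (LinearMap.ker (z ^ (k + 1))) (LinearMap.ker f)]
    apply Submodule.finrank_mono
    rintro _ ⟨v, hv, rfl⟩
    exact hv
  omega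

theorem ker_le (z : V →ₗ[K] V) (k : ℕ) :
    finrank K (LinearMap.ker (z ^ k)) ≤ k * finrank K (LinearMap.ker z) := by
  induction k with
  | zero =>
    have : LinearMap.ker (z ^ 0) = ⊥ := by
      rw [pow_zero]
      exact LinearMap.ker_id
    rw [this, finrank_bot, zero_mul]
  | succ k ih =>
    have := ker_succ z k
    rw [add_mul, one_mul]
    omega

theorem dim_le (z : V →ₗ[K] V) (q : ℕ) (h : ∀ v, (z ^ (q + 1)) v = 0) :
    finrank K V ≤ (q + 1) * finrank K (LinearMap.ker z) := by
  have h1 := ker_le z (q + 1)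
  have h2 : LinearMap.ker (z ^ (q + 1)) = ⊤ := by
    rw [eq_top_iff]
    intro v _
    exact h v
  rw [h2, finrank_top] at h1
  exact h1

theorem dim_eq (z : V →ₗ[K] V) (q : ℕ) (h : ∀ v, (z ^ (q + 1)) v = 0)
    (he : (q + 1) * finrank K (LinearMap.ker z) ≤ finrank K V) :
    (∀ v, z v = 0 → ∃ w, (z ^ q) w = v) ∧ (∀ v, (z ^ q) v = 0 → ∃ w, z w = v) := by
  have h2 : LinearMap.ker (z ^ (q + 1)) = ⊤ := by
    rw [eq_top_iff]
    intro v _
    exact h v
  have h3 := ker_succ z q
  rw [h2, finrank_top] at h3
  have h4 := ker_le z q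
  have h5 : (q + 1) * finrank K (LinearMap.ker z) =
      q * finrank K (LinearMap.ker z) + finrank K (LinearMap.ker z) := by ring
  have h6 := LinearMap.finrank_range_add_finrank_ker z
  have h7 := LinearMap.finrank_range_add_finrank_ker (z ^ q)
  have r1 : LinearMap.range (z ^ q) = LinearMap.ker z := by
    apply Submodule.eq_of_le_of_finrank_eq
    · rintro _ ⟨v, rfl⟩
      have := h v
      rw [pow_succ', Module.End.mul_apply] at this
      exact this
    · omega
  have r2 : LinearMap.range z = LinearMap.ker (z ^ q) := by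
    apply Submodule.eq_of_le_of_finrank_eq
    · rintro _ ⟨v, rfl⟩
      have := h v
      rw [pow_succ, Module.End.mul_apply] at this
      exact this
    · omega
  constructor
  · intro v hv
    have : v ∈ LinearMap.range (z ^ q) := by
      rw [r1]
      exact hv
    exact this
  · intro v hv
    have : v ∈ LinearMap.range z := by
      rw [r2]
      exact hv
    exact this

end

variable {K : Type} [Field K] {ι : Type} {q : ℕ}

instance kerx_fin (M : DM K ι q) [FiniteDimensional K M.V] (j : ι) :
    FiniteDimensional K (M.kerx j).V :=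
  inferInstanceAs (FiniteDimensional K (LinearMap.ker (M.x j)))

theorem inf_cons (M : DM K ι q) [FiniteDimensional K M.V] (j : ι) (L : List ι) :
    finrank K (⨅ i ∈ L, LinearMap.ker ((M.kerx j).x i) : Submodule K (M.kerx j).V) =
      finrank K (⨅ i ∈ (j :: L), LinearMap.ker (M.x i) : Submodule K M.V) := by
  have h : Submodule.map (LinearMap.ker (M.x j)).subtype
      (⨅ i ∈ L, LinearMap.ker ((M.kerx j).x i) : Submodule K (LinearMap.ker (M.x j))) =
      (⨅ i ∈ (j :: L), LinearMap.ker (M.x i) : Submodule K M.V) := by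
    ext v
    simp only [Submodule.mem_map, Submodule.mem_iInf, List.mem_cons]
    constructor
    · rintro ⟨w, hw, rfl⟩ i hi
      rcases hi with rfl | hi
      · exact w.2
      · have := hw i hi
        exact congrArg Subtype.val this
    · intro hv
      refine ⟨⟨v, hv j (Or.inl rfl)⟩, ?_, rfl⟩
      intro i hi
      exact Subtype.ext (hv i (Or.inr hi))
  rw [← h]
  exact (Submodule.finrank_map_subtype_eq _ _).symm

theorem iter (L : List ι) : ∀ (M : DM K ι q) [FiniteDimensional K M.V],
    finrank K M.V ≤ finrank K (⨅ j ∈ L, LinearMap.ker (M.x j) : Submodule K M.V) *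
      (q + 1) ^ L.length := by
  induction L with
  | nil =>
    intro M _
    have : (⨅ j ∈ ([] : List ι), LinearMap.ker (M.x j) : Submodule K M.V) = ⊤ := by simp
    rw [this, finrank_top]
    simp
  | cons j L ih =>
    intro M _
    have h1 := ih (M.kerx j)
    rw [inf_cons] at h1
    have h2 : finrank K M.V ≤ (q + 1) * finrank K (M.kerx j).V := dim_le (M.x j) q (M.xp j)
    calc finrank K M.V ≤ (q + 1) * finrank K (M.kerx j).V := h2
      _ ≤ (q + 1) * (finrank K (⨅ i ∈ (j :: L), LinearMap.ker (M.x i) : Submodule K M.V) *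
          (q + 1) ^ L.length) := Nat.mul_le_mul_left _ h1
      _ = _ := by
        rw [List.length_cons, pow_succ]
        ring

end DIM

open DIM in
theorem dim_proof : S_DIM := by
  intro K _ ι q L
  induction L with
  | nil =>
    intro M _ _
    exact trivial
  | cons j L ih =>
    intro M _ h
    have h1 := iter L (M.kerx j)
    rw [inf_cons] at h1
    have h2 : finrank K M.V ≤ (q + 1) * finrank K (M.kerx j).V := dim_le (M.x j) q (M.xp j)
    have h3 : (q + 1) * finrank K (M.kerx j).V ≤ finrank K M.V := by
      calc (q + 1) * finrank K (M.kerx j).V ≤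
          (q + 1) * (finrank K (⨅ i ∈ (j :: L), LinearMap.ker (M.x i) : Submodule K M.V) *
          (q + 1) ^ L.length) := Nat.mul_le_mul_left _ h1
        _ = finrank K (⨅ i ∈ (j :: L), LinearMap.ker (M.x i) : Submodule K M.V) *
          (q + 1) ^ (j :: L).length := by
          rw [List.length_cons, pow_succ]
          ring
        _ ≤ _ := h
    have h4 := dim_eq (M.x j) q (M.xp j) h3
    refine ⟨h4.1, h4.2, ih (M.kerx j) ?_⟩
    rw [inf_cons]
    have h5 : (q + 1) * (finrank K (⨅ i ∈ (j :: L), LinearMap.ker (M.x i) : Submodule K M.V) *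
          (q + 1) ^ L.length) ≤ (q + 1) * finrank K (M.kerx j).V := by
      refine le_trans (le_of_eq ?_) (le_trans h h2)
      rw [List.length_cons, pow_succ]
      ring
    exact Nat.le_of_mul_le_mul_left h5 (Nat.succ_pos q)

end Pool.Agent.P8H83.ZL
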