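import Mathlib

/-!
# Differential modules with commuting nilpotent operators
-/

set_option autoImplicit false

namespace Pool.Agent.P8H83.ZL

open Module

/-- A `K`-vector space `V` with a differential `d` and operators `x i` with `x i ^ (q + 1) = 0`;
all these operators commute. -/
structure DM (K : Type) [Field K] (ι : Type) (q : ℕ) where
  V : Type
  [grp : AddCommGroup V]
  [mod : Module K V]
  d : V →ₗ[K] V
  x : ι → V →ₗ[K] V
  dd : ∀ v, d (d v) = 0
  dx : ∀ i v, d (x i v) = x i (d v)
  xx : ∀ i j v, x i (x j v) = x j (x i v)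
  xp : ∀ i v, (x i ^ (q + 1)) v = 0

attribute [instance] DM.grp DM.mod

variable {K : Type} [Field K] {ι : Type} {q : ℕ}

/-- Morphisms. -/
structure Hom (M N : DM K ι q) where
  f : M.V →ₗ[K] N.V
  hd : ∀ v, f (M.d v) = N.d (f v)
  hx : ∀ i v, f (M.x i v) = N.x i (f v)

def Hom.id (M : DM K ι q) : Hom M M := ⟨LinearMap.id, fun _ => rfl, fun _ _ => rfl⟩

def Hom.comp {L M N : DM K ι q} (g : Hom M N) (f : Hom L M) : Hom L N :=
  ⟨g.f.comp f.f, fun v => by
    rw [LinearMap.comp_apply, LinearMap.comp_apply, f.hd, g.hd], fun i v => by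
    rw [LinearMap.comp_apply, LinearMap.comp_apply, f.hx, g.hx]⟩

/-- Acyclic. -/
def Acyc (M : DM K ι q) : Prop := ∀ v, M.d v = 0 → ∃ w, M.d w = v

/-- The map induced in homology is zero. -/
def ZeroH {M N : DM K ι q} (f : Hom M N) : Prop := ∀ v, M.d v = 0 → ∃ w, N.d w = f.f v

/-- The map induced in homology is bijective. -/
def QIso {M N : DM K ι q} (f : Hom M N) : Prop :=
  (∀ v, M.d v = 0 → (∃ w, N.d w = f.f v) → ∃ u, M.d u = v) ∧
  (∀ w, N.d w = 0 → ∃ v u, M.d v = 0 ∧ w = f.f v + N.d u)

/-- The operators `u k`, equal to `x j` for odd `k` and `x j ^ q` for even `k`. -/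
noncomputable def DM.u (M : DM K ι q) (j : ι) (k : ℕ) : M.V →ₗ[K] M.V :=
  if k % 2 = 1 then M.x j else M.x j ^ q

theorem DM.dpow (M : DM K ι q) (j : ι) (n : ℕ) (v : M.V) :
    M.d ((M.x j ^ n) v) = (M.x j ^ n) (M.d v) := by
  induction n generalizing v with
  | zero => rfl
  | succ n ih => rw [pow_succ, Module.End.mul_apply, Module.End.mul_apply, ih, M.dx]

theorem DM.xpow (M : DM K ι q) (i j : ι) (n : ℕ) (v : M.V) :
    M.x i ((M.x j ^ n) v) = (M.x j ^ n) (M.x i v) := by
  induction n generalizing v with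
  | zero => rfl
  | succ n ih => rw [pow_succ, Module.End.mul_apply, Module.End.mul_apply, ih, M.xx]

theorem Hom.hpow {M N : DM K ι q} (f : Hom M N) (j : ι) (n : ℕ) (v : M.V) :
    f.f ((M.x j ^ n) v) = (N.x j ^ n) (f.f v) := by
  induction n generalizing v with
  | zero => rfl
  | succ n ih => rw [pow_succ, pow_succ, Module.End.mul_apply, Module.End.mul_apply, ih, f.hx]

theorem DM.du (M : DM K ι q) (j : ι) (k : ℕ) (v : M.V) : M.d (M.u j k v) = M.u j k (M.d v) := by
  unfold DM.u
  split_ifs
  · exact M.dx j v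
  · exact M.dpow j q v

theorem DM.xu (M : DM K ι q) (i j : ι) (k : ℕ) (v : M.V) :
    M.x i (M.u j k v) = M.u j k (M.x i v) := by
  unfold DM.u
  split_ifs
  · exact M.xx i j v
  · exact M.xpow i j q v

theorem DM.uu (M : DM K ι q) (j : ι) (k : ℕ) (v : M.V) :
    M.u j (k + 1) (M.u j k v) = 0 := by
  have h := M.xp j v
  unfold DM.u
  rcases Nat.mod_two_eq_zero_or_one k with hk | hk
  · rw [if_pos (by omega), if_neg (by omega)]
    rw [pow_succ', Module.End.mul_apply] at h
    exact h
  · rw [if_neg (by omega), if_pos hk]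
    rw [pow_succ, Module.End.mul_apply] at h
    exact h

theorem DM.uu' (M : DM K ι q) (j : ι) (k : ℕ) (v : M.V) :
    M.u j k (M.u j (k + 1) v) = 0 := by
  have h := M.xp j v
  unfold DM.u
  rcases Nat.mod_two_eq_zero_or_one k with hk | hk
  · rw [if_neg (by omega), if_pos (by omega)]
    rw [pow_succ, Module.End.mul_apply] at h
    exact h
  · rw [if_pos hk, if_neg (by omega)]
    rw [pow_succ', Module.End.mul_apply] at h
    exact h

theorem Hom.hu {M N : DM K ι q} (f : Hom M N) (j : ι) (k : ℕ) (v : M.V) :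
    f.f (M.u j k v) = N.u j k (f.f v) := by
  unfold DM.u
  split_ifs
  · exact f.hx j v
  · exact f.hpow j q v

/-- The differential of `Fix j M`. -/
noncomputable def fixD (M : DM K ι q) (j : ι) : (ℕ → M.V) →ₗ[K] (ℕ → M.V) where
  toFun s
    | 0 => M.d (s 0)
    | k + 1 => (-1 : K) ^ (k + 1) • M.d (s (k + 1)) + M.u j (k + 1) (s k)
  map_add' s t := by
    funext k
    cases k with
    | zero => simp
    | succ k =>
      show (-1 : K) ^ (k + 1) • M.d (s (k + 1) + t (k + 1)) + M.u j (k + 1) (s k + t k) =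
        ((-1 : K) ^ (k + 1) • M.d (s (k + 1)) + M.u j (k + 1) (s k)) +
        ((-1 : K) ^ (k + 1) • M.d (t (k + 1)) + M.u j (k + 1) (t k))
      rw [map_add, map_add, smul_add]
      abel
  map_smul' c s := by
    funext k
    cases k with
    | zero => simp
    | succ k =>
      show (-1 : K) ^ (k + 1) • M.d (c • s (k + 1)) + M.u j (k + 1) (c • s k) =
        c • ((-1 : K) ^ (k + 1) • M.d (s (k + 1)) + M.u j (k + 1) (s k))
      rw [map_smul, map_smul, smul_add, smul_comm]

theorem fixD_zero (M : DM K ι q) (j : ι) (s : ℕ → M.V) : fixD M j s 0 = M.d (s 0) := rfl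

theorem fixD_succ (M : DM K ι q) (j : ι) (s : ℕ → M.V) (k : ℕ) :
    fixD M j s (k + 1) = (-1 : K) ^ (k + 1) • M.d (s (k + 1)) + M.u j (k + 1) (s k) := rfl

/-- The differential of `Orb j M`, on all sequences. -/
noncomputable def orbD (M : DM K ι q) (j : ι) : (ℕ → M.V) →ₗ[K] (ℕ → M.V) where
  toFun s k := (-1 : K) ^ k • M.d (s k) + M.u j (k + 1) (s (k + 1))
  map_add' s t := by
    funext k
    show (-1 : K) ^ k • M.d (s k + t k) + M.u j (k + 1) (s (k + 1) + t (k + 1)) =
        ((-1 : K) ^ k • M.d (s k) + M.u j (k + 1) (s (k + 1))) +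
        ((-1 : K) ^ k • M.d (t k) + M.u j (k + 1) (t (k + 1)))
    rw [map_add, map_add, smul_add]
    abel
  map_smul' c s := by
    funext k
    show (-1 : K) ^ k • M.d (c • s k) + M.u j (k + 1) (c • s (k + 1)) =
        c • ((-1 : K) ^ k • M.d (s k) + M.u j (k + 1) (s (k + 1)))
    rw [map_smul, map_smul, smul_add, smul_comm]

theorem orbD_apply (M : DM K ι q) (j : ι) (s : ℕ → M.V) (k : ℕ) :
    orbD M j s k = (-1 : K) ^ k • M.d (s k) + M.u j (k + 1) (s (k + 1)) := rfl

/-- A linear map acting on sequences. -/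
def seqMap {V W : Type} [AddCommGroup V] [Module K V] [AddCommGroup W] [Module K W]
    (f : V →ₗ[K] W) : (ℕ → V) →ₗ[K] (ℕ → W) where
  toFun s k := f (s k)
  map_add' s t := by funext k; exact map_add f _ _
  map_smul' c s := by funext k; exact map_smul f _ _

@[simp] theorem seqMap_apply {V W : Type} [AddCommGroup V] [Module K V] [AddCommGroup W]
    [Module K W] (f : V →ₗ[K] W) (s : ℕ → V) (k : ℕ) : seqMap f s k = f (s k) := rfl

theorem seqMap_pow {V : Type} [AddCommGroup V] [Module K V] (f : V →ₗ[K] V) (n : ℕ) (s : ℕ → V)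
    (k : ℕ) : ((seqMap f ^ n) s) k = (f ^ n) (s k) := by
  induction n generalizing s with
  | zero => rfl
  | succ n ih => rw [pow_succ, pow_succ, Module.End.mul_apply, Module.End.mul_apply, ih]; rfl

/-- The sequences which are zero from some place on. -/
def finSub (K V : Type) [Field K] [AddCommGroup V] [Module K V] : Submodule K (ℕ → V) where
  carrier := {s | ∃ n, ∀ k, n ≤ k → s k = 0}
  add_mem' := by
    rintro s t ⟨n, hn⟩ ⟨m, hm⟩
    refine ⟨max n m, fun k hk => ?_⟩
    rw [Pi.add_apply, hn k (le_trans (le_max_left _ _) hk), hm k (le_trans (le_max_right _ _) hk),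
      add_zero]
  zero_mem' := ⟨0, fun _ _ => rfl⟩
  smul_mem' := by
    rintro c s ⟨n, hn⟩
    refine ⟨n, fun k hk => ?_⟩
    rw [Pi.smul_apply, hn k hk, smul_zero]

/-- Homotopy fixed points of the operator `x j`. -/
noncomputable def Fix (j : ι) (M : DM K ι q) : DM K ι q where
  V := ℕ → M.V
  d := fixD M j
  x i := seqMap (M.x i)
  dd s := by
    funext k
    cases k with
    | zero => exact M.dd _
    | succ k =>
      rw [fixD_succ]
      cases k with
      | zero =>
        rw [fixD_succ, fixD_zero, map_add, map_smul, M.dd, M.du]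
        simp
      | succ k =>
        rw [fixD_succ, fixD_succ, map_add, map_add, map_smul, map_smul, M.dd, M.du, M.uu]
        have h : (-1 : K) ^ (k + 1 + 1) = - (-1 : K) ^ (k + 1) := by ring
        rw [h]
        simp
  dx i s := by
    funext k
    cases k with
    | zero => exact M.dx i _
    | succ k =>
      rw [fixD_succ, seqMap_apply, seqMap_apply, seqMap_apply, fixD_succ, map_add, map_smul, M.dx,
        M.xu]
  xx i j s := by
    funext k
    exact M.xx i j _
  xp i s := by
    funext k
    rw [seqMap_pow]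
    exact M.xp i _

theorem orbD_mem (M : DM K ι q) (j : ι) (s : ℕ → M.V) (hs : s ∈ finSub K M.V) :
    orbD M j s ∈ finSub K M.V := by
  obtain ⟨n, hn⟩ := hs
  refine ⟨n, fun k hk => ?_⟩
  rw [orbD_apply, hn k hk, hn (k + 1) (by omega), map_zero, map_zero, smul_zero, add_zero]

theorem seqMap_mem {V W : Type} [AddCommGroup V] [Module K V] [AddCommGroup W] [Module K W]
    (f : V →ₗ[K] W) (s : ℕ → V) (hs : s ∈ finSub K V) : seqMap f s ∈ finSub K W := by
  obtain ⟨n, hn⟩ := hs
  refine ⟨n, fun k hk => ?_⟩
  rw [seqMap_apply, hn k hk, map_zero]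

/-- A linear map acting on sequences which are finally zero. -/
def finMap {V W : Type} [AddCommGroup V] [Module K V] [AddCommGroup W] [Module K W]
    (f : V →ₗ[K] W) : finSub K V →ₗ[K] finSub K W :=
  (seqMap f).restrict (fun s hs => seqMap_mem f s hs)

@[simp] theorem finMap_apply {V W : Type} [AddCommGroup V] [Module K V] [AddCommGroup W]
    [Module K W] (f : V →ₗ[K] W) (s : finSub K V) (k : ℕ) :
    (finMap f s : ℕ → W) k = f ((s : ℕ → V) k) := rfl

theorem finMap_pow {V : Type} [AddCommGroup V] [Module K V] (f : V →ₗ[K] V) (n : ℕ)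
    (s : finSub K V) (k : ℕ) : ((finMap f ^ n) s : ℕ → V) k = (f ^ n) ((s : ℕ → V) k) := by
  induction n generalizing s with
  | zero => rfl
  | succ n ih => rw [pow_succ, pow_succ, Module.End.mul_apply, Module.End.mul_apply, ih]; rfl

/-- Homotopy orbits of the operator `x j`. -/
noncomputable def Orb (j : ι) (M : DM K ι q) : DM K ι q where
  V := finSub K M.V
  d := (orbD M j).restrict (fun s hs => orbD_mem M j s hs)
  x i := finMap (M.x i)
  dd s := by
    apply Subtype.ext
    funext k
    show orbD M j (orbD M j s) k = 0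
    rw [orbD_apply, orbD_apply, orbD_apply, map_add, map_add, map_smul, map_smul, M.dd, M.du,
      M.uu']
    have h : (-1 : K) ^ (k + 1) = - (-1 : K) ^ k := by ring
    rw [h]
    simp
  dx i s := by
    apply Subtype.ext
    funext k
    show orbD M j (seqMap (M.x i) s) k = M.x i (orbD M j s k)
    rw [orbD_apply, orbD_apply, seqMap_apply, seqMap_apply, map_add, map_smul, M.dx, M.xu]
  xx i j s := by
    apply Subtype.ext
    funext k
    exact M.xx i j _
  xp i s := by
    apply Subtype.ext
    funext k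
    rw [finMap_pow]
    exact M.xp i _

noncomputable def fixMap (j : ι) {M N : DM K ι q} (f : Hom M N) : Hom (Fix j M) (Fix j N) where
  f := seqMap f.f
  hd s := by
    funext k
    cases k with
    | zero => exact f.hd _
    | succ k =>
      show f.f ((-1 : K) ^ (k + 1) • M.d (s (k + 1)) + M.u j (k + 1) (s k)) =
        (-1 : K) ^ (k + 1) • N.d (f.f (s (k + 1))) + N.u j (k + 1) (f.f (s k))
      rw [map_add, map_smul, f.hd, f.hu]
  hx i s := by
    funext k
    exact f.hx i _

noncomputable def orbMap (j : ι) {M N : DM K ι q} (f : Hom M N) : Hom (Orb j M) (Orb j N) where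
  f := finMap f.f
  hd s := by
    apply Subtype.ext
    funext k
    show f.f ((-1 : K) ^ k • M.d (s.1 k) + M.u j (k + 1) (s.1 (k + 1))) =
        (-1 : K) ^ k • N.d (f.f (s.1 k)) + N.u j (k + 1) (f.f (s.1 (k + 1)))
    rw [map_add, map_smul, f.hd, f.hu]
  hx i s := by
    apply Subtype.ext
    funext k
    exact f.hx i _

/-- The sequence with `v` in place `0`. -/
def sing0 {V : Type} [AddCommGroup V] [Module K V] : V →ₗ[K] (ℕ → V) where
  toFun v k := if k = 0 then v else 0
  map_add' v w := by
    funext k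
    by_cases hk : k = 0 <;> simp [hk]
  map_smul' c v := by
    funext k
    by_cases hk : k = 0 <;> simp [hk]

theorem sing0_zero {V : Type} [AddCommGroup V] [Module K V] (v : V) :
    sing0 (K := K) v 0 = v := rfl

theorem sing0_succ {V : Type} [AddCommGroup V] [Module K V] (v : V) (k : ℕ) :
    sing0 (K := K) v (k + 1) = 0 := rfl

/-- The norm map. -/
noncomputable def norm (j : ι) (M : DM K ι q) : Hom (Orb j M) (Fix j M) where
  f := sing0.comp ((M.u j 0).comp ((LinearMap.proj 0).comp (finSub K M.V).subtype))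
  hd s := by
    funext k
    cases k with
    | zero =>
      show M.u j 0 ((-1 : K) ^ 0 • M.d (s.1 0) + M.u j (0 + 1) (s.1 (0 + 1))) =
        M.d (M.u j 0 (s.1 0))
      rw [map_add, M.uu', M.du]
      simp
    | succ k =>
      show (0 : M.V) = (-1 : K) ^ (k + 1) • M.d 0 + M.u j (k + 1) (if k = 0 then _ else 0)
      rw [map_zero, smul_zero, zero_add]
      split_ifs with hk
      · subst hk
        exact (M.uu j 0 _).symm
      · rw [map_zero]
  hx i s := by
    funext k
    cases k with
    | zero => exact (M.xu i j 0 _).symm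
    | succ k => exact (map_zero (M.x i)).symm

/-- Iterated homotopy fixed points and orbits. -/
noncomputable def fixL : List ι → DM K ι q → DM K ι q
  | [], M => M
  | j :: L, M => fixL L (Fix j M)

noncomputable def orbL : List ι → DM K ι q → DM K ι q
  | [], M => M
  | j :: L, M => orbL L (Orb j M)

noncomputable def fixLMap : (L : List ι) → {M N : DM K ι q} → Hom M N → Hom (fixL L M) (fixL L N)
  | [], _, _, f => f
  | j :: L, _, _, f => fixLMap L (fixMap j f)

noncomputable def orbLMap : (L : List ι) → {M N : DM K ι q} → Hom M N → Hom (orbL L M) (orbL L N)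
  | [], _, _, f => f
  | j :: L, _, _, f => orbLMap L (orbMap j f)

/-- The iterated norm map. -/
noncomputable def nu : (L : List ι) → (M : DM K ι q) → Hom (orbL L M) (fixL L M)
  | [], M => Hom.id M
  | j :: L, M => (nu L (Fix j M)).comp (orbLMap L (norm j M))

/-- The level: the number of steps with trivial operators. -/
inductive Level : ℕ → DM K ι q → Prop
  | zero (M : DM K ι q) (h : ∀ v : M.V, v = 0) : Level 0 M
  | mono (c : ℕ) (M : DM K ι q) : Level c M → Level (c + 1) M
  | qiso (c : ℕ) (A M : DM K ι q) (f : Hom A M) : QIso f → Level c A → Level c M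
  | triv (c : ℕ) (A M : DM K ι q) (f : Hom A M) : Function.Injective f.f →
      (∀ j v, ∃ a, f.f a = M.x j v) → Level c A → Level (c + 1) M

/-- The kernel of `x j`. -/
noncomputable def DM.kerx (M : DM K ι q) (j : ι) : DM K ι q where
  V := LinearMap.ker (M.x j)
  d := M.d.restrict (fun v hv => by
    rw [LinearMap.mem_ker] at hv ⊢
    rw [← M.dx, hv, map_zero])
  x i := (M.x i).restrict (fun v hv => by
    rw [LinearMap.mem_ker] at hv ⊢
    rw [M.xx, hv, map_zero])
  dd v := Subtype.ext (M.dd _)
  dx i v := Subtype.ext (M.dx i _)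
  xx i j v := Subtype.ext (M.xx i j _)
  xp i v := by
    apply Subtype.ext
    rw [Module.End.pow_restrict]
    exact M.xp i _

/-- `M` is free over the algebra generated by the operators in the list. -/
def FreeOver : List ι → DM K ι q → Prop
  | [], _ => True
  | j :: L, M => (∀ v, M.x j v = 0 → ∃ w, (M.x j ^ q) w = v) ∧
      (∀ v, (M.x j ^ q) v = 0 → ∃ w, M.x j w = v) ∧ FreeOver L (M.kerx j)

/-- Finite filtrations with free quotients with zero differential. -/
inductive Flag (L : List ι) : DM K ι q → Prop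
  | zero (M : DM K ι q) (h : ∀ v : M.V, v = 0) : Flag L M
  | ext (A M C : DM K ι q) (f : Hom A M) (g : Hom M C) : Function.Injective f.f →
      (∀ v, g.f v = 0 ↔ ∃ a, f.f a = v) → Function.Surjective g.f →
      (∀ v, C.d v = 0) → FreeOver L C → Flag L A → Flag L M

end Pool.Agent.P8H83.ZL
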