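import Pool.Agent.P8H83.ZL.Stm

/-!
# Project ZL (helper83), package FLG: the flag of a complex, and sub-objects (helper63)
-/

set_option autoImplicit false

namespace Pool.Agent.P8H83.ZL

namespace FLGaux

open Module

variable {K : Type} [Field K] {ι : Type} {q : ℕ}

/-- stable subspaces -/
structure Stab (M : DM K ι q) (U : Submodule K M.V) : Prop where
  hd : ∀ v ∈ U, M.d v ∈ U
  hx : ∀ i, ∀ v ∈ U, M.x i v ∈ U

/-- the sub-object -/
noncomputable def sub (M : DM K ι q) (U : Submodule K M.V) (h : Stab M U) : DM K ι q where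
  V := U
  d := M.d.restrict h.hd
  x i := (M.x i).restrict (h.hx i)
  dd v := Subtype.ext (M.dd _)
  dx i v := Subtype.ext (M.dx i _)
  xx i j v := Subtype.ext (M.xx i j _)
  xp i v := by
    apply Subtype.ext
    rw [Module.End.pow_restrict]
    exact M.xp i _

/-- the inclusion in the whole object -/
noncomputable def incl (M : DM K ι q) (U : Submodule K M.V) (h : Stab M U) : Hom (sub M U h) M :=
  ⟨U.subtype, fun _ => rfl, fun _ _ => rfl⟩

/-- the inclusion of sub-objects -/
noncomputable def inc (M : DM K ι q) {U W : Submodule K M.V} (h : Stab M U) (h' : Stab M W) (hUW : U ≤ W) :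
    Hom (sub M U h) (sub M W h') :=
  ⟨Submodule.inclusion hUW, fun _ => rfl, fun _ _ => rfl⟩

/-- the term in degree `n` -/
def ev (G : GC K ι q) (n : ℕ) : G.tot.V →ₗ[K] G.C n := LinearMap.proj (R := K) (φ := G.C) n

theorem ev_d_zero (G : GC K ι q) (s : G.tot.V) : ev G 0 (G.tot.d s) = 0 := rfl

theorem ev_d_succ (G : GC K ι q) (s : G.tot.V) (n : ℕ) : ev G (n + 1) (G.tot.d s) = G.d n (ev G n s) := rfl

theorem ev_x (G : GC K ι q) (j : ι) (s : G.tot.V) (n : ℕ) : ev G n (G.tot.x j s) = G.x j n (ev G n s) := rfl

theorem ev_ext (G : GC K ι q) {s t : G.tot.V} (h : ∀ n, ev G n s = ev G n t) : s = t := funext h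

open Classical in
/-- the sequence with one term -/
noncomputable def sing (G : GC K ι q) (m : ℕ) (c : G.C m) : G.tot.V := Pi.single (M := G.C) m c

theorem sing_same (G : GC K ι q) (m : ℕ) (c : G.C m) : ev G m (sing G m c) = c :=
  Pi.single_eq_same (M := G.C) m c

theorem sing_ne (G : GC K ι q) (m : ℕ) (c : G.C m) {i : ℕ} (h : i ≠ m) : ev G i (sing G m c) = 0 :=
  Pi.single_eq_of_ne (M := G.C) h c

/-- sequences which vanish below `m` -/
noncomputable def low (G : GC K ι q) (m : ℕ) : Submodule K G.tot.V where
  carrier := {s | ∀ i, i < m → ev G i s = 0}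
  add_mem' := by
    intro s t hs ht i hi
    rw [map_add, hs i hi, ht i hi, add_zero]
  zero_mem' := fun _ _ => map_zero _
  smul_mem' := by
    intro c s hs i hi
    rw [map_smul, hs i hi, smul_zero]

theorem low_stab (G : GC K ι q) (m : ℕ) : Stab G.tot (low G m) where
  hd := by
    intro s hs i hi
    cases i with
    | zero => rfl
    | succ i => rw [ev_d_succ, hs i (by omega), map_zero]
  hx := by
    intro j s hs i hi
    rw [ev_x, hs i hi, map_zero]

/-- the projection to one degree -/
noncomputable def proj (G : GC K ι q) (m : ℕ) : Hom (sub G.tot (low G m) (low_stab G m)) (G.deg m) where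
  f := (ev G m).comp (low G m).subtype
  hd := by
    rintro ⟨s, hs⟩
    show ev G m (G.tot.d s) = 0
    cases m with
    | zero => rfl
    | succ m => rw [ev_d_succ, hs m (by omega), map_zero]
  hx := fun _ _ => rfl

theorem low_le (G : GC K ι q) (m : ℕ) : low G (m + 1) ≤ low G m := fun _ hs i hi => hs i (by omega)

theorem flag_low (G : GC K ι q) (N : ℕ) (hN : ∀ n, N ≤ n → ∀ v : G.C n, v = 0) (L : List ι)
    (hL : ∀ n, FreeOver L (G.deg n)) : ∀ k m : ℕ, N ≤ m + k → Flag L (sub G.tot (low G m) (low_stab G m)) := by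
  intro k
  induction k with
  | zero =>
    intro m hm
    refine Flag.zero _ ?_
    rintro ⟨v, hv⟩
    apply Subtype.ext
    apply ev_ext
    intro i
    show ev G i v = 0
    rcases Nat.lt_or_ge i m with h | h
    · exact hv i h
    · exact hN i (by omega) _
  | succ k ih =>
    intro m hm
    refine Flag.ext (sub G.tot (low G (m + 1)) (low_stab G (m + 1))) _ (G.deg m)
      (inc G.tot (low_stab G (m + 1)) (low_stab G m) (low_le G m)) (proj G m)
      (Submodule.inclusion_injective (low_le G m)) ?_ ?_ (fun _ => rfl) (hL m) (ih (m + 1) (by omega))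
    · rintro ⟨v, hv⟩
      constructor
      · intro hv'
        have hv'' : ev G m v = 0 := hv'
        refine ⟨⟨v, fun i hi => ?_⟩, Subtype.ext rfl⟩
        rcases Nat.lt_or_ge i m with h | h
        · exact hv i h
        · have : i = m := by omega
          subst this
          exact hv''
      · rintro ⟨⟨a, ha⟩, hav⟩
        have hav' : a = v := congrArg Subtype.val hav
        show ev G m v = 0
        rw [← hav']
        exact ha m (by omega)
    · intro c
      refine ⟨⟨sing G m c, fun i hi => sing_ne G m c (by omega)⟩, ?_⟩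
      exact sing_same G m c

end FLGaux

open FLGaux in
theorem flg_proof : S_FLG := by
  intro K _ ι q G N hN L hL
  refine Flag.ext (sub G.tot (low G 1) (low_stab G 1)) _ (G.deg 0) (incl G.tot _ _)
    ⟨ev G 0, fun _ => rfl, fun _ _ => rfl⟩ Subtype.val_injective ?_ ?_ (fun _ => rfl) (hL 0)
    (flag_low G N hN L hL N 1 (by omega))
  · intro v
    constructor
    · intro hv
      refine ⟨⟨v, fun i hi => ?_⟩, rfl⟩
      have : i = 0 := by omega
      subst this
      exact hv
    · rintro ⟨⟨a, ha⟩, rfl⟩
      exact ha 0 (by omega)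
  · intro c
    exact ⟨sing G 0 c, sing_same G 0 c⟩

end Pool.Agent.P8H83.ZL
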