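import Pool.Agent.P8H83.ZL.Stm

/-!
# Package FR: the norm is a quasi-isomorphism on objects with free flags
-/

set_option autoImplicit false

namespace Pool.Agent.P8H83.ZL

/-! ### The five lemma -/

theorem ext_proof : S_EXT := by
  intro K _ ι q A M C A' M' C' f g f' g' a m c hfg hfg' h1 h2 ha hc
  obtain ⟨fi, fe, fs⟩ := hfg
  obtain ⟨fi', fe', fs'⟩ := hfg'
  obtain ⟨ai, as⟩ := ha
  obtain ⟨ci, cs⟩ := hc
  have gf : ∀ v, g.f (f.f v) = 0 := fun v => (fe _).mpr ⟨v, rfl⟩
  have gf' : ∀ v, g'.f (f'.f v) = 0 := fun v => (fe' _).mpr ⟨v, rfl⟩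
  constructor
  · intro v hv hw
    obtain ⟨w, hw⟩ := hw
    obtain ⟨u, hu⟩ := ci (g.f v) (by rw [← g.hd, hv, map_zero]) ⟨g'.f w, by
      rw [h2, ← hw, g'.hd]⟩
    obtain ⟨u1, rfl⟩ := fs u
    obtain ⟨y, hy⟩ := (fe (v - M.d u1)).mp (by rw [map_sub, g.hd, hu, sub_self])
    have hdy : A.d y = 0 := by
      apply fi
      rw [f.hd, hy, map_sub, hv, M.dd, sub_zero, map_zero]
    have e1 : M'.d (w - m.f u1) = f'.f (a.f y) := by
      rw [← h1, hy, map_sub, map_sub, hw, m.hd]
    have e2 : C'.d (g'.f (w - m.f u1)) = 0 := by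
      rw [← g'.hd, e1, gf']
    obtain ⟨z1, z2, hz1, hz⟩ := cs _ e2
    obtain ⟨t1, rfl⟩ := fs z1
    obtain ⟨t2, rfl⟩ := fs' z2
    obtain ⟨s, hs⟩ := (fe (M.d t1)).mp (by rw [g.hd, hz1])
    obtain ⟨r, hr⟩ := (fe' ((w - m.f u1) - m.f t1 - M'.d t2)).mp (by
      rw [map_sub, map_sub, ← h2, g'.hd, hz]
      abel)
    have e3 : A'.d r = a.f (y - s) := by
      apply fi'
      rw [f'.hd, hr, map_sub, map_sub, e1, M'.dd, sub_zero, ← m.hd, ← hs, h1, map_sub, map_sub]
    have hds : A.d s = 0 := by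
      apply fi
      rw [f.hd, hs, M.dd, map_zero]
    obtain ⟨e, he⟩ := ai (y - s) (by rw [map_sub, hdy, hds, sub_zero]) ⟨r, e3⟩
    refine ⟨u1 + t1 + f.f e, ?_⟩
    rw [map_add, map_add, ← f.hd, he, map_sub, hy, hs]
    abel
  · intro w hw
    obtain ⟨z1, z2, hz1, hz⟩ := cs (g'.f w) (by rw [← g'.hd, hw, map_zero])
    obtain ⟨t1, rfl⟩ := fs z1
    obtain ⟨t2, rfl⟩ := fs' z2
    obtain ⟨s, hs⟩ := (fe (M.d t1)).mp (by rw [g.hd, hz1])
    obtain ⟨r, hr⟩ := (fe' (w - m.f t1 - M'.d t2)).mp (by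
      rw [map_sub, map_sub, ← h2, g'.hd, hz]
      abel)
    have hds : A.d s = 0 := by
      apply fi
      rw [f.hd, hs, M.dd, map_zero]
    have e3 : A'.d (-r) = a.f s := by
      apply fi'
      rw [f'.hd, map_neg, map_neg, hr, map_sub, map_sub, hw, M'.dd, sub_zero, zero_sub, neg_neg,
        ← m.hd, ← hs, h1]
    obtain ⟨e, he⟩ := ai s hds ⟨-r, e3⟩
    have e4 : A'.d (r + a.f e) = 0 := by
      have : A'.d r = -(a.f s) := by rw [← e3, map_neg, neg_neg]
      rw [map_add, this, ← a.hd, he, neg_add_cancel]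
    obtain ⟨α, β, hα, hβ⟩ := as _ e4
    refine ⟨t1 - f.f e + f.f α, t2 + f'.f β, ?_, ?_⟩
    · rw [map_add, map_sub, ← f.hd, ← f.hd, he, hs, hα, map_zero, sub_self, add_zero]
    · have e5 : w = m.f t1 + M'.d t2 + f'.f r := by rw [hr]; abel
      have e6 : f'.f r = f'.f (a.f α) + f'.f (A'.d β) - f'.f (a.f e) := by
        have : r = a.f α + A'.d β - a.f e := by rw [← hβ, add_sub_cancel_right]
        rw [this, map_sub, map_add]
      rw [e5, e6, map_add, map_sub, map_add, h1, h1, f'.hd]
      abel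

namespace FR

variable {K : Type} [Field K] {ι : Type} {q : ℕ}

theorem hom_ext {M N : DM K ι q} {f g : Hom M N} (h : ∀ v, f.f v = g.f v) : f = g := by
  obtain ⟨f, _, _⟩ := f
  obtain ⟨g, _, _⟩ := g
  have : f = g := LinearMap.ext h
  subst this
  rfl

theorem comp_apply {L M N : DM K ι q} (g : Hom M N) (f : Hom L M) (v : L.V) :
    (g.comp f).f v = g.f (f.f v) := rfl

/-! ### Quasi-isomorphisms -/

theorem qiso_id (M : DM K ι q) : QIso (Hom.id M) :=
  ⟨fun v _ h => h, fun w hw => ⟨w, 0, hw, by rw [map_zero, add_zero]; rfl⟩⟩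

theorem qiso_comp {L M N : DM K ι q} (g : Hom M N) (f : Hom L M) (hg : QIso g) (hf : QIso f) :
    QIso (g.comp f) := by
  constructor
  · intro v hv hw
    exact hf.1 v hv (hg.1 (f.f v) (by rw [← f.hd, hv, map_zero]) hw)
  · intro w hw
    obtain ⟨v, u, hv, hvu⟩ := hg.2 w hw
    obtain ⟨v', u', hv', hvu'⟩ := hf.2 v hv
    refine ⟨v', g.f u' + u, hv', ?_⟩
    rw [hvu, hvu', comp_apply, map_add, map_add, g.hd, add_assoc]

theorem qiso_right {L M N : DM K ι q} (g : Hom M N) (f : Hom L M) (hf : QIso f)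
    (h : QIso (g.comp f)) : QIso g := by
  constructor
  · intro v hv hw
    obtain ⟨w, hw⟩ := hw
    obtain ⟨m, u, hm, hmu⟩ := hf.2 v hv
    obtain ⟨m', hm'⟩ := h.1 m hm ⟨w - g.f u, by
      rw [map_sub, hw, hmu, map_add, g.hd, comp_apply]; abel⟩
    exact ⟨f.f m' + u, by rw [map_add, ← f.hd, hm', hmu]⟩
  · intro w hw
    obtain ⟨v, u, hv, hvu⟩ := h.2 w hw
    exact ⟨f.f v, u, by rw [← f.hd, hv, map_zero], hvu⟩

/-! ### Functoriality -/

theorem fixMap_comp (j : ι) {L M N : DM K ι q} (g : Hom M N) (f : Hom L M) :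
    fixMap j (g.comp f) = (fixMap j g).comp (fixMap j f) := hom_ext fun _ => rfl

theorem orbMap_comp (j : ι) {L M N : DM K ι q} (g : Hom M N) (f : Hom L M) :
    orbMap j (g.comp f) = (orbMap j g).comp (orbMap j f) := hom_ext fun _ => rfl

theorem orbLMap_comp (Ls : List ι) : ∀ {L M N : DM K ι q} (g : Hom M N) (f : Hom L M),
    orbLMap Ls (g.comp f) = (orbLMap Ls g).comp (orbLMap Ls f) := by
  induction Ls with
  | nil => intro L M N g f; rfl
  | cons j Ls ih =>
    intro L M N g f
    show orbLMap Ls (orbMap j (g.comp f)) = _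
    rw [orbMap_comp, ih]
    rfl

theorem norm_nat (j : ι) {M N : DM K ι q} (f : Hom M N) :
    (norm j N).comp (orbMap j f) = (fixMap j f).comp (norm j M) := by
  apply hom_ext
  intro s
  funext k
  cases k with
  | zero => exact (f.hu j 0 _).symm
  | succ k => exact (map_zero f.f).symm

theorem nu_nat (L : List ι) : ∀ {M N : DM K ι q} (f : Hom M N),
    (nu L N).comp (orbLMap L f) = (fixLMap L f).comp (nu L M) := by
  induction L with
  | nil => intro M N f; rfl
  | cons j L ih =>
    intro M N f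
    have h1 : (nu (j :: L) N).comp (orbLMap (j :: L) f) =
        (nu L (Fix j N)).comp ((orbLMap L (norm j N)).comp (orbLMap L (orbMap j f))) := rfl
    have h2 : (fixLMap (j :: L) f).comp (nu (j :: L) M) =
        ((fixLMap L (fixMap j f)).comp (nu L (Fix j M))).comp (orbLMap L (norm j M)) := rfl
    rw [h1, h2, ← orbLMap_comp, norm_nat, orbLMap_comp, ← ih]
    rfl

/-! ### Exactness -/

theorem ses_fix (j : ι) {A M C : DM K ι q} (f : Hom A M) (g : Hom M C) (h : Ses f g) :
    Ses (fixMap j f) (fixMap j g) := by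
  obtain ⟨h1, h2, h3⟩ := h
  refine ⟨?_, ?_, ?_⟩
  · intro s t hst
    funext k
    exact h1 (congrFun hst k)
  · intro s
    constructor
    · intro hs
      have : ∀ k, ∃ a, f.f a = (s : ℕ → M.V) k := fun k => (h2 _).mp (congrFun hs k)
      choose t ht using this
      exact ⟨t, funext ht⟩
    · rintro ⟨t, rfl⟩
      funext k
      exact (h2 _).mpr ⟨_, rfl⟩
  · intro s
    have : ∀ k, ∃ a, g.f a = (s : ℕ → C.V) k := fun k => h3 _
    choose t ht using this
    exact ⟨t, funext ht⟩

theorem ses_orb (j : ι) {A M C : DM K ι q} (f : Hom A M) (g : Hom M C) (h : Ses f g) :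
    Ses (orbMap j f) (orbMap j g) := by
  classical
  obtain ⟨h1, h2, h3⟩ := h
  refine ⟨?_, ?_, ?_⟩
  · intro s t hst
    apply Subtype.ext
    funext k
    exact h1 (congrFun (congrArg Subtype.val hst) k)
  · intro s
    constructor
    · intro hs
      have : ∀ k, ∃ a, f.f a = s.1 k := fun k => (h2 _).mp (congrFun (congrArg Subtype.val hs) k)
      choose t ht using this
      refine ⟨⟨t, ?_⟩, Subtype.ext (funext ht)⟩
      obtain ⟨n, hn⟩ := s.2
      refine ⟨n, fun k hk => ?_⟩
      apply h1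
      rw [ht, hn k hk, map_zero]
    · rintro ⟨t, rfl⟩
      apply Subtype.ext
      funext k
      exact (h2 _).mpr ⟨_, rfl⟩
  · intro s
    have : ∀ k, ∃ a, g.f a = s.1 k ∧ (s.1 k = 0 → a = 0) := by
      intro k
      by_cases hk : s.1 k = 0
      · exact ⟨0, by rw [hk, map_zero], fun _ => rfl⟩
      · obtain ⟨a, ha⟩ := h3 (s.1 k)
        exact ⟨a, ha, fun h => absurd h hk⟩
    choose t ht ht0 using this
    refine ⟨⟨t, ?_⟩, Subtype.ext (funext ht)⟩
    obtain ⟨n, hn⟩ := s.2
    exact ⟨n, fun k hk => ht0 k (hn k hk)⟩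

theorem ses_fixL (L : List ι) : ∀ {A M C : DM K ι q} (f : Hom A M) (g : Hom M C), Ses f g →
    Ses (fixLMap L f) (fixLMap L g) := by
  induction L with
  | nil => intro A M C f g h; exact h
  | cons j L ih => intro A M C f g h; exact ih _ _ (ses_fix j f g h)

theorem ses_orbL (L : List ι) : ∀ {A M C : DM K ι q} (f : Hom A M) (g : Hom M C), Ses f g →
    Ses (orbLMap L f) (orbLMap L g) := by
  induction L with
  | nil => intro A M C f g h; exact h
  | cons j L ih => intro A M C f g h; exact ih _ _ (ses_orb j f g h)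

theorem qiso_orbL (hQ : S_QI) (L : List ι) : ∀ {M N : DM K ι q} (f : Hom M N), QIso f →
    QIso (orbLMap L f) := by
  induction L with
  | nil => intro M N f h; exact h
  | cons j L ih => intro M N f h; exact ih _ (hQ K ι q M N f j h).2

theorem qiso_fixL (hQ : S_QI) (L : List ι) : ∀ {M N : DM K ι q} (f : Hom M N), QIso f →
    QIso (fixLMap L f) := by
  induction L with
  | nil => intro M N f h; exact h
  | cons j L ih => intro M N f h; exact ih _ (hQ K ι q M N f j h).1

/-! ### Zero objects -/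

theorem zero_orbL (L : List ι) : ∀ (M : DM K ι q), (∀ v : M.V, v = 0) →
    ∀ v : (orbL L M).V, v = 0 := by
  induction L with
  | nil => intro M h; exact h
  | cons j L ih =>
    intro M h
    exact ih _ fun s => Subtype.ext (funext fun k => h _)

theorem zero_fixL (L : List ι) : ∀ (M : DM K ι q), (∀ v : M.V, v = 0) →
    ∀ v : (fixL L M).V, v = 0 := by
  induction L with
  | nil => intro M h; exact h
  | cons j L ih =>
    intro M h
    exact ih _ fun s => funext fun k => h _

theorem qiso_zero {M N : DM K ι q} (f : Hom M N) (hM : ∀ v : M.V, v = 0) (hN : ∀ v : N.V, v = 0) :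
    QIso f :=
  ⟨fun v _ _ => ⟨0, by rw [map_zero, hM v]⟩, fun w _ => ⟨0, 0, map_zero _, by rw [hN w]; simp⟩⟩

/-! ### Free objects with zero differential -/

section free

variable (C : DM K ι q) (j : ι) (hd : ∀ v, C.d v = 0)
  (h1 : ∀ v, C.x j v = 0 → ∃ w, (C.x j ^ q) w = v)
  (h2 : ∀ v, (C.x j ^ q) v = 0 → ∃ w, C.x j w = v)

include h1 h2 in
theorem ker_u (k : ℕ) (v : C.V) (hv : C.u j k v = 0) : ∃ w, C.u j (k + 1) w = v := by
  unfold DM.u at hv ⊢
  rcases Nat.mod_two_eq_zero_or_one k with hk | hk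
  · rw [if_neg (by omega)] at hv
    rw [if_pos (by omega)]
    exact h2 v hv
  · rw [if_pos hk] at hv
    rw [if_neg (by omega)]
    exact h1 v hv

include h1 h2 in
theorem ker_u' (k : ℕ) (v : C.V) (hv : C.u j (k + 1) v = 0) : ∃ w, C.u j k w = v := by
  unfold DM.u at hv ⊢
  rcases Nat.mod_two_eq_zero_or_one k with hk | hk
  · rw [if_pos (by omega)] at hv
    rw [if_neg (by omega)]
    exact h1 v hv
  · rw [if_neg (by omega)] at hv
    rw [if_pos hk]
    exact h2 v hv

include hd h1 h2 in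
theorem qiso_norm : QIso (norm j C) := by
  classical
  constructor
  · intro s hs hw
    obtain ⟨w, hw⟩ := hw
    have hs' : ∀ k, C.u j (k + 1) (s.1 (k + 1)) = 0 := by
      intro k
      have h := congrFun (congrArg Subtype.val hs) k
      have h' : (-1 : K) ^ k • C.d (s.1 k) + C.u j (k + 1) (s.1 (k + 1)) = 0 := h
      rwa [hd, smul_zero, zero_add] at h'
    have hs0 : C.u j 0 (s.1 0) = 0 := by
      have h := congrFun hw 0
      have h' : C.d (w 0) = C.u j 0 (s.1 0) := h
      rw [← h', hd]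
    have hall : ∀ k, ∃ r, C.u j (k + 1) r = s.1 k ∧ (s.1 k = 0 → r = 0) := by
      intro k
      by_cases hk : s.1 k = 0
      · exact ⟨0, by rw [hk, map_zero], fun _ => rfl⟩
      · have h0 : C.u j k (s.1 k) = 0 := by
          cases k with
          | zero => exact hs0
          | succ k => exact hs' k
        obtain ⟨r, hr⟩ := ker_u C j h1 h2 k _ h0
        exact ⟨r, hr, fun h => absurd h hk⟩
    choose r hr hr0 using hall
    obtain ⟨n, hn⟩ := s.2
    refine ⟨⟨fun k => match k with
      | 0 => 0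
      | k + 1 => r k, ⟨n + 1, fun k hk => ?_⟩⟩, ?_⟩
    · cases k with
      | zero => omega
      | succ k => exact hr0 k (hn k (by omega))
    · apply Subtype.ext
      funext k
      show (-1 : K) ^ k • C.d _ + C.u j (k + 1) (r k) = s.1 k
      rw [hd, smul_zero, zero_add, hr]
  · intro t ht
    have ht' : ∀ k, C.u j (k + 1) (t k) = 0 := by
      intro k
      have h := congrFun ht (k + 1)
      have h' : (-1 : K) ^ (k + 1) • C.d (t (k + 1)) + C.u j (k + 1) (t k) = 0 := h
      rwa [hd, smul_zero, zero_add] at h'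
    have hall : ∀ k, ∃ r, C.u j k r = t k := fun k => ker_u' C j h1 h2 k _ (ht' k)
    choose r hr using hall
    refine ⟨⟨sing0 (K := K) (r 0), ⟨1, fun k hk => ?_⟩⟩, fun k => r (k + 1), ?_, ?_⟩
    · cases k with
      | zero => omega
      | succ k => rfl
    · apply Subtype.ext
      funext k
      show (-1 : K) ^ k • C.d _ + C.u j (k + 1) (sing0 (K := K) (r 0) (k + 1)) = 0
      rw [hd, smul_zero, zero_add, sing0_succ, map_zero]
    · funext k
      cases k with
      | zero =>
        show t 0 = C.u j 0 (sing0 (K := K) (r 0) 0) + C.d (r (0 + 1))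
        rw [hd, add_zero, sing0_zero, hr]
      | succ k =>
        show t (k + 1) = 0 + ((-1 : K) ^ (k + 1) • C.d (r (k + 1 + 1)) + C.u j (k + 1) (r (k + 1)))
        rw [hd, smul_zero, zero_add, zero_add, hr]

/-- The inclusion of the kernel of `x j`. -/
noncomputable def incl : Hom (C.kerx j) (Fix j C) where
  f := sing0.comp (LinearMap.ker (C.x j)).subtype
  hd v := by
    funext k
    cases k with
    | zero => rfl
    | succ k =>
      show (0 : C.V) = (-1 : K) ^ (k + 1) • C.d 0 + C.u j (k + 1) (if k = 0 then v.1 else 0)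
      rw [map_zero, smul_zero, zero_add]
      split_ifs with hk
      · subst hk
        have h := v.2
        rw [LinearMap.mem_ker] at h
        exact h.symm
      · rw [map_zero]
  hx i v := by
    funext k
    cases k with
    | zero => rfl
    | succ k => exact (map_zero (C.x i)).symm

include hd h1 h2 in
theorem qiso_incl : QIso (incl C j) := by
  constructor
  · intro v _ hw
    obtain ⟨w, hw⟩ := hw
    refine ⟨0, ?_⟩
    rw [map_zero]
    apply Subtype.ext
    have h := congrFun hw 0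
    have h' : C.d (w 0) = v.1 := h
    rw [hd] at h'
    exact h'
  · intro t ht
    have ht' : ∀ k, C.u j (k + 1) (t k) = 0 := by
      intro k
      have h := congrFun ht (k + 1)
      have h' : (-1 : K) ^ (k + 1) • C.d (t (k + 1)) + C.u j (k + 1) (t k) = 0 := h
      rwa [hd, smul_zero, zero_add] at h'
    have hall : ∀ k, ∃ r, C.u j k r = t k := fun k => ker_u' C j h1 h2 k _ (ht' k)
    choose r hr using hall
    refine ⟨⟨t 0, ht' 0⟩, fun k => r (k + 1), Subtype.ext (hd _), ?_⟩
    funext k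
    cases k with
    | zero =>
      show t 0 = sing0 (K := K) (t 0) 0 + C.d (r (0 + 1))
      rw [hd, add_zero, sing0_zero]
    | succ k =>
      show t (k + 1) = 0 + ((-1 : K) ^ (k + 1) • C.d (r (k + 1 + 1)) + C.u j (k + 1) (r (k + 1)))
      rw [hd, smul_zero, zero_add, zero_add, hr]

end free

theorem qiso_free (hQ : S_QI) (L : List ι) : ∀ (C : DM K ι q), (∀ v, C.d v = 0) → FreeOver L C →
    QIso (nu L C) := by
  induction L with
  | nil => intro C _ _; exact qiso_id _
  | cons j L ih =>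
    intro C hd hF
    obtain ⟨h1, h2, h3⟩ := hF
    have e1 : QIso (orbLMap L (norm j C)) := qiso_orbL hQ L _ (qiso_norm C j hd h1 h2)
    have e2 : QIso (incl C j) := qiso_incl C j hd h1 h2
    have e3 : QIso (nu L (C.kerx j)) := ih _ (fun v => Subtype.ext (hd _)) h3
    have e4 : QIso ((nu L (Fix j C)).comp (orbLMap L (incl C j))) := by
      rw [nu_nat]
      exact qiso_comp _ _ (qiso_fixL hQ L _ e2) e3
    have e5 := qiso_right _ _ (qiso_orbL hQ L _ e2) e4
    exact qiso_comp _ _ e5 e1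

end FR

open FR in
theorem fr_proof (hQ : S_QI) : S_FR := by
  intro K _ ι q L M hM
  induction hM with
  | zero M h => exact qiso_zero _ (zero_orbL L M h) (zero_fixL L M h)
  | ext A M C f g hf hfg hg hd hF hA ih =>
    have hs : Ses f g := ⟨hf, hfg, hg⟩
    refine ext_proof K ι q _ _ _ _ _ _ (orbLMap L f) (orbLMap L g) (fixLMap L f) (fixLMap L g)
      (nu L A) (nu L M) (nu L C) (ses_orbL L f g hs) (ses_fixL L f g hs) ?_ ?_ ih
      (qiso_free hQ L C hd hF)
    · intro v
      exact congrArg (fun F : Hom _ _ => F.f v) (nu_nat L f)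
    · intro v
      exact congrArg (fun F : Hom _ _ => F.f v) (nu_nat L g)

end Pool.Agent.P8H83.ZL
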