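import Pool.Agent.P8H83.ZL.Stm

/-!
# Package GEN: generic matrices exist over infinite fields (helper72)
-/

set_option autoImplicit false

namespace Pool.Agent.P8H83.ZL

open Module

theorem gen_proof : S_GEN := by
  intro p hp K _ _ _ t r
  classical
  haveI : Fact p.Prime := ⟨hp⟩
  let G : Matrix (Fin t) (Fin r) (MvPolynomial (Fin t × Fin r) K) :=
    fun i j => MvPolynomial.X (i, j)
  let H : Matrix (Fin r) (Fin t) (ZMod p) → Matrix (Fin r) (Fin t) (MvPolynomial (Fin t × Fin r) K) :=
    fun C => C.map (fun c => MvPolynomial.C (ZMod.castHom (dvd_refl p) K c))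
  let P : Matrix (Fin r) (Fin t) (ZMod p) → MvPolynomial (Fin t × Fin r) K := fun C =>
    (G * H C).det
  have hP : ∀ (A : Matrix (Fin t) (Fin r) K) (C : Matrix (Fin r) (Fin t) (ZMod p)),
      MvPolynomial.eval (fun ij : Fin t × Fin r => A ij.1 ij.2) (P C) =
        (A * C.map (ZMod.castHom (dvd_refl p) K)).det := by
    intro A C
    show MvPolynomial.eval _ (Matrix.det _) = _
    rw [RingHom.map_det]
    congr 1
    ext i j
    show MvPolynomial.eval _ ((G * H C) i j) = _
    rw [Matrix.mul_apply, Matrix.mul_apply, map_sum]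
    apply Finset.sum_congr rfl
    intro x _
    rw [map_mul, Matrix.map_apply]
    show MvPolynomial.eval _ (MvPolynomial.X (i, x)) * MvPolynomial.eval _ (MvPolynomial.C _) = _
    rw [MvPolynomial.eval_X, MvPolynomial.eval_C]
  have hne : ∀ C : Matrix (Fin r) (Fin t) (ZMod p),
      (∃ X : Matrix (Fin t) (Fin r) (ZMod p), X * C = 1) → P C ≠ 0 := by
    rintro C ⟨X, hX⟩ h0
    have h1 := hP (X.map (ZMod.castHom (dvd_refl p) K)) C
    rw [h0, map_zero, ← Matrix.map_mul, hX, Matrix.map_one _ (map_zero _) (map_one _),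
      Matrix.det_one] at h1
    exact zero_ne_one h1
  let S : Finset (Matrix (Fin r) (Fin t) (ZMod p)) :=
    Finset.univ.filter (fun C => ∃ X : Matrix (Fin t) (Fin r) (ZMod p), X * C = 1)
  have hS : ∏ C ∈ S, P C ≠ 0 :=
    Finset.prod_ne_zero_iff.2 (fun C hC => hne C (Finset.mem_filter.1 hC).2)
  have hex : ∃ a : Fin t × Fin r → K, MvPolynomial.eval a (∏ C ∈ S, P C) ≠ 0 := by
    by_contra hcon
    push Not at hcon
    exact hS (MvPolynomial.funext (fun a => by rw [hcon a, map_zero]))
  obtain ⟨a, ha⟩ := hex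
  refine ⟨fun i j => a (i, j), ?_⟩
  intro C hC h0
  apply ha
  rw [map_prod]
  apply Finset.prod_eq_zero (i := C) (Finset.mem_filter.2 ⟨Finset.mem_univ _, hC⟩)
  have h2 := hP (fun i j => a (i, j)) C
  rw [h0] at h2
  exact h2

end Pool.Agent.P8H83.ZL
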