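import Pool.Agent.P8H83.ZL.QI

/-!
# Package GH: the ghost lemma
-/

set_option autoImplicit false

namespace Pool.Agent.P8H83.ZL

namespace GH

variable {K : Type} [Field K] {ι : Type} {q : ℕ}

theorem hom_ext {M N : DM K ι q} {f g : Hom M N} (h : ∀ v, f.f v = g.f v) : f = g := by
  cases f; cases g
  congr
  exact LinearMap.ext h

theorem fixMap_comp (j : ι) {L M N : DM K ι q} (g : Hom M N) (f : Hom L M) :
    fixMap j (g.comp f) = (fixMap j g).comp (fixMap j f) := rfl

theorem orbMap_comp (j : ι) {L M N : DM K ι q} (g : Hom M N) (f : Hom L M) :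
    orbMap j (g.comp f) = (orbMap j g).comp (orbMap j f) := rfl

theorem fixLMap_comp (L : List ι) : ∀ {A M N : DM K ι q} (g : Hom M N) (f : Hom A M),
    fixLMap L (g.comp f) = (fixLMap L g).comp (fixLMap L f) := by
  induction L with
  | nil => intro A M N g f; rfl
  | cons j L ih =>
    intro A M N g f
    show fixLMap L (fixMap j (g.comp f)) = _
    rw [fixMap_comp, ih]
    rfl

theorem orbLMap_comp (L : List ι) : ∀ {A M N : DM K ι q} (g : Hom M N) (f : Hom A M),
    orbLMap L (g.comp f) = (orbLMap L g).comp (orbLMap L f) := by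
  induction L with
  | nil => intro A M N g f; rfl
  | cons j L ih =>
    intro A M N g f
    show orbLMap L (orbMap j (g.comp f)) = _
    rw [orbMap_comp, ih]
    rfl

theorem norm_nat (j : ι) {M N : DM K ι q} (f : Hom M N) :
    (fixMap j f).comp (norm j M) = (norm j N).comp (orbMap j f) := by
  apply hom_ext
  intro s
  funext k
  cases k with
  | zero => exact f.hu j 0 _
  | succ k => exact map_zero f.f

/-- Naturality of the iterated norm. -/
theorem nu_nat (L : List ι) : ∀ {M N : DM K ι q} (f : Hom M N),
    (fixLMap L f).comp (nu L M) = (nu L N).comp (orbLMap L f) := by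
  induction L with
  | nil => intro M N f; rfl
  | cons j L ih =>
    intro M N f
    have h1 : (fixLMap (j :: L) f).comp (nu (j :: L) M) =
        ((fixLMap L (fixMap j f)).comp (nu L (Fix j M))).comp (orbLMap L (norm j M)) := rfl
    have h2 : (nu (j :: L) N).comp (orbLMap (j :: L) f) =
        (nu L (Fix j N)).comp ((orbLMap L (norm j N)).comp (orbLMap L (orbMap j f))) := rfl
    have h3 : ((nu L (Fix j N)).comp (orbLMap L (fixMap j f))).comp (orbLMap L (norm j M)) =
        (nu L (Fix j N)).comp ((orbLMap L (fixMap j f)).comp (orbLMap L (norm j M))) := rfl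
    rw [h1, h2, ih (fixMap j f), h3, ← orbLMap_comp, ← orbLMap_comp, norm_nat]

theorem nu_nat_apply (L : List ι) {M N : DM K ι q} (f : Hom M N) (z : (orbL L M).V) :
    (nu L N).f ((orbLMap L f).f z) = (fixLMap L f).f ((nu L M).f z) :=
  (congrArg (fun h : Hom (orbL L M) (fixL L N) => h.f z) (nu_nat L f)).symm

theorem qiso_orbL (L : List ι) : ∀ {M N : DM K ι q} (f : Hom M N), QIso f →
    QIso (orbLMap L f) := by
  induction L with
  | nil => intro M N f h; exact h
  | cons j L ih =>
    intro M N f h
    exact ih (orbMap j f) (QI.qiso_orb f j h)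

theorem qiso_fixL (L : List ι) : ∀ {M N : DM K ι q} (f : Hom M N), QIso f →
    QIso (fixLMap L f) := by
  induction L with
  | nil => intro M N f h; exact h
  | cons j L ih =>
    intro M N f h
    exact ih (fixMap j f) (QI.qiso_fix f j h)

theorem acyc_orbL (L : List ι) : ∀ {M : DM K ι q}, Acyc M → Acyc (orbL L M) := by
  induction L with
  | nil => intro M h; exact h
  | cons j L ih =>
    intro M h
    exact ih (QI.acyc_orb h j)

theorem level_fix (j : ι) {c : ℕ} {M : DM K ι q} (h : Level c M) : Level c (Fix j M) := by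
  induction h with
  | zero M h => exact Level.zero _ (fun s => funext fun k => h (s k))
  | mono c M _ ih => exact Level.mono c _ ih
  | qiso c A M f hf _ ih => exact Level.qiso c _ _ (fixMap j f) (QI.qiso_fix f j hf) ih
  | triv c A M f hinj hx _ ih =>
    refine Level.triv c _ _ (fixMap j f) ?_ ?_ ih
    · intro s t hst
      funext k
      exact hinj (congrFun hst k)
    · intro i s
      choose a ha using fun k => hx i (s k)
      exact ⟨a, funext ha⟩

theorem acyc_of_qiso {A M : DM K ι q} (f : Hom A M) (hf : QIso f) (hA : Acyc A) : Acyc M := by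
  intro w hw
  obtain ⟨v, u, hv, rfl⟩ := hf.2 w hw
  obtain ⟨a, rfl⟩ := hA v hv
  exact ⟨f.f a + u, by rw [map_add, f.hd]⟩

theorem acyc_of_level {c : ℕ} {M : DM K ι q} (h : Level c M) (hc : c = 0) : Acyc M := by
  induction h with
  | zero M h => intro v _; exact ⟨0, by rw [map_zero, h v]⟩
  | mono c M _ _ => exact absurd hc (Nat.succ_ne_zero c)
  | qiso c A M f hf _ ih => exact acyc_of_qiso f hf (ih hc)
  | triv c A M f _ _ _ _ => exact absurd hc (Nat.succ_ne_zero c)

/-- Factorization through an injective morphism. -/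
theorem factor {P Q N : DM K ι q} (g : Hom P N) (hg : Function.Injective g.f) (h : Hom Q N)
    (hr : ∀ v, ∃ a, g.f a = h.f v) : ∃ φ : Hom Q P, g.comp φ = h := by
  let e := LinearEquiv.ofInjective g.f hg
  let h' : Q.V →ₗ[K] LinearMap.range g.f := h.f.codRestrict _ (fun v => hr v)
  let φ : Q.V →ₗ[K] P.V := e.symm.toLinearMap.comp h'
  have key : ∀ v, g.f (φ v) = h.f v := by
    intro v
    have h1 : e (φ v) = h' v := e.apply_symm_apply _
    exact congrArg Subtype.val h1
  refine ⟨⟨φ, fun v => hg ?_, fun i v => hg ?_⟩, hom_ext key⟩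
  · rw [key, h.hd, g.hd, key]
  · rw [key, h.hx, g.hx, key]

theorem ghost (hq : 1 ≤ q) (L : List ι) : ∀ (c : ℕ) (M : DM K ι q), Level c M → c ≤ L.length →
    ZeroH (nu L M) := by
  induction L with
  | nil =>
    intro c M h hc
    exact acyc_of_level h (Nat.le_zero.1 hc)
  | cons j L ih =>
    intro c M h hc
    induction h with
    | zero M h =>
      intro v hv
      have hA : Acyc M := fun v _ => ⟨0, by rw [map_zero, h v]⟩
      obtain ⟨w, rfl⟩ := acyc_orbL (j :: L) hA v hv
      exact ⟨(nu (j :: L) M).f w, ((nu (j :: L) M).hd w).symm⟩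
    | mono c M _ ih2 => exact ih2 (by omega)
    | qiso c A M f hf _ ih2 =>
      intro z hz
      obtain ⟨v, u, hv, rfl⟩ := (qiso_orbL (j :: L) f hf).2 z hz
      obtain ⟨w, hw⟩ := ih2 hc v hv
      refine ⟨(fixLMap (j :: L) f).f w + (nu (j :: L) M).f u, ?_⟩
      rw [map_add, map_add, nu_nat_apply, ← hw, Hom.hd, Hom.hd]
    | triv c A M f hinj hx hA _ =>
      have hc' : c ≤ L.length := by
        rw [List.length_cons] at hc
        omega
      obtain ⟨φ, hφ⟩ := factor (fixMap j f) (fun s t hst => funext fun k => hinj (congrFun hst k))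
        (norm j M) (by
          intro s
          obtain ⟨a, ha⟩ := hx j ((M.x j ^ (q - 1)) (s.1 0))
          refine ⟨sing0 (K := K) a, ?_⟩
          funext k
          cases k with
          | zero =>
            show f.f a = M.u j 0 (s.1 0)
            rw [ha, ← Module.End.mul_apply, ← pow_succ', Nat.sub_add_cancel hq]
            rfl
          | succ k => exact map_zero f.f)
      intro z hz
      have hz' : (orbL L (Fix j A)).d ((orbLMap L φ).f z) = 0 := by
        have h5 := (orbLMap L φ).hd z
        have h6 : (orbL L (Orb j M)).d z = 0 := hz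
        rw [h6, map_zero] at h5
        exact h5.symm
      obtain ⟨w, hw⟩ := ih c (Fix j A) (level_fix j hA) hc' _ hz'
      refine ⟨(fixLMap L (fixMap j f)).f w, ?_⟩
      have h7 : (nu (j :: L) M).f z = (nu L (Fix j M)).f ((orbLMap L (norm j M)).f z) := rfl
      have h8 : (orbLMap L (norm j M)).f z = (orbLMap L (fixMap j f)).f ((orbLMap L φ).f z) := by
        rw [← hφ, orbLMap_comp]
        rfl
      rw [h7, h8, nu_nat_apply, ← hw]
      exact (Hom.hd _ _).symm

end GH

theorem gh_proof (_ : S_QI) : S_GH := by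
  intro K _ ι q hq L c M h hc
  exact GH.ghost hq L c M h hc

end Pool.Agent.P8H83.ZL
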