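import Pool.Agent.P8H83.ZL.Stm

/-!
# Package KER: common kernel of generic shifted operators on permutation modules (helper72)
-/

set_option autoImplicit false

namespace Pool.Agent.P8H83.ZL

open Module

namespace KER

section Rep

variable {p r : ℕ} {K : Type} [Field K] {V : Type} [AddCommGroup V] [Module K V]

/-- The filtration by the powers of the augmentation ideal. -/
def Fil (ρ : EA p r →* (V →ₗ[K] V)) : ℕ → V → Prop
  | 0, v => v = 0
  | n + 1, v => ∀ g, Fil ρ n (ρ g v - v)

theorem comm (ρ : EA p r →* (V →ₗ[K] V)) (g h : EA p r) (v : V) :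
    ρ g (ρ h v) = ρ h (ρ g v) := by
  rw [← Module.End.mul_apply, ← map_mul, mul_comm, map_mul, Module.End.mul_apply]

theorem shift_apply (ρ : EA p r →* (V →ₗ[K] V)) (a : Fin r → K) (v : V) :
    shift ρ a v = ∑ i, a i • (ρ (EA.gen i) v - v) := by
  unfold shift
  rw [LinearMap.sum_apply]
  rfl

theorem shift_comm (ρ : EA p r →* (V →ₗ[K] V)) (a : Fin r → K) (g : EA p r) (v : V) :
    shift ρ a (ρ g v) = ρ g (shift ρ a v) := by
  rw [shift_apply, shift_apply, map_sum]
  apply Finset.sum_congr rfl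
  intro i _
  rw [map_smul, map_sub, comm ρ (EA.gen i) g v]

theorem nil [CharP K p] (hp : p.Prime) (ρ : EA p r →* (V →ₗ[K] V)) : ∃ n, ∀ v, Fil ρ n v := by
  classical
  have : Fact p.Prime := ⟨hp⟩
  have : NeZero p := ⟨hp.ne_zero⟩
  let R := MonoidAlgebra K (EA p r)
  let z : EA p r → R := fun g => MonoidAlgebra.of K (EA p r) g - 1
  let I : Ideal R := Ideal.span (Set.range z)
  have hfg : I.FG := ⟨(Set.finite_range z).toFinset, by
    rw [Set.Finite.coe_toFinset]⟩
  have hch : CharP R p := by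
    exact charP_of_injective_algebraMap (algebraMap K R).injective p
  have hnil : I ≤ nilradical R := by
    rw [Ideal.span_le]
    rintro _ ⟨g, rfl⟩
    rw [SetLike.mem_coe, mem_nilradical]
    refine ⟨p, ?_⟩
    show (MonoidAlgebra.of K (EA p r) g - 1) ^ p = 0
    rw [sub_pow_char, one_pow, ← map_pow]
    have : g ^ p = 1 := by
      apply Multiplicative.toAdd.injective
      rw [toAdd_pow, toAdd_one]
      funext i
      simp
    rw [this, map_one, sub_self]
  obtain ⟨n, hn⟩ := (Ideal.FG.isNilpotent_iff_le_nilradical hfg).2 hnil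
  refine ⟨n, fun v => ?_⟩
  let Φ : R →ₐ[K] (V →ₗ[K] V) := MonoidAlgebra.lift K (V →ₗ[K] V) (EA p r) ρ
  have key : ∀ (k : ℕ) (v : V), (∀ a ∈ I ^ k, Φ a v = 0) → Fil ρ k v := by
    intro k
    induction k with
    | zero =>
      intro v hv
      have h1 := hv 1 (by rw [pow_zero, Ideal.one_eq_top]; exact Submodule.mem_top)
      rw [map_one] at h1
      exact h1
    | succ k ih =>
      intro v hv g
      apply ih
      intro a ha
      have h1 : Φ (z g) v = ρ g v - v := by
        show Φ (MonoidAlgebra.of K (EA p r) g - 1) v = _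
        rw [map_sub, map_one, LinearMap.sub_apply]
        show MonoidAlgebra.lift K (V →ₗ[K] V) (EA p r) ρ (MonoidAlgebra.of K (EA p r) g) v - v = _
        rw [MonoidAlgebra.lift_of]
      rw [← h1, ← Module.End.mul_apply, ← map_mul]
      apply hv
      rw [pow_succ]
      exact Ideal.mul_mem_mul ha (Ideal.subset_span ⟨g, rfl⟩)
  apply key
  intro a ha
  rw [hn] at ha
  have : a = 0 := ha
  rw [this, map_zero]
  rfl

theorem core [CharP K p] (hp : p.Prime) (t : ℕ) (A : Matrix (Fin t) (Fin r) K)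
    (hA : Generic p K A) (π : (Fin r → ZMod p) →ₗ[ZMod p] (Fin t → ZMod p))
    (hπ : Function.Surjective π) (ρ : EA p r →* (V →ₗ[K] V)) (y : V)
    (hy : ∀ g h, ρ g (ρ h y - y) = ρ h y - y)
    (hu : ∀ j, shift ρ (A j) y = 0)
    (hq : ∀ v, π v = 0 → ρ (Multiplicative.ofAdd v) y = y) : ∀ g, ρ g y = y := by
  classical
  have : Fact p.Prime := ⟨hp⟩
  let φ : ZMod p →+* K := ZMod.castHom (dvd_refl p) K
  letI : Module (ZMod p) V := Module.compHom V φ
  have hsm : ∀ (c : ZMod p) (v : V), c • v = φ c • v := fun _ _ => rfl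
  let θ₀ : (Fin r → ZMod p) →+ V :=
    { toFun := fun v => ρ (Multiplicative.ofAdd v) y - y
      map_zero' := by
        rw [ofAdd_zero, map_one]
        exact sub_self y
      map_add' := by
        intro v w
        rw [ofAdd_add, map_mul, Module.End.mul_apply]
        have := hy (Multiplicative.ofAdd v) (Multiplicative.ofAdd w)
        rw [map_sub] at this
        rw [sub_eq_iff_eq_add] at this
        rw [this]
        abel }
  let θ : (Fin r → ZMod p) →ₗ[ZMod p] V := AddMonoidHom.toZModLinearMap p θ₀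
  have hθ : ∀ v, θ v = ρ (Multiplicative.ofAdd v) y - y := fun _ => rfl
  obtain ⟨σ, hσ⟩ := LinearMap.exists_rightInverse_of_surjective π (LinearMap.range_eq_top.2 hπ)
  have hσ' : ∀ w, π (σ w) = w := fun w => LinearMap.congr_fun hσ w
  let C : Matrix (Fin r) (Fin t) (ZMod p) := fun i l => π (Pi.single i 1) l
  let X : Matrix (Fin t) (Fin r) (ZMod p) := fun l i => σ (Pi.single l 1) i
  have hexp : ∀ (v : Fin r → ZMod p), v = ∑ i, v i • (Pi.single i 1 : Fin r → ZMod p) := by
    intro v
    funext k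
    rw [Finset.sum_apply]
    simp [Pi.single_apply]
  have hexpt : ∀ (v : Fin t → ZMod p), v = ∑ i, v i • (Pi.single i 1 : Fin t → ZMod p) := by
    intro v
    funext k
    rw [Finset.sum_apply]
    simp [Pi.single_apply]
  have hXC : X * C = 1 := by
    ext l l'
    rw [Matrix.mul_apply]
    have h1 : π (σ (Pi.single l 1)) l' = ∑ i, σ (Pi.single l 1) i * π (Pi.single i 1) l' := by
      conv_lhs => rw [hexp (σ (Pi.single l 1)), map_sum, Finset.sum_apply]
      apply Finset.sum_congr rfl
      intro i _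
      rw [map_smul]
      rfl
    show ∑ i, σ (Pi.single l 1) i * π (Pi.single i 1) l' = _
    rw [← h1, hσ', Pi.single_apply, Matrix.one_apply]
    simp only [eq_comm]
  let m : Fin t → V := fun l => θ (σ (Pi.single l 1))
  have hm : ∀ v, θ v = ∑ l, φ (π v l) • m l := by
    intro v
    have h1 : θ v = θ (σ (π v)) := by
      rw [← sub_eq_zero, ← map_sub, hθ, hq, sub_self]
      rw [map_sub, hσ', sub_self]
    rw [h1]
    conv_lhs => rw [hexpt (π v), map_sum, map_sum]
    apply Finset.sum_congr rfl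
    intro l _
    rw [map_smul, map_smul, hsm]
  have hdet := hA C ⟨X, hXC⟩
  obtain ⟨B, hB⟩ : ∃ B, B * (A * C.map φ) = 1 := by
    refine ⟨(A * C.map φ)⁻¹, ?_⟩
    exact Matrix.nonsing_inv_mul _ (isUnit_iff_ne_zero.2 hdet)
  have hz : ∀ j, ∑ l, (A * C.map φ) j l • m l = 0 := by
    intro j
    have h1 := hu j
    rw [shift_apply] at h1
    rw [← h1]
    have h2 : ∀ i, ρ (EA.gen i) y - y = ∑ l, φ (C i l) • m l := fun i => hm (Pi.single i 1)
    calc ∑ l, (A * C.map φ) j l • m l = ∑ l, ∑ i, (A j i * φ (C i l)) • m l := by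
          apply Finset.sum_congr rfl
          intro l _
          rw [Matrix.mul_apply, Finset.sum_smul]
          rfl
      _ = ∑ i, ∑ l, (A j i * φ (C i l)) • m l := Finset.sum_comm
      _ = ∑ i, A j i • (ρ (EA.gen i) y - y) := by
          apply Finset.sum_congr rfl
          intro i _
          rw [h2, Finset.smul_sum]
          apply Finset.sum_congr rfl
          intro l _
          rw [smul_smul]
  have hm0 : ∀ l, m l = 0 := by
    intro l
    have h1 : ∑ j, B l j • ∑ l', (A * C.map φ) j l' • m l' = 0 := by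
      apply Finset.sum_eq_zero
      intro j _
      rw [hz, smul_zero]
    have h2 : ∑ j, B l j • ∑ l', (A * C.map φ) j l' • m l' =
        ∑ l', (B * (A * C.map φ)) l l' • m l' := by
      calc ∑ j, B l j • ∑ l', (A * C.map φ) j l' • m l' =
          ∑ j, ∑ l', (B l j * (A * C.map φ) j l') • m l' := by
            apply Finset.sum_congr rfl
            intro j _
            rw [Finset.smul_sum]
            apply Finset.sum_congr rfl
            intro l' _
            rw [smul_smul]
        _ = ∑ l', ∑ j, (B l j * (A * C.map φ) j l') • m l' := Finset.sum_comm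
        _ = _ := by
            apply Finset.sum_congr rfl
            intro l' _
            rw [Matrix.mul_apply, Finset.sum_smul]
    rw [h2, hB] at h1
    simpa [Matrix.one_apply] using h1
  intro g
  have h1 := hm (Multiplicative.toAdd g)
  rw [hθ, ofAdd_toAdd] at h1
  rw [← sub_eq_zero, h1]
  apply Finset.sum_eq_zero
  intro l _
  rw [hm0, smul_zero]

/-- An element killed by the shifted operators and fixed by the kernel of `π` is fixed. -/
theorem fixed [CharP K p] (hp : p.Prime) (t : ℕ) (A : Matrix (Fin t) (Fin r) K)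
    (hA : Generic p K A) (π : (Fin r → ZMod p) →ₗ[ZMod p] (Fin t → ZMod p))
    (hπ : Function.Surjective π) (ρ : EA p r →* (V →ₗ[K] V)) (y : V)
    (hu : ∀ j, shift ρ (A j) y = 0)
    (hq : ∀ v, π v = 0 → ρ (Multiplicative.ofAdd v) y = y) : ∀ g, ρ g y = y := by
  obtain ⟨n, hn⟩ := nil hp ρ
  have key : ∀ (n : ℕ) (y : V), Fil ρ n y → (∀ j, shift ρ (A j) y = 0) →
      (∀ v, π v = 0 → ρ (Multiplicative.ofAdd v) y = y) → ∀ g, ρ g y = y := by
    intro n
    induction n with
    | zero =>
      intro y hy _ _ g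
      have : y = 0 := hy
      rw [this, map_zero]
    | succ n ih =>
      intro y hy hu hq
      apply core hp t A hA π hπ ρ y _ hu hq
      intro g h
      apply ih (ρ h y - y) (hy h)
      · intro j
        rw [map_sub, shift_comm, hu j, map_zero, sub_zero]
      · intro v hv
        rw [map_sub, comm, hq v hv]
  exact key n y (hn y) hu hq

/-- The descent: a stable space of elements, killed by the shifted operators, in which only zero
is fixed, is zero. -/
theorem descent [CharP K p] (hp : p.Prime) (t : ℕ) (A : Matrix (Fin t) (Fin r) K)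
    (hA : Generic p K A) (π : (Fin r → ZMod p) →ₗ[ZMod p] (Fin t → ZMod p))
    (hπ : Function.Surjective π) (ρ : EA p r →* (V →ₗ[K] V)) (S : Submodule K V)
    (hS : ∀ v, π v = 0 → ∀ y ∈ S, ρ (Multiplicative.ofAdd v) y ∈ S)
    (hu : ∀ j, ∀ y ∈ S, shift ρ (A j) y = 0)
    (h0 : ∀ y ∈ S, (∀ g, ρ g y = y) → y = 0) : ∀ y ∈ S, y = 0 := by
  obtain ⟨n, hn⟩ := nil hp ρ
  have key : ∀ (n : ℕ) (y : V), Fil ρ n y → y ∈ S → y = 0 := by
    intro n
    induction n with
    | zero =>
      intro y hy _
      exact hy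
    | succ n ih =>
      intro y hy hyS
      apply h0 y hyS
      apply fixed hp t A hA π hπ ρ y (fun j => hu j y hyS)
      intro v hv
      have h1 := ih (ρ (Multiplicative.ofAdd v) y - y) (hy _) (S.sub_mem (hS v hv y hyS) hyS)
      exact sub_eq_zero.1 h1
  exact fun y hy => key n y (hn y) hy

end Rep

theorem inv_app {X : Type} (σ : Equiv.Perm X) (x : X) : (σ⁻¹ : Equiv.Perm X) (σ x) = x :=
  Equiv.symm_apply_apply σ x

section Perm

variable {p r : ℕ} {K : Type} [Field K] [CharP K p] {X : Type} [Finite X]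

/-- The common kernel. -/
noncomputable def W (K : Type) [Field K] {p r t : ℕ} {X : Type} (A : Matrix (Fin t) (Fin r) K)
    (φ : EA p r →* Equiv.Perm X) : Submodule K (X → K) :=
  ⨅ j, LinearMap.ker (shift (permR K φ) (A j))

theorem mem_W {t : ℕ} (A : Matrix (Fin t) (Fin r) K) (φ : EA p r →* Equiv.Perm X) (f : X → K) :
    f ∈ W K A φ ↔ ∀ j, shift (permR K φ) (A j) f = 0 := by
  unfold W
  rw [Submodule.mem_iInf]
  rfl

theorem exists_pi (hp : p.Prime) (t s : ℕ) (hst : s + t ≤ r) (φ : EA p r →* Equiv.Perm X)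
    (x₀ : X) (hx : Nat.card {g : EA p r // φ g x₀ = x₀} ≤ p ^ s) :
    ∃ π : (Fin r → ZMod p) →ₗ[ZMod p] (Fin t → ZMod p), Function.Surjective π ∧
      ∀ g, φ g x₀ = x₀ → π (Multiplicative.toAdd g) = 0 := by
  classical
  have : Fact p.Prime := ⟨hp⟩
  let Q₀ : AddSubgroup (Fin r → ZMod p) :=
    { carrier := {v | φ (Multiplicative.ofAdd v) x₀ = x₀}
      zero_mem' := by
        show φ (Multiplicative.ofAdd 0) x₀ = x₀
        rw [ofAdd_zero, map_one]
        rfl
      add_mem' := by
        intro v w hv hw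
        show φ (Multiplicative.ofAdd (v + w)) x₀ = x₀
        rw [ofAdd_add, map_mul, Equiv.Perm.mul_apply]
        have h1 : φ (Multiplicative.ofAdd w) x₀ = x₀ := hw
        have h2 : φ (Multiplicative.ofAdd v) x₀ = x₀ := hv
        rw [h1, h2]
      neg_mem' := by
        intro v hv
        show φ (Multiplicative.ofAdd (-v)) x₀ = x₀
        rw [ofAdd_neg, map_inv, Equiv.Perm.inv_eq_iff_eq]
        exact (show φ (Multiplicative.ofAdd v) x₀ = x₀ from hv).symm }
  let Q : Submodule (ZMod p) (Fin r → ZMod p) := AddSubgroup.toZModSubmodule p Q₀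
  have hQ : ∀ v, v ∈ Q ↔ φ (Multiplicative.ofAdd v) x₀ = x₀ := fun v => Iff.rfl
  have hcard : Nat.card Q = Nat.card {g : EA p r // φ g x₀ = x₀} := by
    apply Nat.card_congr
    exact ⟨fun v => ⟨Multiplicative.ofAdd v.1, v.2⟩, fun g => ⟨Multiplicative.toAdd g.1, g.2⟩,
      fun v => rfl, fun g => rfl⟩
  have hfr : finrank (ZMod p) Q ≤ s := by
    have h1 : Nat.card Q = Nat.card (ZMod p) ^ finrank (ZMod p) Q := Module.natCard_eq_pow_finrank
    rw [hcard, Nat.card_zmod] at h1
    rw [h1] at hx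
    exact (Nat.pow_le_pow_iff_right hp.one_lt).1 hx
  have hfq : t ≤ finrank (ZMod p) ((Fin r → ZMod p) ⧸ Q) := by
    have h1 := Submodule.finrank_quotient_add_finrank Q
    rw [Module.finrank_fin_fun] at h1
    omega
  let b := Module.finBasis (ZMod p) ((Fin r → ZMod p) ⧸ Q)
  let e : ((Fin r → ZMod p) ⧸ Q) ≃ₗ[ZMod p] (Fin (finrank (ZMod p) ((Fin r → ZMod p) ⧸ Q)) → ZMod p) :=
    b.equivFun
  let c : (Fin (finrank (ZMod p) ((Fin r → ZMod p) ⧸ Q)) → ZMod p) →ₗ[ZMod p] (Fin t → ZMod p) :=
    LinearMap.funLeft (ZMod p) (ZMod p) (Fin.castLE hfq)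
  refine ⟨c.comp (e.toLinearMap.comp Q.mkQ), ?_, ?_⟩
  · have h1 : Function.Surjective c :=
      LinearMap.funLeft_surjective_of_injective _ _ _ (Fin.castLE_injective hfq)
    intro w
    obtain ⟨w', rfl⟩ := h1 w
    obtain ⟨v, hv⟩ := Q.mkQ_surjective (e.symm w')
    refine ⟨v, ?_⟩
    show c (e (Q.mkQ v)) = c w'
    rw [hv, LinearEquiv.apply_symm_apply]
  · intro g hg
    show c (e (Q.mkQ (Multiplicative.toAdd g))) = 0
    have h1 : Q.mkQ (Multiplicative.toAdd g) = 0 := by
      rw [Submodule.mkQ_apply, Submodule.Quotient.mk_eq_zero, hQ]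
      exact hg
    rw [h1, map_zero, map_zero]

/-- The transitive case. -/
theorem orbit (hp : p.Prime) (t s : ℕ) (A : Matrix (Fin t) (Fin r) K)
    (hA : Generic p K A) (hst : s + t ≤ r) (φ : EA p r →* Equiv.Perm X)
    (x₀ : X) (hx : Nat.card {g : EA p r // φ g x₀ = x₀} ≤ p ^ s) :
    ∃ Y : Set X, Nat.card Y * p ^ t ≤ Nat.card {x : X | ∃ g, φ g x₀ = x} ∧
      ∀ f ∈ W K A φ, (∀ y ∈ Y, f y = 0) → ∀ g, f (φ g x₀) = 0 := by
  classical
  have : Fact p.Prime := ⟨hp⟩
  obtain ⟨π, hπ, hπ0⟩ := exists_pi hp t s hst φ x₀ hx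
  refine ⟨{x | ∃ g, π (Multiplicative.toAdd g) = 0 ∧ φ g x₀ = x}, ?_, ?_⟩
  · obtain ⟨σ, hσ⟩ := LinearMap.exists_rightInverse_of_surjective π (LinearMap.range_eq_top.2 hπ)
    have hσ' : ∀ w, π (σ w) = w := fun w => LinearMap.congr_fun hσ w
    have hc : p ^ t = Nat.card (Fin t → ZMod p) := by
      rw [Nat.card_fun, Nat.card_zmod, Nat.card_fin]
    rw [hc, ← Nat.card_prod]
    let F : ({x | ∃ g, π (Multiplicative.toAdd g) = 0 ∧ φ g x₀ = x} : Set X) × (Fin t → ZMod p) →
        ({x : X | ∃ g, φ g x₀ = x} : Set X) := fun yv =>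
      ⟨φ (Multiplicative.ofAdd (σ yv.2)) yv.1.1, by
        obtain ⟨⟨y, g, hg, hy⟩, v⟩ := yv
        refine ⟨Multiplicative.ofAdd (σ v) * g, ?_⟩
        rw [map_mul, Equiv.Perm.mul_apply]
        exact congrArg _ hy⟩
    apply Nat.card_le_card_of_injective F
    rintro ⟨⟨y, g, hg, hy⟩, v⟩ ⟨⟨y', g', hg', hy'⟩, v'⟩ h
    have h1 : φ (Multiplicative.ofAdd (σ v)) y = φ (Multiplicative.ofAdd (σ v')) y' :=
      congrArg Subtype.val h
    have h2 : φ ((Multiplicative.ofAdd (σ v') * g')⁻¹ * (Multiplicative.ofAdd (σ v) * g)) x₀ = x₀ := by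
      rw [map_mul, map_inv, Equiv.Perm.mul_apply, Equiv.Perm.inv_eq_iff_eq, map_mul, map_mul,
        Equiv.Perm.mul_apply, Equiv.Perm.mul_apply, hy, hy', h1]
    have h3 := hπ0 _ h2
    rw [toAdd_mul, toAdd_inv, toAdd_mul, toAdd_mul, toAdd_ofAdd, toAdd_ofAdd, map_add, map_neg,
      map_add, map_add, hσ', hσ', hg, hg', add_zero, add_zero] at h3
    have h4 : v = v' := by
      rw [neg_add_eq_zero] at h3
      exact h3.symm
    subst h4
    have h5 : y = y' := (φ (Multiplicative.ofAdd (σ v))).injective h1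
    subst h5
    rfl
  · intro f hf hfy g
    let O : Set X := {x | ∃ g, φ g x₀ = x}
    have hO : ∀ g x, φ g x ∈ O ↔ x ∈ O := by
      intro g x
      constructor
      · rintro ⟨h, hh⟩
        refine ⟨g⁻¹ * h, ?_⟩
        rw [map_mul, Equiv.Perm.mul_apply, hh, map_inv, inv_app]
      · rintro ⟨h, hh⟩
        refine ⟨g * h, ?_⟩
        rw [map_mul, Equiv.Perm.mul_apply, hh]
    -- the space
    let S : Submodule K (X → K) :=
      { carrier := {f | f ∈ W K A φ ∧ (∀ y, (∃ g, π (Multiplicative.toAdd g) = 0 ∧ φ g x₀ = y) →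
          f y = 0) ∧ ∀ y, y ∉ O → f y = 0}
        zero_mem' := ⟨Submodule.zero_mem _, fun _ _ => rfl, fun _ _ => rfl⟩
        add_mem' := by
          rintro f h ⟨f1, f2, f3⟩ ⟨h1, h2, h3⟩
          refine ⟨Submodule.add_mem _ f1 h1, fun y hy => ?_, fun y hy => ?_⟩
          · rw [Pi.add_apply, f2 y hy, h2 y hy, add_zero]
          · rw [Pi.add_apply, f3 y hy, h3 y hy, add_zero]
        smul_mem' := by
          rintro c f ⟨f1, f2, f3⟩
          refine ⟨Submodule.smul_mem _ c f1, fun y hy => ?_, fun y hy => ?_⟩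
          · rw [Pi.smul_apply, f2 y hy, smul_zero]
          · rw [Pi.smul_apply, f3 y hy, smul_zero] }
    have hcut : ∀ (h : EA p r) (f : X → K), permR K φ h (fun x => if x ∈ O then f x else 0) =
        fun x => if x ∈ O then permR K φ h f x else 0 := by
      intro h f
      funext x
      rw [permR_apply, permR_apply]
      have h1 : (φ h)⁻¹ x ∈ O ↔ x ∈ O := by
        rw [← map_inv]
        exact hO _ _
      by_cases hx : x ∈ O
      · rw [if_pos hx, if_pos (h1.2 hx)]
      · rw [if_neg hx, if_neg (fun h2 => hx (h1.1 h2))]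
    have hmem : (fun x => if x ∈ O then f x else 0) ∈ S := by
      refine ⟨?_, ?_, ?_⟩
      · rw [mem_W] at hf ⊢
        intro j
        have h1 := hf j
        rw [shift_apply] at h1 ⊢
        have h2 : ∑ i, A j i • (permR K φ (EA.gen i) (fun x => if x ∈ O then f x else 0) -
            fun x => if x ∈ O then f x else 0) =
            fun x => if x ∈ O then (∑ i, A j i • (permR K φ (EA.gen i) f - f)) x else 0 := by
          funext x
          rw [Finset.sum_apply, Finset.sum_apply]
          by_cases hx : x ∈ O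
          · rw [if_pos hx]
            apply Finset.sum_congr rfl
            intro i _
            rw [hcut, Pi.smul_apply, Pi.smul_apply, Pi.sub_apply, Pi.sub_apply, if_pos hx,
              if_pos hx]
          · rw [if_neg hx]
            apply Finset.sum_eq_zero
            intro i _
            rw [hcut, Pi.smul_apply, Pi.sub_apply, if_neg hx, if_neg hx, sub_self, smul_zero]
        rw [h2, h1]
        funext x
        split_ifs <;> rfl
      · intro y hy
        by_cases hyO : y ∈ O
        · show (if y ∈ O then f y else 0) = 0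
          rw [if_pos hyO]
          exact hfy y hy
        · exact if_neg hyO
      · intro y hy
        exact if_neg hy
    have hzero := descent hp t A hA π hπ (permR K φ) S ?_ ?_ ?_ _ hmem
    · have h1 := congrFun hzero (φ g x₀)
      have h2 : φ g x₀ ∈ O := ⟨g, rfl⟩
      have h3 : (if φ g x₀ ∈ O then f (φ g x₀) else 0) = 0 := h1
      rw [if_pos h2] at h3
      exact h3
    · rintro v hv h ⟨h1, h2, h3⟩
      refine ⟨?_, ?_, ?_⟩
      · rw [mem_W] at h1 ⊢
        intro j
        rw [shift_comm, h1 j, map_zero]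
      · rintro y ⟨g', hg', rfl⟩
        rw [permR_apply]
        apply h2
        refine ⟨(Multiplicative.ofAdd v)⁻¹ * g', ?_, ?_⟩
        · rw [toAdd_mul, toAdd_inv, toAdd_ofAdd, map_add, map_neg, hv, hg', neg_zero, add_zero]
        · rw [map_mul, map_inv, Equiv.Perm.mul_apply]
      · intro y hy
        rw [permR_apply]
        apply h3
        rw [← map_inv, hO]
        exact hy
    · rintro j y ⟨h1, -, -⟩
      exact (mem_W A φ y).1 h1 j
    · rintro y ⟨h1, h2, h3⟩ hfix
      funext x
      by_cases hx : x ∈ O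
      · obtain ⟨g', rfl⟩ := hx
        have h4 := congrFun (hfix g') (φ g' x₀)
        rw [permR_apply, inv_app] at h4
        rw [← h4]
        exact h2 x₀ ⟨1, by rw [toAdd_one, map_zero], by rw [map_one]; rfl⟩
      · exact h3 x hx

end Perm

end KER

open KER in
theorem ker_proof : S_KER := by
  intro p hp K _ _ t r s A hA hst X _ φ hx
  classical
  have : Fintype X := Fintype.ofFinite X
  have : Fact p.Prime := ⟨hp⟩
  choose Y hY1 hY2 using fun x => KER.orbit hp t s A hA hst φ x (hx x)
  letI : MulAction (EA p r) X := MulAction.compHom X φ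
  have hact : ∀ (g : EA p r) (x : X), g • x = φ g x := fun _ _ => rfl
  let Ω := MulAction.orbitRel.Quotient (EA p r) X
  have hΩ : Fintype Ω := Fintype.ofFinite Ω
  let R : W K A φ →ₗ[K] ((Σ ω : Ω, Y (Quotient.out ω)) → K) :=
    { toFun := fun f z => f.1 z.2.1
      map_add' := fun f g => rfl
      map_smul' := fun c f => rfl }
  have hR : Function.Injective R := by
    rw [← LinearMap.ker_eq_bot, LinearMap.ker_eq_bot']
    intro f hf
    apply Subtype.ext
    funext x
    have h1 := hY2 (Quotient.out (Quotient.mk'' x : Ω)) f.1 f.2 (by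
      intro y hy
      exact congrFun hf ⟨Quotient.mk'' x, ⟨y, hy⟩⟩)
    have h2 : x ∈ MulAction.orbit (EA p r) (Quotient.out (Quotient.mk'' x : Ω)) := by
      rw [← MulAction.orbitRel_apply]
      exact Quotient.exact (Quotient.out_eq (Quotient.mk'' x : Ω)).symm
    obtain ⟨g, hg⟩ := h2
    have h3 := h1 g
    have h4 : φ g (Quotient.out (Quotient.mk'' x : Ω)) = x := hg
    rw [h4] at h3
    exact h3
  have h1 : finrank K (W K A φ) ≤ ∑ ω : Ω, Nat.card (Y (Quotient.out ω)) := by
    have h2 := LinearMap.finrank_le_finrank_of_injective hR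
    rw [Module.finrank_fintype_fun_eq_card, Fintype.card_sigma] at h2
    refine le_trans h2 (le_of_eq ?_)
    apply Finset.sum_congr rfl
    intro ω _
    rw [Nat.card_eq_fintype_card]
  have h3 : Nat.card X = ∑ ω : Ω, Nat.card {x : X | ∃ g, φ g (Quotient.out ω) = x} := by
    rw [Nat.card_congr (MulAction.selfEquivSigmaOrbits (EA p r) X), Nat.card_sigma]
    apply Finset.sum_congr rfl
    intro ω _
    rfl
  rw [h3]
  calc finrank K (⨅ j, LinearMap.ker (shift (permR K φ) (A j)) : Submodule K (X → K)) * p ^ t ≤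
      (∑ ω : Ω, Nat.card (Y (Quotient.out ω))) * p ^ t := Nat.mul_le_mul_right _ h1
    _ = ∑ ω : Ω, Nat.card (Y (Quotient.out ω)) * p ^ t := Finset.sum_mul _ _ _
    _ ≤ _ := Finset.sum_le_sum (fun ω _ => hY1 _)

end Pool.Agent.P8H83.ZL
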