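import Pool.Agent.P8H83.ZL.FLG

/-!
# Project ZL (helper83), package LEV: the level of a complex (helper63)
-/

set_option autoImplicit false

namespace Pool.Agent.P8H83.ZL

namespace LEVaux

open Module FLGaux

variable {K : Type} [Field K] {ι : Type} {q : ℕ}

/-- sequences which vanish above `n` with last term in `T` -/
noncomputable def upp (G : GC K ι q) (n : ℕ) (T : Submodule K (G.C n)) : Submodule K G.tot.V where
  carrier := {s | (∀ i, n < i → ev G i s = 0) ∧ ev G n s ∈ T}
  add_mem' := by
    rintro s t ⟨hs, hs'⟩ ⟨ht, ht'⟩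
    refine ⟨fun i hi => ?_, ?_⟩
    · rw [map_add, hs i hi, ht i hi, add_zero]
    · rw [map_add]; exact T.add_mem hs' ht'
  zero_mem' := ⟨fun _ _ => map_zero _, by rw [map_zero]; exact T.zero_mem⟩
  smul_mem' := by
    rintro c s ⟨hs, hs'⟩
    refine ⟨fun i hi => ?_, ?_⟩
    · rw [map_smul, hs i hi, smul_zero]
    · rw [map_smul]; exact T.smul_mem c hs'

theorem upp_stab (G : GC K ι q) (n : ℕ) (T : Submodule K (G.C n)) (hT : G.bnd n ≤ T)
    (hT' : T ≤ LinearMap.ker (G.d n)) (hx : ∀ j, ∀ v ∈ T, G.x j n v ∈ T) : Stab G.tot (upp G n T) where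
  hd := by
    rintro s ⟨hs, hs'⟩
    refine ⟨fun i hi => ?_, ?_⟩
    · cases i with
      | zero => rfl
      | succ i =>
        rw [ev_d_succ]
        rcases Nat.lt_or_ge n i with h | h
        · rw [hs i h, map_zero]
        · have : i = n := by omega
          subst this
          exact hT' hs'
    · apply hT
      cases n with
      | zero => exact Submodule.zero_mem _
      | succ n => exact ⟨ev G n s, rfl⟩
  hx := by
    rintro j s ⟨hs, hs'⟩
    refine ⟨fun i hi => ?_, ?_⟩
    · rw [ev_x, hs i hi, map_zero]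
    · rw [ev_x]
      exact hx j _ hs'

theorem upp_mono (G : GC K ι q) (n : ℕ) {T T' : Submodule K (G.C n)} (h : T ≤ T') : upp G n T ≤ upp G n T' :=
  fun _ hs => ⟨hs.1, h hs.2⟩

theorem bnd_x (G : GC K ι q) (n : ℕ) (j : ι) : ∀ v ∈ G.bnd n, G.x j n v ∈ G.bnd n := by
  cases n with
  | zero =>
    intro v hv
    have hv' : v = 0 := hv
    rw [hv', map_zero]
    exact Submodule.zero_mem _
  | succ n =>
    rintro _ ⟨v, rfl⟩
    exact ⟨G.x j n v, G.dx j n v⟩

/-- the step from one degree to the next one -/
theorem step_qiso (G : GC K ι q) (n : ℕ) (h : Stab G.tot (upp G n (LinearMap.ker (G.d n))))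
    (h' : Stab G.tot (upp G (n + 1) (G.bnd (n + 1))))
    (hle : upp G n (LinearMap.ker (G.d n)) ≤ upp G (n + 1) (G.bnd (n + 1))) :
    QIso (inc G.tot h h' hle) := by
  classical
  constructor
  · rintro ⟨v, hv⟩ _ ⟨⟨w, hw1, hw2⟩, hw⟩
    have hw' : G.tot.d w = v := congrArg Subtype.val hw
    obtain ⟨y, hy⟩ : ∃ y, G.d n y = ev G (n + 1) w := hw2
    have hmem : w - sing G (n + 1) (ev G (n + 1) w) ∈ upp G n (LinearMap.ker (G.d n)) := by
      refine ⟨fun i hi => ?_, ?_⟩
      · rw [map_sub]
        rcases Nat.lt_or_ge (n + 1) i with h1 | h1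
        · rw [hw1 i h1, sing_ne G _ _ (by omega), sub_zero]
        · have h2 : i = n + 1 := by omega
          subst h2
          rw [sing_same, sub_self]
      · rw [map_sub, sing_ne G _ _ (by omega), sub_zero, LinearMap.mem_ker, ← ev_d_succ, hw']
        exact hv.1 (n + 1) (by omega)
    refine ⟨⟨_, hmem⟩, ?_⟩
    apply Subtype.ext
    show G.tot.d (w - sing G (n + 1) (ev G (n + 1) w)) = v
    rw [map_sub, hw']
    have h4 : G.tot.d (sing G (n + 1) (ev G (n + 1) w)) = 0 := by
      apply ev_ext
      intro i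
      rw [map_zero]
      cases i with
      | zero => rfl
      | succ i =>
        rw [ev_d_succ]
        by_cases hi : i = n + 1
        · subst hi
          rw [sing_same, ← hy]
          exact G.dd n y
        · rw [sing_ne G _ _ hi, map_zero]
    rw [h4, sub_zero]
  · rintro ⟨w, hw1, hw2⟩ hw
    have hw' : G.tot.d w = 0 := congrArg Subtype.val hw
    obtain ⟨y, hy⟩ : ∃ y, G.d n y = ev G (n + 1) w := hw2
    have hu : sing G n y ∈ upp G (n + 1) (G.bnd (n + 1)) := by
      refine ⟨fun i hi => sing_ne G _ _ (by omega), ?_⟩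
      rw [sing_ne G _ _ (by omega)]
      exact Submodule.zero_mem _
    have hdy : ∀ i, ev G i (G.tot.d (sing G n y)) = ev G i (sing G (n + 1) (G.d n y)) := by
      intro i
      cases i with
      | zero =>
        rw [sing_ne G _ _ (by omega)]
        rfl
      | succ i =>
        rw [ev_d_succ]
        by_cases hi : i = n
        · subst hi
          rw [sing_same, sing_same]
        · rw [sing_ne G _ _ hi, map_zero, sing_ne G _ _ (by omega)]
    have hv : w - G.tot.d (sing G n y) ∈ upp G n (LinearMap.ker (G.d n)) := by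
      refine ⟨fun i hi => ?_, ?_⟩
      · rw [map_sub, hdy]
        rcases Nat.lt_or_ge (n + 1) i with h1 | h1
        · rw [hw1 i h1, sing_ne G _ _ (by omega), sub_zero]
        · have h2 : i = n + 1 := by omega
          subst h2
          rw [sing_same, hy, sub_self]
      · rw [map_sub, hdy, sing_ne G _ _ (by omega), sub_zero, LinearMap.mem_ker, ← ev_d_succ, hw', map_zero]
    refine ⟨⟨_, hv⟩, ⟨_, hu⟩, ?_, ?_⟩
    · apply Subtype.ext
      show G.tot.d (w - G.tot.d (sing G n y)) = 0
      rw [map_sub, hw', G.tot.dd, sub_zero]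
    · apply Subtype.ext
      show w = (w - G.tot.d (sing G n y)) + G.tot.d (sing G n y)
      rw [sub_add_cancel]

end LEVaux

open FLGaux LEVaux in
theorem lev_proof : S_LEV := by
  intro K _ ι q G N hN l S h0 hl hm hx
  have hmono : ∀ n, Monotone (S n) := fun n => monotone_nat_of_le_succ (hm n)
  have hstab : ∀ n k, k ≤ l n → Stab G.tot (upp G n (S n k)) := by
    intro n k hk
    refine upp_stab G n _ ?_ ?_ ?_
    · rw [← h0]
      exact hmono n (Nat.zero_le k)
    · rw [← hl]
      exact hmono n hk
    · intro j v hv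
      cases k with
      | zero =>
        rw [h0] at hv ⊢
        exact bnd_x G n j v hv
      | succ k => exact hm n k (hx n k j v hv)
  -- the steps inside one degree
  have hin : ∀ n c, (∀ h, Level c (sub G.tot (upp G n (S n 0)) h)) →
      ∀ k (hk : k ≤ l n), Level (c + k) (sub G.tot (upp G n (S n k)) (hstab n k hk)) := by
    intro n c hc k
    induction k with
    | zero => intro hk; exact hc _
    | succ k ih =>
      intro hk
      have ih' := ih (by omega)
      refine Level.triv (c + k) _ _ (inc G.tot (hstab n k (by omega)) (hstab n (k + 1) hk) (upp_mono G n (hm n k)))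
        (Submodule.inclusion_injective (upp_mono G n (hm n k))) ?_ ih'
      rintro j ⟨v, hv, hv'⟩
      refine ⟨⟨G.tot.x j v, fun i hi => ?_, ?_⟩, rfl⟩
      · rw [ev_x, hv i hi, map_zero]
      · rw [ev_x]
        exact hx n k j _ hv'
  have hout : ∀ n, ∀ h, Level (∑ i ∈ Finset.range n, l i) (sub G.tot (upp G n (S n 0)) h) := by
    intro n
    induction n with
    | zero =>
      intro h
      refine Level.zero _ ?_
      rintro ⟨v, hv, hv'⟩
      apply Subtype.ext
      apply ev_ext
      intro i
      show ev G i v = 0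
      cases i with
      | zero =>
        rw [h0] at hv'
        exact hv'
      | succ i => exact hv _ (by omega)
    | succ n ih =>
      intro h
      rw [Finset.sum_range_succ]
      have h1 : ∀ hst : Stab G.tot (upp G n (S n (l n))), Level (∑ i ∈ Finset.range n, l i + l n)
          (sub G.tot (upp G n (S n (l n))) hst) := fun _ => hin n _ ih (l n) le_rfl
      have hst := hstab n (l n) le_rfl
      have hle : upp G n (LinearMap.ker (G.d n)) ≤ upp G (n + 1) (G.bnd (n + 1)) := by
        rintro s ⟨hs, _⟩
        refine ⟨fun i hi => hs i (by omega), ?_⟩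
        rw [hs (n + 1) (by omega)]
        exact Submodule.zero_mem _
      revert h1 hst h
      rw [hl, h0]
      intro h h1 hst
      exact Level.qiso _ _ _ _ (step_qiso G n hst h hle) (h1 hst)
  have hfin := hout N (hstab N 0 (Nat.zero_le _))
  refine Level.qiso _ _ _ (incl G.tot _ _) ?_ hfin
  have hall : ∀ s : G.tot.V, s ∈ upp G N (S N 0) := by
    intro s
    refine ⟨fun i hi => hN i (by omega) _, ?_⟩
    rw [hN N le_rfl (ev G N s)]
    exact Submodule.zero_mem _
  constructor
  · rintro v _ ⟨w, hw⟩
    exact ⟨⟨w, hall w⟩, Subtype.ext hw⟩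
  · intro w hw
    exact ⟨⟨w, hall w⟩, 0, Subtype.ext hw, by rw [map_zero, add_zero]; rfl⟩

end Pool.Agent.P8H83.ZL
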