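import Pool.Agent.P8H83.ZL.Stm

/-!
# Package QI: homotopy fixed points and orbits preserve quasi-isomorphisms
-/

set_option autoImplicit false

namespace Pool.Agent.P8H83.ZL

namespace QI

variable {K : Type} [Field K] {ι : Type} {q : ℕ}

theorem sgn_sq (k : ℕ) : (-1 : K) ^ k * (-1 : K) ^ k = 1 := by
  rw [← mul_pow]; simp

theorem sgn_smul {V : Type} [AddCommGroup V] [Module K V] (k : ℕ) (v : V) :
    (-1 : K) ^ k • ((-1 : K) ^ k • v) = v := by
  rw [smul_smul, sgn_sq, one_smul]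

theorem sgn_succ (k : ℕ) : (-1 : K) ^ (k + 1) = - (-1 : K) ^ k := by ring

/-! ### `Fix` and `Orb` preserve acyclic objects -/

open Classical in
/-- A primitive, if there is one. -/
noncomputable def pr (M : DM K ι q) (v : M.V) : M.V :=
  if h : ∃ w, M.d w = v then h.choose else 0

theorem d_pr {M : DM K ι q} (hM : Acyc M) {v : M.V} (hv : M.d v = 0) : M.d (pr M v) = v := by
  have h : ∃ w, M.d w = v := hM v hv
  unfold pr
  rw [dif_pos h]
  exact h.choose_spec

/-- The recursively constructed primitive. -/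
noncomputable def wseq (M : DM K ι q) (j : ι) (s : ℕ → M.V) : ℕ → M.V
  | 0 => pr M (s 0)
  | k + 1 => pr M ((-1 : K) ^ (k + 1) • (s (k + 1) - M.u j (k + 1) (wseq M j s k)))

theorem wseq_spec {M : DM K ι q} (hM : Acyc M) (j : ι) (s : ℕ → M.V)
    (hs : ∀ k, fixD M j s k = 0) (k : ℕ) :
    fixD M j (wseq M j s) k = s k ∧ M.u j (k + 1) (M.d (wseq M j s k)) =
      (-1 : K) ^ k • M.u j (k + 1) (s k) := by
  induction k with
  | zero =>
    have h0 : M.d (s 0) = 0 := hs 0
    have h1 : M.d (wseq M j s 0) = s 0 := d_pr hM h0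
    refine ⟨h1, ?_⟩
    rw [h1, pow_zero, one_smul]
  | succ k ih =>
    obtain ⟨ih1, ih2⟩ := ih
    have h0 := hs (k + 1)
    rw [fixD_succ] at h0
    have h1 : M.d (s (k + 1)) = (-1 : K) ^ k • M.u j (k + 1) (s k) := by
      have h2 := congrArg (fun v => (-1 : K) ^ (k + 1) • v) h0
      simp only [smul_add, sgn_smul, smul_zero] at h2
      rw [eq_neg_of_add_eq_zero_left h2, sgn_succ, neg_smul, neg_neg]
    have h3 : M.d ((-1 : K) ^ (k + 1) • (s (k + 1) - M.u j (k + 1) (wseq M j s k))) = 0 := by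
      rw [map_smul, map_sub, M.du, ih2, h1, sub_self, smul_zero]
    have h4 : M.d (wseq M j s (k + 1)) =
        (-1 : K) ^ (k + 1) • (s (k + 1) - M.u j (k + 1) (wseq M j s k)) := d_pr hM h3
    refine ⟨?_, ?_⟩
    · rw [fixD_succ, h4, sgn_smul]
      abel
    · rw [h4, map_smul, map_sub, M.uu, sub_zero]

theorem acyc_fix {M : DM K ι q} (hM : Acyc M) (j : ι) : Acyc (Fix j M) := by
  intro s hs
  refine ⟨wseq M j s, ?_⟩
  funext k
  exact (wseq_spec hM j s (fun k => congrFun hs k) k).1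

theorem orb_prim {M : DM K ι q} (hM : Acyc M) (j : ι) (n : ℕ) : ∀ s : ℕ → M.V,
    (∀ k, n ≤ k → s k = 0) → orbD M j s = 0 → ∃ t ∈ finSub K M.V, orbD M j t = s := by
  induction n with
  | zero =>
    intro s hs _
    refine ⟨0, Submodule.zero_mem _, ?_⟩
    rw [map_zero]
    funext k
    exact (hs k (Nat.zero_le _)).symm
  | succ n ih =>
    intro s hs hd
    have h1 : M.d (s n) = 0 := by
      have h2 := congrFun hd n
      rw [orbD_apply, hs (n + 1) le_rfl, map_zero, add_zero] at h2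
      have h3 := congrArg (fun v => (-1 : K) ^ n • v) h2
      simp only [sgn_smul] at h3
      rw [h3]
      exact smul_zero _
    obtain ⟨t, ht⟩ := hM _ h1
    classical
    let r : ℕ → M.V := fun k => if k = n then (-1 : K) ^ n • t else 0
    have hr : r ∈ finSub K M.V := ⟨n + 1, fun k hk => if_neg (by omega)⟩
    have hrn : orbD M j r n = s n := by
      rw [orbD_apply]
      simp only [r, if_true, if_neg (show ¬ (n + 1 = n) by omega)]
      rw [map_zero, add_zero, map_smul, sgn_smul, ht]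
    have hrk : ∀ k, n < k → orbD M j r k = 0 := by
      intro k hk
      rw [orbD_apply]
      simp only [r, if_neg (show ¬ (k = n) by omega), if_neg (show ¬ (k + 1 = n) by omega)]
      rw [map_zero, map_zero, smul_zero, add_zero]
    have hrr : orbD M j (orbD M j r) = 0 := by
      have h := (Orb j M).dd ⟨r, hr⟩
      exact congrArg Subtype.val h
    obtain ⟨t', ht', h'⟩ := ih (s - orbD M j r) (by
      intro k hk
      rw [Pi.sub_apply]
      rcases Nat.lt_or_ge n k with h | h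
      · rw [hs k h, hrk k h, sub_zero]
      · have : k = n := le_antisymm h hk
        subst this
        rw [hrn, sub_self]) (by rw [map_sub, hd, hrr, sub_zero])
    refine ⟨t' + r, Submodule.add_mem _ ht' hr, ?_⟩
    rw [map_add, h', sub_add_cancel]

theorem acyc_orb {M : DM K ι q} (hM : Acyc M) (j : ι) : Acyc (Orb j M) := by
  intro s hs
  obtain ⟨n, hn⟩ := s.2
  obtain ⟨t, ht, h⟩ := orb_prim hM j n s.1 hn (congrArg Subtype.val hs)
  exact ⟨⟨t, ht⟩, Subtype.ext h⟩

/-! ### Cones -/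

/-- The cone of a morphism. -/
noncomputable def cone {M N : DM K ι q} (f : Hom M N) : DM K ι q where
  V := M.V × N.V
  d := LinearMap.prod (-(M.d.comp (LinearMap.fst K M.V N.V)))
    (f.f.comp (LinearMap.fst K M.V N.V) + N.d.comp (LinearMap.snd K M.V N.V))
  x i := (M.x i).prodMap (N.x i)
  dd v := by
    refine Prod.ext ?_ ?_
    · show -(M.d (-(M.d v.1))) = 0
      rw [map_neg, M.dd, neg_zero, neg_zero]
    · show f.f (-(M.d v.1)) + N.d (f.f v.1 + N.d v.2) = 0
      rw [map_neg, map_add, N.dd, f.hd, add_zero, neg_add_cancel]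
  dx i v := by
    refine Prod.ext ?_ ?_
    · show -(M.d (M.x i v.1)) = M.x i (-(M.d v.1))
      rw [map_neg, M.dx]
    · show f.f (M.x i v.1) + N.d (N.x i v.2) = N.x i (f.f v.1 + N.d v.2)
      rw [map_add, f.hx, N.dx]
  xx i j v := Prod.ext (M.xx i j v.1) (N.xx i j v.2)
  xp i v := by
    have h : ∀ (n : ℕ) (v : M.V × N.V), (((M.x i).prodMap (N.x i)) ^ n) v =
        ((M.x i ^ n) v.1, (N.x i ^ n) v.2) := by
      intro n
      induction n with
      | zero => intro v; rfl
      | succ n ih =>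
        intro v
        rw [pow_succ, pow_succ, pow_succ, Module.End.mul_apply, Module.End.mul_apply,
          Module.End.mul_apply, ih]
        rfl
    rw [h, M.xp, N.xp]
    rfl

theorem cone_pow {M N : DM K ι q} (f : Hom M N) (j : ι) (n : ℕ) (v : M.V × N.V) :
    (((cone f).x j) ^ n) v = ((M.x j ^ n) v.1, (N.x j ^ n) v.2) := by
  induction n generalizing v with
  | zero => rfl
  | succ n ih =>
    rw [pow_succ, pow_succ, pow_succ, Module.End.mul_apply, Module.End.mul_apply]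
    exact ih _

theorem cone_u {M N : DM K ι q} (f : Hom M N) (j : ι) (k : ℕ) (v : M.V × N.V) :
    (cone f).u j k v = (M.u j k v.1, N.u j k v.2) := by
  unfold DM.u
  split_ifs
  · rfl
  · exact cone_pow f j q v

theorem cu1 {M N : DM K ι q} (f : Hom M N) (j : ι) (k : ℕ) (v : M.V × N.V) :
    ((cone f).u j k v).1 = M.u j k v.1 := congrArg Prod.fst (cone_u f j k v)

theorem cu2 {M N : DM K ι q} (f : Hom M N) (j : ι) (k : ℕ) (v : M.V × N.V) :
    ((cone f).u j k v).2 = N.u j k v.2 := congrArg Prod.snd (cone_u f j k v)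

/-- An identity with signs. -/
theorem al1 {V : Type} [AddCommGroup V] [Module K V] (k : ℕ) (a b : V) :
    -(a + (-1 : K) ^ k • b) = (-1 : K) ^ (k + 1) • ((-1 : K) ^ (k + 1) • (-a) + b) := by
  rw [smul_add, sgn_smul, sgn_succ, neg_smul, neg_add]

theorem al2 {V : Type} [AddCommGroup V] [Module K V] (k : ℕ) (a b : V) :
    (-1 : K) ^ (k + 1) • (-((-1 : K) ^ (k + 1) • a)) + (-1 : K) ^ k • b =
      (-1 : K) ^ (k + 1) • (-((-1 : K) ^ (k + 1) • a + b)) := by
  rw [smul_neg, smul_neg, smul_add, sgn_smul, sgn_succ, neg_smul]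
  abel

theorem cone_d {M N : DM K ι q} (f : Hom M N) (v : M.V × N.V) :
    (cone f).d v = (-(M.d v.1), f.f v.1 + N.d v.2) := rfl

theorem qiso_iff {M N : DM K ι q} (f : Hom M N) : QIso f ↔ Acyc (cone f) := by
  constructor
  · rintro ⟨h1, h2⟩ ⟨m, n⟩ hv
    rw [cone_d] at hv
    have e1 : M.d m = 0 := neg_eq_zero.1 (congrArg Prod.fst hv)
    have e2 : f.f m + N.d n = 0 := congrArg Prod.snd hv
    obtain ⟨u, hu⟩ := h1 m e1 ⟨-n, by rw [map_neg]; exact (eq_neg_of_add_eq_zero_left e2).symm⟩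
    obtain ⟨v, u', hv', hw⟩ := h2 (f.f u + n) (by rw [map_add, ← f.hd, hu, e2])
    refine ⟨(v - u, u'), ?_⟩
    rw [cone_d]
    refine Prod.ext ?_ ?_
    · show -(M.d (v - u)) = m
      rw [map_sub, hv', hu, zero_sub, neg_neg]
    · show f.f (v - u) + N.d u' = n
      rw [map_sub, sub_add_eq_add_sub, ← hw]
      abel
  · intro h
    refine ⟨fun v hv ⟨w, hw⟩ => ?_, fun w hw => ?_⟩
    · obtain ⟨⟨a, b⟩, hab⟩ := h (v, -w) (by
        rw [cone_d]
        refine Prod.ext ?_ ?_
        · show -(M.d v) = 0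
          rw [hv, neg_zero]
        · show f.f v + N.d (-w) = 0
          rw [map_neg, hw, add_neg_cancel])
      refine ⟨-a, ?_⟩
      rw [map_neg]
      exact congrArg Prod.fst hab
    · obtain ⟨⟨a, b⟩, hab⟩ := h (0, w) (by
        rw [cone_d]
        refine Prod.ext ?_ ?_
        · show -(M.d 0) = 0
          rw [map_zero, neg_zero]
        · show f.f 0 + N.d w = 0
          rw [map_zero, hw, add_zero])
      exact ⟨a, b, neg_eq_zero.1 (congrArg Prod.fst hab), (congrArg Prod.snd hab).symm⟩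

theorem acyc_transfer {A B : DM K ι q} (T : A.V → B.V) (S : B.V → A.V)
    (hT : ∀ a, B.d (T a) = T (A.d a)) (hS : ∀ b, A.d (S b) = S (B.d b))
    (hTS : ∀ b, T (S b) = b) (hS0 : S 0 = 0) (hA : Acyc A) : Acyc B := by
  intro b hb
  obtain ⟨a, ha⟩ := hA (S b) (by rw [hS, hb, hS0])
  exact ⟨T a, by rw [hT, ha, hTS]⟩

theorem qiso_fix {M N : DM K ι q} (f : Hom M N) (j : ι) (h : QIso f) : QIso (fixMap j f) := by
  rw [qiso_iff] at h ⊢
  have h1 := acyc_fix h j
  refine acyc_transfer (A := Fix j (cone f)) (B := cone (fixMap j f))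
    (fun s => (fun k => (-1 : K) ^ k • (s k).1, fun k => (s k).2))
    (fun b k => ((-1 : K) ^ k • b.1 k, b.2 k)) ?_ ?_ ?_ ?_ h1
  · intro s
    refine Prod.ext ?_ ?_
    · funext k
      cases k with
      | zero =>
        show -(M.d ((-1 : K) ^ 0 • (s 0).1)) = (-1 : K) ^ 0 • (-(M.d (s 0).1))
        simp
      | succ k =>
        have e : -((-1 : K) ^ (k + 1) • M.d ((-1 : K) ^ (k + 1) • (s (k + 1)).1) +
          M.u j (k + 1) ((-1 : K) ^ k • (s k).1)) = (-1 : K) ^ (k + 1) •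
          ((-1 : K) ^ (k + 1) • (-(M.d (s (k + 1)).1)) + M.u j (k + 1) (s k).1) := by
          rw [map_smul, map_smul, sgn_smul, al1]
        exact e.trans (congrArg (fun z => (-1 : K) ^ (k + 1) •
          ((-1 : K) ^ (k + 1) • (-(M.d (s (k + 1)).1)) + z)) (cu1 f j (k + 1) (s k)).symm)
    · funext k
      cases k with
      | zero =>
        show f.f ((-1 : K) ^ 0 • (s 0).1) + N.d (s 0).2 = f.f (s 0).1 + N.d (s 0).2
        simp
      | succ k =>
        have e : f.f ((-1 : K) ^ (k + 1) • (s (k + 1)).1) + ((-1 : K) ^ (k + 1) • N.d (s (k + 1)).2 +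
          N.u j (k + 1) (s k).2) =
          (-1 : K) ^ (k + 1) • (f.f (s (k + 1)).1 + N.d (s (k + 1)).2) + N.u j (k + 1) (s k).2 := by
          rw [map_smul, smul_add, add_assoc]
        exact e.trans (congrArg (fun z => (-1 : K) ^ (k + 1) • (f.f (s (k + 1)).1 +
          N.d (s (k + 1)).2) + z) (cu2 f j (k + 1) (s k)).symm)
  · rintro ⟨b1, b2⟩
    funext k
    cases k with
    | zero =>
      refine Prod.ext ?_ ?_
      · show -(M.d ((-1 : K) ^ 0 • b1 0)) = (-1 : K) ^ 0 • (-(M.d (b1 0)))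
        simp
      · show f.f ((-1 : K) ^ 0 • b1 0) + N.d (b2 0) = f.f (b1 0) + N.d (b2 0)
        simp
    | succ k =>
      refine Prod.ext ?_ ?_
      · have e : (-1 : K) ^ (k + 1) • (-(M.d ((-1 : K) ^ (k + 1) • b1 (k + 1)))) +
            M.u j (k + 1) ((-1 : K) ^ k • b1 k) =
          (-1 : K) ^ (k + 1) • (-((-1 : K) ^ (k + 1) • M.d (b1 (k + 1)) +
            M.u j (k + 1) (b1 k))) := by
          rw [map_smul, map_smul, al2]
        exact (congrArg (fun z => (-1 : K) ^ (k + 1) • (-(M.d ((-1 : K) ^ (k + 1) • b1 (k + 1)))) + z)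
          (cu1 f j (k + 1) ((-1 : K) ^ k • b1 k, b2 k))).trans e
      · have e : (-1 : K) ^ (k + 1) • (f.f ((-1 : K) ^ (k + 1) • b1 (k + 1)) + N.d (b2 (k + 1))) +
            N.u j (k + 1) (b2 k) =
          f.f (b1 (k + 1)) + ((-1 : K) ^ (k + 1) • N.d (b2 (k + 1)) + N.u j (k + 1) (b2 k)) := by
          rw [map_smul, smul_add, sgn_smul, add_assoc]
        exact (congrArg (fun z => (-1 : K) ^ (k + 1) • (f.f ((-1 : K) ^ (k + 1) • b1 (k + 1)) +
          N.d (b2 (k + 1))) + z) (cu2 f j (k + 1) ((-1 : K) ^ k • b1 k, b2 k))).trans e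
  · rintro ⟨b1, b2⟩
    refine Prod.ext ?_ rfl
    funext k
    exact sgn_smul k _
  · funext k
    exact Prod.ext (smul_zero _) rfl

/-- The components of a finite sequence of pairs. -/
def sp1 {V W : Type} [AddCommGroup V] [Module K V] [AddCommGroup W] [Module K W]
    (s : finSub K (V × W)) : finSub K V :=
  ⟨fun k => (-1 : K) ^ k • (s.1 k).1, by
    obtain ⟨n, hn⟩ := s.2
    exact ⟨n, fun k hk => by
      show (-1 : K) ^ k • (s.1 k).1 = 0
      rw [hn k hk]
      exact smul_zero _⟩⟩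

def sp2 {V W : Type} [AddCommGroup V] [Module K V] [AddCommGroup W] [Module K W]
    (s : finSub K (V × W)) : finSub K W :=
  ⟨fun k => (s.1 k).2, by
    obtain ⟨n, hn⟩ := s.2
    exact ⟨n, fun k hk => by
      show (s.1 k).2 = 0
      rw [hn k hk]
      rfl⟩⟩

def jn {V W : Type} [AddCommGroup V] [Module K V] [AddCommGroup W] [Module K W]
    (b : finSub K V) (c : finSub K W) : finSub K (V × W) :=
  ⟨fun k => ((-1 : K) ^ k • b.1 k, c.1 k), by
    obtain ⟨n, hn⟩ := b.2
    obtain ⟨m, hm⟩ := c.2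
    refine ⟨max n m, fun k hk => ?_⟩
    have e1 : b.1 k = 0 := hn k (le_trans (le_max_left _ _) hk)
    have e2 : c.1 k = 0 := hm k (le_trans (le_max_right _ _) hk)
    show ((-1 : K) ^ k • b.1 k, c.1 k) = 0
    rw [e1, e2, smul_zero]
    rfl⟩

theorem qiso_orb {M N : DM K ι q} (f : Hom M N) (j : ι) (h : QIso f) : QIso (orbMap j f) := by
  rw [qiso_iff] at h ⊢
  have h1 := acyc_orb h j
  refine acyc_transfer (A := Orb j (cone f)) (B := cone (orbMap j f))
    (fun s => (sp1 s, sp2 s)) (fun b => jn b.1 b.2) ?_ ?_ ?_ ?_ h1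
  · intro s
    refine Prod.ext (Subtype.ext ?_) (Subtype.ext ?_)
    · funext k
      have e : -((-1 : K) ^ k • M.d ((-1 : K) ^ k • (s.1 k).1) +
          M.u j (k + 1) ((-1 : K) ^ (k + 1) • (s.1 (k + 1)).1)) = (-1 : K) ^ k •
          ((-1 : K) ^ k • (-(M.d (s.1 k).1)) + M.u j (k + 1) (s.1 (k + 1)).1) := by
        rw [map_smul, map_smul, sgn_smul, smul_add, sgn_smul, sgn_succ, neg_smul]
        abel
      exact e.trans (congrArg (fun z => (-1 : K) ^ k •
          ((-1 : K) ^ k • (-(M.d (s.1 k).1)) + z)) (cu1 f j (k + 1) (s.1 (k + 1))).symm)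
    · funext k
      have e : f.f ((-1 : K) ^ k • (s.1 k).1) + ((-1 : K) ^ k • N.d (s.1 k).2 +
          N.u j (k + 1) (s.1 (k + 1)).2) =
          (-1 : K) ^ k • (f.f (s.1 k).1 + N.d (s.1 k).2) + N.u j (k + 1) (s.1 (k + 1)).2 := by
        rw [map_smul, smul_add, add_assoc]
      exact e.trans (congrArg (fun z => (-1 : K) ^ k • (f.f (s.1 k).1 + N.d (s.1 k).2) + z)
        (cu2 f j (k + 1) (s.1 (k + 1))).symm)
  · rintro ⟨⟨b1, hb1⟩, ⟨b2, hb2⟩⟩
    apply Subtype.ext
    funext k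
    refine Prod.ext ?_ ?_
    · have e : (-1 : K) ^ k • (-(M.d ((-1 : K) ^ k • b1 k))) +
            M.u j (k + 1) ((-1 : K) ^ (k + 1) • b1 (k + 1)) =
          (-1 : K) ^ k • (-((-1 : K) ^ k • M.d (b1 k) + M.u j (k + 1) (b1 (k + 1)))) := by
        rw [map_smul, map_smul, smul_neg, smul_neg, smul_add, sgn_smul, sgn_succ, neg_smul]
        abel
      exact (congrArg (fun z => (-1 : K) ^ k • (-(M.d ((-1 : K) ^ k • b1 k))) + z)
          (cu1 f j (k + 1) ((-1 : K) ^ (k + 1) • b1 (k + 1), b2 (k + 1)))).trans e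
    · have e : (-1 : K) ^ k • (f.f ((-1 : K) ^ k • b1 k) + N.d (b2 k)) +
            N.u j (k + 1) (b2 (k + 1)) =
          f.f (b1 k) + ((-1 : K) ^ k • N.d (b2 k) + N.u j (k + 1) (b2 (k + 1))) := by
        rw [map_smul, smul_add, sgn_smul, add_assoc]
      exact (congrArg (fun z => (-1 : K) ^ k • (f.f ((-1 : K) ^ k • b1 k) + N.d (b2 k)) + z)
          (cu2 f j (k + 1) ((-1 : K) ^ (k + 1) • b1 (k + 1), b2 (k + 1)))).trans e
  · rintro ⟨⟨b1, hb1⟩, ⟨b2, hb2⟩⟩
    refine Prod.ext (Subtype.ext ?_) rfl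
    funext k
    exact sgn_smul k _
  · apply Subtype.ext
    funext k
    exact Prod.ext (smul_zero _) rfl

end QI

theorem qi_proof : S_QI := by
  intro K _ ι q M N f j h
  exact ⟨QI.qiso_fix f j h, QI.qiso_orb f j h⟩

end Pool.Agent.P8H83.ZL
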