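import Pool.Agent.P8H83.ZL.Defs

/-!
# Statements of the packages
-/

set_option autoImplicit false

namespace Pool.Agent.P8H83.ZL

open Module

/-! ### Package A1: the functors preserve quasi-isomorphisms -/

def S_QI : Prop := ∀ (K : Type) [Field K] (ι : Type) (q : ℕ) (M N : DM K ι q) (f : Hom M N) (j : ι),
  QIso f → QIso (fixMap j f) ∧ QIso (orbMap j f)

/-! ### Package A2: the ghost lemma -/

def S_GH : Prop := ∀ (K : Type) [Field K] (ι : Type) (q : ℕ), 1 ≤ q →
  ∀ (L : List ι) (c : ℕ) (M : DM K ι q), Level c M → c ≤ L.length → ZeroH (nu L M)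

/-! ### Package A3: the norm is a quasi-isomorphism on free objects -/

/-- Short exact sequences. -/
def Ses {K : Type} [Field K] {ι : Type} {q : ℕ} {A M C : DM K ι q} (f : Hom A M) (g : Hom M C) :
    Prop :=
  Function.Injective f.f ∧ (∀ v, g.f v = 0 ↔ ∃ a, f.f a = v) ∧ Function.Surjective g.f

def S_EXT : Prop := ∀ (K : Type) [Field K] (ι : Type) (q : ℕ) (A M C A' M' C' : DM K ι q)
  (f : Hom A M) (g : Hom M C) (f' : Hom A' M') (g' : Hom M' C')
  (a : Hom A A') (m : Hom M M') (c : Hom C C'),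
  Ses f g → Ses f' g' → (∀ v, m.f (f.f v) = f'.f (a.f v)) → (∀ v, c.f (g.f v) = g'.f (m.f v)) →
  QIso a → QIso c → QIso m

def S_FR : Prop := ∀ (K : Type) [Field K] (ι : Type) (q : ℕ) (L : List ι) (M : DM K ι q),
  Flag L M → QIso (nu L M)

/-! ### Package A4 -/

def S_AC : Prop := ∀ (K : Type) [Field K] (ι : Type) (q : ℕ) (j : ι) (M : DM K ι q),
  Acyc (Fix j M) → Acyc M

/-- The main algebraic theorem. -/
def S_A : Prop := ∀ (K : Type) [Field K] (ι : Type) (q : ℕ), 1 ≤ q →
  ∀ (L : List ι) (c : ℕ) (M : DM K ι q), Flag L M → Level c M → c ≤ L.length → Acyc M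

/-! ### Packages B: generic shifted subgroups -/

/-- `A * C` is invertible for every matrix `C` over the prime field with a left inverse. -/
def Generic (p : ℕ) (K : Type) [Field K] [CharP K p] {t r : ℕ} (A : Matrix (Fin t) (Fin r) K) :
    Prop :=
  ∀ C : Matrix (Fin r) (Fin t) (ZMod p), (∃ X : Matrix (Fin t) (Fin r) (ZMod p), X * C = 1) →
    (A * C.map (ZMod.castHom (dvd_refl p) K)).det ≠ 0

def S_GEN : Prop := ∀ (p : ℕ), p.Prime → ∀ (K : Type) [Field K] [CharP K p] [Infinite K]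
  (t r : ℕ), ∃ A : Matrix (Fin t) (Fin r) K, Generic p K A

/-- The permutation representation on functions. -/
def permR (K : Type) [Field K] {G X : Type} [Group G] (φ : G →* Equiv.Perm X) :
    G →* ((X → K) →ₗ[K] (X → K)) where
  toFun g := LinearMap.funLeft K K (fun x => (φ g)⁻¹ x)
  map_one' := by
    apply LinearMap.ext
    intro f
    funext x
    show f ((φ 1)⁻¹ x) = f x
    rw [map_one, inv_one]
    rfl
  map_mul' g h := by
    apply LinearMap.ext
    intro f
    funext x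
    show f ((φ (g * h))⁻¹ x) = f ((φ h)⁻¹ ((φ g)⁻¹ x))
    rw [map_mul, mul_inv_rev]
    rfl

theorem permR_apply (K : Type) [Field K] {G X : Type} [Group G] (φ : G →* Equiv.Perm X) (g : G)
    (f : X → K) (x : X) : permR K φ g f x = f ((φ g)⁻¹ x) := rfl

/-- The elementary abelian group of rank `r`. -/
abbrev EA (p r : ℕ) : Type := Multiplicative (Fin r → ZMod p)

/-- The `i`-th generator. -/
def EA.gen {p r : ℕ} (i : Fin r) : EA p r := Multiplicative.ofAdd (Pi.single i 1)

/-- The shifted operator `∑ i, a i (e_i - 1)`. -/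
noncomputable def shift {p r : ℕ} {K : Type} [Field K] {V : Type} [AddCommGroup V] [Module K V]
    (ρ : EA p r →* (V →ₗ[K] V)) (a : Fin r → K) : V →ₗ[K] V :=
  ∑ i, a i • (ρ (EA.gen i) - 1)

def S_SP : Prop := ∀ (p : ℕ), p.Prime → ∀ (K : Type) [Field K] [CharP K p] (r : ℕ) (V : Type)
  [AddCommGroup V] [Module K V] (ρ : EA p r →* (V →ₗ[K] V)) (a : Fin r → K),
  shift ρ a ^ p = 0

def S_KER : Prop := ∀ (p : ℕ), p.Prime → ∀ (K : Type) [Field K] [CharP K p] (t r s : ℕ)
  (A : Matrix (Fin t) (Fin r) K), Generic p K A → s + t ≤ r →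
  ∀ (X : Type) [Finite X] (φ : EA p r →* Equiv.Perm X),
    (∀ x : X, Nat.card {g : EA p r // φ g x = x} ≤ p ^ s) →
    finrank K (⨅ j, LinearMap.ker (shift (permR K φ) (A j)) : Submodule K (X → K)) * p ^ t ≤
      Nat.card X

def S_DIM : Prop := ∀ (K : Type) [Field K] (ι : Type) (q : ℕ) (L : List ι) (M : DM K ι q)
  [FiniteDimensional K M.V],
  finrank K (⨅ j ∈ L, LinearMap.ker (M.x j) : Submodule K M.V) * (q + 1) ^ L.length ≤
    finrank K M.V → FreeOver L M

/-! ### Packages C: complexes -/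

/-- Cochain complexes with commuting operators. -/
structure GC (K : Type) [Field K] (ι : Type) (q : ℕ) where
  C : ℕ → Type
  [grp : ∀ n, AddCommGroup (C n)]
  [mod : ∀ n, Module K (C n)]
  d : ∀ n, C n →ₗ[K] C (n + 1)
  x : ι → ∀ n, C n →ₗ[K] C n
  dd : ∀ n v, d (n + 1) (d n v) = 0
  dx : ∀ i n v, d n (x i n v) = x i (n + 1) (d n v)
  xx : ∀ i j n v, x i n (x j n v) = x j n (x i n v)
  xp : ∀ i n v, (x i n ^ (q + 1)) v = 0

attribute [instance] GC.grp GC.mod

variable {K : Type} [Field K] {ι : Type} {q : ℕ}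

/-- The coboundaries. -/
def GC.bnd (G : GC K ι q) : ∀ n, Submodule K (G.C n)
  | 0 => ⊥
  | (n + 1) => LinearMap.range (G.d n)

/-- The total object. -/
def GC.tot (G : GC K ι q) : DM K ι q where
  V := ∀ n, G.C n
  d :=
    { toFun := fun s n => match n with
        | 0 => 0
        | n + 1 => G.d n (s n)
      map_add' := fun s t => by
        funext n
        cases n with
        | zero => exact (add_zero (0 : G.C 0)).symm
        | succ n => exact map_add (G.d n) _ _
      map_smul' := fun c s => by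
        funext n
        cases n with
        | zero => exact (smul_zero c).symm
        | succ n => exact map_smul (G.d n) _ _ }
  x i := LinearMap.pi (fun n => (G.x i n).comp (LinearMap.proj n))
  dd s := by
    funext n
    cases n with
    | zero => rfl
    | succ n =>
      cases n with
      | zero => exact map_zero (G.d 0)
      | succ n => exact G.dd n _
  dx i s := by
    funext n
    cases n with
    | zero => exact (map_zero (G.x i 0)).symm
    | succ n => exact G.dx i n _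
  xx i j s := by
    funext n
    exact G.xx i j n _
  xp i s := by
    have h : ∀ (m : ℕ) (s : ∀ n, G.C n) (n : ℕ),
        (((LinearMap.pi (fun n => (G.x i n).comp (LinearMap.proj n)) :
          (∀ n, G.C n) →ₗ[K] (∀ n, G.C n)) ^ m) s) n = (G.x i n ^ m) (s n) := by
      intro m
      induction m with
      | zero => intro s n; rfl
      | succ m ih =>
        intro s n
        rw [pow_succ, pow_succ, Module.End.mul_apply, Module.End.mul_apply, ih]
        rfl
    funext n
    rw [h]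
    exact G.xp i n _

theorem GC.tot_d_zero (G : GC K ι q) (s : ∀ n, G.C n) : G.tot.d s 0 = 0 := rfl

theorem GC.tot_d_succ (G : GC K ι q) (s : ∀ n, G.C n) (n : ℕ) :
    G.tot.d s (n + 1) = G.d n (s n) := rfl

theorem GC.tot_x (G : GC K ι q) (i : ι) (s : ∀ n, G.C n) (n : ℕ) :
    G.tot.x i s n = G.x i n (s n) := rfl

/-- One degree, with zero differential. -/
def GC.deg (G : GC K ι q) (n : ℕ) : DM K ι q where
  V := G.C n
  d := 0
  x i := G.x i n
  dd _ := rfl
  dx i _ := (map_zero (G.x i n)).symm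
  xx i j v := G.xx i j n v
  xp i v := G.xp i n v

def S_LEV : Prop := ∀ (K : Type) [Field K] (ι : Type) (q : ℕ) (G : GC K ι q) (N : ℕ),
  (∀ n, N ≤ n → ∀ v : G.C n, v = 0) →
  ∀ (l : ℕ → ℕ) (S : ∀ n, ℕ → Submodule K (G.C n)), (∀ n, S n 0 = G.bnd n) →
    (∀ n, S n (l n) = LinearMap.ker (G.d n)) → (∀ n k, S n k ≤ S n (k + 1)) →
    (∀ n k j, ∀ v ∈ S n (k + 1), G.x j n v ∈ S n k) →
    Level (∑ n ∈ Finset.range N, l n) G.tot

def S_FLG : Prop := ∀ (K : Type) [Field K] (ι : Type) (q : ℕ) (G : GC K ι q) (N : ℕ),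
  (∀ n, N ≤ n → ∀ v : G.C n, v = 0) → ∀ L : List ι, (∀ n, FreeOver L (G.deg n)) → Flag L G.tot

/-! ### Packages D: representations -/

/-- Every representation over `K` of dimension less than `k` is trivial on `D`. -/
def SmallTriv (K G : Type) [Field K] [Group G] (D : Subgroup G) (k : ℕ) : Prop :=
  ∀ (V : Type) [AddCommGroup V] [Module K V] [FiniteDimensional K V] (ρ : G →* (V →ₗ[K] V)),
    finrank K V < k → ∀ g ∈ D, ∀ v, ρ g v = v

/-- The bound for the number of layers of a representation of dimension `b`. -/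
def layers (b k : ℕ) : ℕ := if b = 0 then 0 else 1 + 2 * (b / k)

def S_LAY : Prop := ∀ (p : ℕ), p.Prime → ∀ (K : Type) [Field K] [CharP K p] (G : Type) [Group G]
  (D : Subgroup G) [D.Normal] [Finite D], IsPGroup p D → ∀ k : ℕ, 0 < k → SmallTriv K G D k →
  ∀ (V : Type) [AddCommGroup V] [Module K V] [FiniteDimensional K V] (ρ : G →* (V →ₗ[K] V))
    (B Z : Submodule K V), B ≤ Z → (∀ g, ∀ v ∈ B, ρ g v ∈ B) → (∀ g, ∀ v ∈ Z, ρ g v ∈ Z) →
    ∃ S : ℕ → Submodule K V, S 0 = B ∧ S (layers (finrank K Z - finrank K B) k) = Z ∧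
      (∀ i, S i ≤ S (i + 1)) ∧ (∀ i, ∀ v ∈ S (i + 1), ∀ g ∈ D, ρ g v - v ∈ S i)

/-- The group `(ℤ/p)^N_0 ⋊ A_N`: pairs of a vector with coordinate sum zero and an even
permutation. -/
structure WG (N p : ℕ) where
  v : Fin N → ZMod p
  σ : Equiv.Perm (Fin N)
  hv : ∑ i, v i = 0
  hσ : Equiv.Perm.sign σ = 1

namespace WG

variable {N p : ℕ}

@[ext] theorem ext' {g h : WG N p} (h1 : g.v = h.v) (h2 : g.σ = h.σ) : g = h := by
  cases g; cases h
  simp only at h1 h2
  subst h1 h2
  rfl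

instance : Group (WG N p) where
  mul g h := ⟨fun i => g.v i + h.v (g.σ⁻¹ i), g.σ * h.σ, by
    rw [Finset.sum_add_distrib, g.hv, zero_add]
    rw [Equiv.sum_comp g.σ⁻¹ h.v, h.hv], by
    rw [Equiv.Perm.sign_mul, g.hσ, h.hσ, mul_one]⟩
  one := ⟨0, 1, by simp, by simp⟩
  inv g := ⟨fun i => - g.v (g.σ i), g.σ⁻¹, by
    rw [Finset.sum_neg_distrib, Equiv.sum_comp g.σ g.v, g.hv, neg_zero], by
    rw [Equiv.Perm.sign_inv, g.hσ]⟩
  mul_assoc g h k := by
    apply ext'
    · funext i
      show g.v i + h.v (g.σ⁻¹ i) + k.v ((g.σ * h.σ)⁻¹ i) =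
        g.v i + (h.v (g.σ⁻¹ i) + k.v (h.σ⁻¹ (g.σ⁻¹ i)))
      rw [mul_inv_rev, Equiv.Perm.mul_apply, add_assoc]
    · exact mul_assoc _ _ _
  one_mul g := by
    apply ext'
    · funext i
      show (0 : ZMod p) + g.v ((1 : Equiv.Perm (Fin N))⁻¹ i) = g.v i
      simp
    · exact one_mul _
  mul_one g := by
    apply ext'
    · funext i
      show g.v i + (0 : ZMod p) = g.v i
      simp
    · exact mul_one _
  inv_mul_cancel g := by
    apply ext'
    · funext i
      show - g.v (g.σ i) + g.v ((g.σ⁻¹)⁻¹ i) = 0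
      simp
    · exact inv_mul_cancel _

theorem mul_v (g h : WG N p) (i : Fin N) : (g * h).v i = g.v i + h.v (g.σ⁻¹ i) := rfl
theorem mul_σ (g h : WG N p) : (g * h).σ = g.σ * h.σ := rfl
theorem one_v : (1 : WG N p).v = 0 := rfl
theorem one_σ : (1 : WG N p).σ = 1 := rfl
theorem inv_v (g : WG N p) (i : Fin N) : (g⁻¹).v i = - g.v (g.σ i) := rfl
theorem inv_σ (g : WG N p) : (g⁻¹).σ = g.σ⁻¹ := rfl

/-- The normal subgroup `(ℤ/p)^N_0`. -/
def D (N p : ℕ) : Subgroup (WG N p) where
  carrier := {g | g.σ = 1}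
  mul_mem' := by
    intro g h hg hh
    show g.σ * h.σ = 1
    rw [show g.σ = 1 from hg, show h.σ = 1 from hh, mul_one]
  one_mem' := rfl
  inv_mem' := by
    intro g hg
    show g.σ⁻¹ = 1
    rw [show g.σ = 1 from hg, inv_one]

theorem mem_D {g : WG N p} : g ∈ D N p ↔ g.σ = 1 := Iff.rfl

end WG

def S_REP : Prop := ∀ (p : ℕ), p.Prime → p ≠ 2 → ∀ (N : ℕ) (K : Type) [Field K] [CharP K p],
  SmallTriv K (WG N p) (WG.D N p) ((N - 2) / 2)

end Pool.Agent.P8H83.ZL
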