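import Pool.Agent.P8H83.ZL.Stm
import Pool.Agent.H185.ZM.Equi

/-!
# Statement of the topological package
-/

set_option autoImplicit false

namespace Pool.Agent.P8H83.ZL

open Module Pool.Agent.H185.ZM
open scoped Manifold ContDiff

/-- A finite group acting smoothly on a closed connected manifold acts on a finite cochain complex
of permutation modules which computes the cohomology; the stabilizers of the basis elements fix
points of the manifold. -/
def S_TOP : Prop := ∀ (E : Type) [NormedAddCommGroup E] [NormedSpace ℝ E] [FiniteDimensional ℝ E]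
  (M : Type) [TopologicalSpace M] [ChartedSpace E M] [IsManifold 𝓘(ℝ, E) ∞ M]
  [CompactSpace M] [T2Space M] [ConnectedSpace M] (P : Type) [Group P] [Finite P]
  (a : P → M → M), SmoothAction E a → ∀ (K : Type) [Field K],
  ∃ (X : ℕ → Type) (φ : ∀ n, P →* Equiv.Perm (X n))
    (d : ∀ n, (X n → K) →ₗ[K] (X (n + 1) → K)) (N : ℕ),
    (∀ n, Finite (X n)) ∧ (∀ n, N ≤ n → IsEmpty (X n)) ∧ Nonempty (X 0) ∧
    (∀ n f, d (n + 1) (d n f) = 0) ∧ d 0 (fun _ => 1) = 0 ∧
    (∀ n g f, d n (permR K (φ n) g f) = permR K (φ (n + 1)) g (d n f)) ∧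
    (∀ n (x : X n), ∃ y : M, ∀ g, φ n g x = x → a g y = y) ∧
    (∀ n, finrank K (LinearMap.ker (d n)) =
      finrank K (Pool.Agent.Helper381.cobound K (fun n => X n → K) d n) +
        finrank K (Pool.Agent.Helper381.SingularCohomology K M n))

end Pool.Agent.P8H83.ZL
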